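import Pool.Agent.K7.H78.MZ.Cube

/-!
# The number of free coordinates is large on average
-/

set_option autoImplicit false

namespace Pool.Agent.K7.H78.MZ

open Finset

section

variable {X ι : Type} [Fintype X] [DecidableEq X] [Fintype ι] [DecidableEq ι]

/-- local modifications: `γ i x` is good at `i`, and the other places are not affected -/
structure Local (D : X → Finset ι) (γ : ι → X → X) (K : ℕ) : Prop where
  good : ∀ i x, i ∈ D (γ i x)
  other : ∀ i j, i ≠ j → ∀ x, j ∈ D (γ i x) ↔ j ∈ D x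
  fib : ∀ i y, (univ.filter fun x => γ i x = y).card ≤ K

variable {D : X → Finset ι} {γ : ι → X → X} {K : ℕ}

theorem Local.sum_inv (h : Local D γ K) :
    (Fintype.card ι : ℝ) * ∑ x, 1 / (((D x).card : ℝ) + 1) ≤ K * Fintype.card X := by
  have h1 : ∀ i x, 1 / (((D x).card : ℝ) + 1) ≤ 1 / ((D (γ i x)).card : ℝ) := by
    intro i x
    have h2 : 0 < (D (γ i x)).card := card_pos.2 ⟨i, h.good i x⟩
    have h3 : (D (γ i x)).card ≤ (D x).card + 1 := by
      have h4 : D (γ i x) ⊆ insert i (D x) := by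
        intro j hj
        rcases eq_or_ne i j with rfl | hij
        · exact mem_insert_self _ _
        · exact mem_insert_of_mem ((h.other i j hij x).1 hj)
      exact (card_le_card h4).trans (card_insert_le _ _)
    refine one_div_le_one_div_of_le (by exact_mod_cast h2) ?_
    exact_mod_cast h3
  have h2 : ∀ i, ∑ x, 1 / ((D (γ i x)).card : ℝ) ≤
      K * ∑ y ∈ univ.filter (fun y => i ∈ D y), 1 / ((D y).card : ℝ) := by
    intro i
    have h3 : ∑ x, 1 / ((D (γ i x)).card : ℝ) =
        ∑ y ∈ univ.filter (fun y => i ∈ D y), ∑ x ∈ univ.filter (fun x => γ i x = y),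
          1 / ((D (γ i x)).card : ℝ) := by
      refine (sum_fiberwise_of_maps_to (g := γ i) ?_ _).symm
      intro x _
      rw [mem_filter]
      exact ⟨mem_univ _, h.good i x⟩
    rw [h3, mul_sum]
    refine sum_le_sum fun y _ => ?_
    have h4 : ∀ x ∈ univ.filter (fun x => γ i x = y), 1 / ((D (γ i x)).card : ℝ) = 1 / ((D y).card : ℝ) := by
      intro x hx
      rw [(mem_filter.1 hx).2]
    rw [sum_congr rfl h4, sum_const, nsmul_eq_mul]
    refine mul_le_mul_of_nonneg_right ?_ (by positivity)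
    exact_mod_cast h.fib i y
  calc (Fintype.card ι : ℝ) * ∑ x, 1 / (((D x).card : ℝ) + 1)
      = ∑ _i : ι, ∑ x, 1 / (((D x).card : ℝ) + 1) := by rw [sum_const, card_univ, nsmul_eq_mul]
    _ ≤ ∑ i : ι, ∑ x, 1 / ((D (γ i x)).card : ℝ) := sum_le_sum fun i _ => sum_le_sum fun x _ => h1 i x
    _ ≤ ∑ i : ι, K * ∑ y ∈ univ.filter (fun y => i ∈ D y), 1 / ((D y).card : ℝ) :=
        sum_le_sum fun i _ => h2 i
    _ = K * ∑ y, ∑ i ∈ univ.filter (fun i => i ∈ D y), 1 / ((D y).card : ℝ) := by
        rw [← mul_sum]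
        congr 1
        simp only [sum_filter]
        exact sum_comm
    _ ≤ K * ∑ _y : X, 1 := by
        refine mul_le_mul_of_nonneg_left (sum_le_sum fun y _ => ?_) (Nat.cast_nonneg _)
        have h5 : univ.filter (fun i => i ∈ D y) = D y := by
          ext i
          simp
        rw [h5, sum_const, nsmul_eq_mul, mul_one_div]
        exact div_self_le_one _
    _ = K * Fintype.card X := by rw [sum_const, card_univ, nsmul_eq_mul, mul_one]

theorem Local.sum_sqrt (h : Local D γ K) (hι : 0 < Fintype.card ι) :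
    ∑ x, 1 / Real.sqrt (((D x).card : ℝ) + 1) ≤
      Fintype.card X * Real.sqrt (K / Fintype.card ι) := by
  have hι' : (0 : ℝ) < Fintype.card ι := by exact_mod_cast hι
  have h1 := h.sum_inv
  have h2 : ∑ x, 1 / (((D x).card : ℝ) + 1) ≤ K * Fintype.card X / Fintype.card ι := by
    rw [le_div_iff₀ hι', mul_comm]
    exact h1
  have h3 := sq_sum_le_card_mul_sum_sq (s := (univ : Finset X))
    (f := fun x => 1 / Real.sqrt (((D x).card : ℝ) + 1))
  have h4 : ∀ x : X, (1 / Real.sqrt (((D x).card : ℝ) + 1)) ^ 2 = 1 / (((D x).card : ℝ) + 1) := by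
    intro x
    rw [div_pow, one_pow, Real.sq_sqrt (by positivity)]
  simp only [h4, card_univ] at h3
  refine (sq_le_sq₀ (sum_nonneg fun x _ => by positivity) (by positivity)).1 (h3.trans ?_)
  rw [mul_pow, Real.sq_sqrt (by positivity)]
  calc (Fintype.card X : ℝ) * ∑ x, 1 / (((D x).card : ℝ) + 1)
      ≤ Fintype.card X * (K * Fintype.card X / Fintype.card ι) :=
        mul_le_mul_of_nonneg_left h2 (Nat.cast_nonneg _)
    _ = _ := by ring

/-- **anticoncentration** -/
theorem anti {Kl : Type} [DecidableEq Kl] {cls : X → Kl} {o : X → Finset ι} {F : X → ℝ} {c : ℝ}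
    (hC : Cubes cls D o F c) (h : Local D γ K) (hc : 0 < c) (hι : 0 < Fintype.card ι) (a L : ℝ) (hL : 0 ≤ L) :
    ((univ.filter fun x => a ≤ F x ∧ F x ≤ a + L).card : ℝ) ≤
      (L / c + 1) * (Fintype.card X * Real.sqrt (K / Fintype.card ι)) :=
  (hC.count' hc a L hL).trans (mul_le_mul_of_nonneg_left (h.sum_sqrt hι) (by positivity))

end

end Pool.Agent.K7.H78.MZ
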