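import Pool.Agent.K7.H78.MZ.Wrd
import Pool.Agent.K7.H78.MZ.Mean

/-!
# Anticoncentration of the logarithm of the multiple zeta value of a random word
-/

set_option autoImplicit false

namespace Pool.Agent.K7.H78.MZ

open Finset

lemma AdmW_mk (m : List Bool) : AdmW (false :: (m ++ [true])) := by
  right
  constructor
  · rfl
  · rw [← List.cons_append, List.getLast?_append]
    simp

/-- the word with two given halves of the middle part -/
def wd {h : ℕ} (e : List Bool) (x : (Fin h → Bool) × (Fin h → Bool)) : List Bool :=
  false :: ((List.ofFn x.1 ++ (List.ofFn x.2 ++ e)) ++ [true])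

lemma AdmW_wd {h : ℕ} (e : List Bool) (x : (Fin h → Bool) × (Fin h → Bool)) : AdmW (wd e x) := AdmW_mk _

/-- classes -/
def cl {h : ℕ} (x : (Fin h → Bool) × (Fin h → Bool)) : Fin h → Option Bool := fun i =>
  if x.1 i = x.2 i then some (x.1 i) else none

def Ds {h : ℕ} (x : (Fin h → Bool) × (Fin h → Bool)) : Finset (Fin h) := univ.filter fun i => x.1 i ≠ x.2 i

def Os {h : ℕ} (x : (Fin h → Bool) × (Fin h → Bool)) : Finset (Fin h) :=
  univ.filter fun i => x.1 i = true ∧ x.2 i = false

lemma mem_Ds {h : ℕ} (x : (Fin h → Bool) × (Fin h → Bool)) (i : Fin h) : i ∈ Ds x ↔ x.1 i ≠ x.2 i := by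
  simp [Ds]

lemma mem_Os {h : ℕ} (x : (Fin h → Bool) × (Fin h → Bool)) (i : Fin h) :
    i ∈ Os x ↔ x.1 i = true ∧ x.2 i = false := by
  simp [Os]

lemma cl_eq {h : ℕ} {x y : (Fin h → Bool) × (Fin h → Bool)} (hc : cl x = cl y) (i : Fin h) :
    (x.1 i = x.2 i ∧ y.1 i = x.1 i ∧ y.2 i = x.2 i) ∨ (x.1 i ≠ x.2 i ∧ y.1 i ≠ y.2 i) := by
  have h1 := congrFun hc i
  unfold cl at h1
  revert h1
  cases x.1 i <;> cases x.2 i <;> cases y.1 i <;> cases y.2 i <;> simp

lemma list_split {h : ℕ} (t : Fin h → Bool) (i : Fin h) :
    List.ofFn t = (List.ofFn t).take i ++ t i :: (List.ofFn t).drop (i + 1) := by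
  have h1 : (i : ℕ) < (List.ofFn t).length := by rw [List.length_ofFn]; exact i.2
  have h2 : (List.ofFn t)[(i : ℕ)]'h1 = t i := by
    rw [List.getElem_ofFn]
  conv_lhs => rw [← List.take_append_drop (i : ℕ) (List.ofFn t)]
  rw [List.drop_eq_getElem_cons h1, h2]

lemma take_update {h : ℕ} (t : Fin h → Bool) (i : Fin h) (a : Bool) :
    (List.ofFn (Function.update t i a)).take i = (List.ofFn t).take i := by
  apply List.ext_getElem
  · simp
  · intro n h1 h2
    rw [List.getElem_take, List.getElem_take, List.getElem_ofFn, List.getElem_ofFn, Function.update_of_ne]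
    intro h3
    have h4 := congrArg Fin.val h3
    simp only at h4
    rw [List.length_take] at h1
    omega

lemma drop_update {h : ℕ} (t : Fin h → Bool) (i : Fin h) (a : Bool) :
    (List.ofFn (Function.update t i a)).drop (i + 1) = (List.ofFn t).drop (i + 1) := by
  apply List.ext_getElem
  · simp
  · intro n h1 h2
    rw [List.getElem_drop, List.getElem_drop, List.getElem_ofFn, List.getElem_ofFn, Function.update_of_ne]
    intro h3
    have h4 := congrArg Fin.val h3
    simp only at h4
    omega

lemma wd_split {h : ℕ} (e : List Bool) (x : (Fin h → Bool) × (Fin h → Bool)) (i : Fin h) :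
    wd e x = (false :: (List.ofFn x.1).take i) ++ x.1 i ::
      (((List.ofFn x.1).drop (i + 1) ++ (List.ofFn x.2).take i) ++ x.2 i ::
        ((List.ofFn x.2).drop (i + 1) ++ (e ++ [true]))) := by
  rw [wd]
  conv_lhs => rw [list_split x.1 i, list_split x.2 i]
  simp only [List.append_assoc, List.cons_append]

theorem cubes_all {h : ℕ} (hh : 4 ≤ h) (e : List Bool) (he : e.length ≤ 1) :
    Cubes (X := (Fin h → Bool) × (Fin h → Bool)) cl Ds Os (fun x => Real.log (zv (wd e x))) (1 / 6000) where
  sub := by
    intro x i hi
    rw [mem_Os] at hi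
    rw [mem_Ds, hi.1, hi.2]
    decide
  cl := by
    intro x y hc
    ext i
    rw [mem_Ds, mem_Ds]
    rcases cl_eq hc i with ⟨h1, h2, h3⟩ | ⟨h1, h2⟩
    · rw [h2, h3]
    · simp [h1, h2]
  inj := by
    intro x y hc ho
    have h4 : ∀ i, x.1 i = y.1 i ∧ x.2 i = y.2 i := by
      intro i
      have h5 : i ∈ Os x ↔ i ∈ Os y := by rw [ho]
      rw [mem_Os, mem_Os] at h5
      rcases cl_eq hc i with ⟨h1, h2, h3⟩ | ⟨h1, h2⟩
      · exact ⟨h2.symm, h3.symm⟩
      · revert h1 h2 h5
        cases x.1 i <;> cases x.2 i <;> cases y.1 i <;> cases y.2 i <;> simp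
    exact Prod.ext (funext fun i => (h4 i).1) (funext fun i => (h4 i).2)
  sur := by
    intro x A hA
    refine ⟨(fun i => if x.1 i = x.2 i then x.1 i else decide (i ∈ A),
      fun i => if x.1 i = x.2 i then x.2 i else !decide (i ∈ A)), ?_, ?_⟩
    · funext i
      unfold cl
      by_cases h1 : x.1 i = x.2 i
      · simp only [h1, if_true]
      · simp only [h1, if_false]
        simp
    · ext i
      rw [mem_Os]
      by_cases h1 : x.1 i = x.2 i
      · have h2 : i ∉ A := fun h3 => by
          have := hA h3
          rw [mem_Ds] at this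
          exact this h1
        simp only [h1, if_true, h2, iff_false]
        cases x.2 i <;> simp
      · simp only [h1, if_false]
        simp
  step := by
    intro x y i hc hi ho
    have hiD : i ∈ Ds y := by
      have h1 : i ∈ Os y := by rw [ho]; exact mem_insert_self _ _
      rw [mem_Os] at h1
      rw [mem_Ds, h1.1, h1.2]
      decide
    have hy : y.1 i = true ∧ y.2 i = false := by
      rw [← mem_Os, ho]
      exact mem_insert_self _ _
    have hx : x.1 i = false ∧ x.2 i = true := by
      rcases cl_eq hc i with ⟨h1, h2, h3⟩ | ⟨h1, h2⟩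
      · rw [mem_Ds, h2, h3] at hiD
        exact absurd h1 hiD
      · rw [mem_Os] at hi
        revert h1 hi
        cases x.1 i <;> cases x.2 i <;> simp
    have hne : ∀ j, j ≠ i → y.1 j = x.1 j ∧ y.2 j = x.2 j := by
      intro j hj
      have h5 : j ∈ Os y ↔ j ∈ Os x := by
        rw [ho, mem_insert]
        simp [hj]
      rw [mem_Os, mem_Os] at h5
      rcases cl_eq hc j with ⟨h1, h2, h3⟩ | ⟨h1, h2⟩
      · exact ⟨h2, h3⟩
      · revert h1 h2 h5
        cases x.1 j <;> cases x.2 j <;> cases y.1 j <;> cases y.2 j <;> simp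
    have hy1 : y.1 = Function.update x.1 i true := by
      funext j
      rcases eq_or_ne j i with rfl | hj
      · rw [Function.update_self, hy.1]
      · rw [Function.update_of_ne hj, (hne j hj).1]
    have hy2 : y.2 = Function.update x.2 i false := by
      funext j
      rcases eq_or_ne j i with rfl | hj
      · rw [Function.update_self, hy.2]
      · rw [Function.update_of_ne hj, (hne j hj).2]
    have hi2 := i.2
    have h1 := zv_swap (false :: (List.ofFn x.1).take i) ((List.ofFn x.1).drop (i + 1) ++ (List.ofFn x.2).take i)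
      ((List.ofFn x.2).drop (i + 1) ++ (e ++ [true]))
      (by simp only [List.length_cons, List.length_append, List.length_take, List.length_drop,
            List.length_ofFn, List.length_nil]; omega)
      (by simp only [List.length_cons, List.length_append, List.length_take, List.length_drop,
            List.length_ofFn, List.length_nil]; omega)
      (by
        have h2 := AdmW_wd e x
        rwa [wd_split e x i, hx.1, hx.2] at h2)
      (by
        have h2 := AdmW_wd e y
        rwa [wd_split e y i, hy.1, hy.2, hy1, hy2, take_update, take_update, drop_update, drop_update] at h2)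
    have h2 : zv (wd e x) ≤ (1 - 1 / 6000) * zv (wd e y) := by
      rw [wd_split e x i, wd_split e y i, hx.1, hx.2, hy.1, hy.2, hy1, hy2, take_update, take_update,
        drop_update, drop_update]
      exact h1
    have h3 := (AdmW_wd e x).pos
    have h4 := (AdmW_wd e y).pos
    have h5 : Real.log (zv (wd e x)) ≤ Real.log (1 - 1 / 6000) + Real.log (zv (wd e y)) := by
      rw [← Real.log_mul (by norm_num) h4.ne']
      exact Real.log_le_log h3 h2
    have h6 : Real.log (1 - 1 / 6000) ≤ -(1 / 6000) := by
      have := Real.log_le_sub_one_of_pos (show (0 : ℝ) < 1 - 1 / 6000 by norm_num)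
      linarith
    linarith

theorem local_all {h : ℕ} : Local (X := (Fin h → Bool) × (Fin h → Bool)) Ds
    (fun i x => (x.1, Function.update x.2 i (!x.1 i))) 2 where
  good := by
    intro i x
    rw [mem_Ds]
    simp
  other := by
    intro i j hij x
    rw [mem_Ds, mem_Ds]
    simp only [Function.update_of_ne hij.symm]
  fib := by
    intro i y
    have h1 : (univ.filter fun x : (Fin h → Bool) × (Fin h → Bool) =>
        (x.1, Function.update x.2 i (!x.1 i)) = y) ⊆
        {(y.1, Function.update y.2 i false), (y.1, Function.update y.2 i true)} := by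
      intro x hx
      have h2 := (mem_filter.1 hx).2
      rw [← h2, mem_insert, mem_singleton]
      have h3 : x.2 = Function.update (Function.update x.2 i (!x.1 i)) i (x.2 i) := by
        rw [Function.update_idem, Function.update_eq_self]
      cases hb : x.2 i
      · left
        refine Prod.ext rfl ?_
        simp only
        rw [hb] at h3
        exact h3
      · right
        refine Prod.ext rfl ?_
        simp only
        rw [hb] at h3
        exact h3
    exact (card_le_card h1).trans (card_insert_le _ _)

theorem anti_all {h : ℕ} (hh : 4 ≤ h) (e : List Bool) (he : e.length ≤ 1) (a L : ℝ) (hL : 0 ≤ L) :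
    ((univ.filter fun x : (Fin h → Bool) × (Fin h → Bool) =>
      a ≤ Real.log (zv (wd e x)) ∧ Real.log (zv (wd e x)) ≤ a + L).card : ℝ) ≤
      (6000 * L + 1) * (4 ^ h * Real.sqrt (2 / h)) := by
  have h1 := anti (cubes_all hh e he) local_all (by norm_num) (by rw [Fintype.card_fin]; omega) a L hL
  rw [Fintype.card_prod, Fintype.card_fun, Fintype.card_fin, Fintype.card_bool] at h1
  refine h1.trans (le_of_eq ?_)
  have h2 : ((2 ^ h * 2 ^ h : ℕ) : ℝ) = 4 ^ h := by
    push_cast
    rw [← mul_pow]
    norm_num
  rw [h2]
  push_cast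
  ring

end Pool.Agent.K7.H78.MZ
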