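import Pool.Agent.K7.H78.MZ.Swap

/-!
# The swap lemma with constants
-/

set_option autoImplicit false

namespace Pool.Agent.K7.H78.MZ

open MeasureTheory Set Filter Topology
open scoped ENNReal

/-- moving a letter `x` to smaller variables increases the value -/
theorem swap_le (u V w : List Bool) :
    Zt (u.reverse ++ false :: (V ++ true :: w)) ≤ Zt (u.reverse ++ true :: (V ++ false :: w)) := by
  rw [Zt_two, Zt_two]
  refine lintegral_mono fun r => setLIntegral_mono' measurableSet_Ioi fun s hs => ?_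
  refine mul_le_mul_right ?_ _
  rw [wt_swap]
  have : ENNReal.ofReal (Real.exp (-(s - r))) ≤ 1 := by
    rw [ENNReal.ofReal_le_one]
    have : r < s := hs
    exact Real.exp_le_one_iff.2 (by linarith)
  calc _ ≤ 1 * (wt true r * wt false s) := mul_le_mul_left this _
    _ = _ := one_mul _

lemma num1 : (Real.exp 8)⁻¹ ≥ 1 / 2982 := by
  have h1 := Real.exp_one_lt_d9
  have h2 : Real.exp 8 = Real.exp 1 ^ 8 := by rw [← Real.exp_nat_mul]; norm_num
  have h3 : Real.exp 8 ≤ 2982 := by
    rw [h2]
    calc Real.exp 1 ^ 8 ≤ 2.7182818286 ^ 8 := pow_le_pow_left₀ (Real.exp_pos _).le h1.le _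
      _ ≤ 2982 := by norm_num
  rw [ge_iff_le, one_div]
  exact inv_anti₀ (Real.exp_pos _) h3

lemma num2 : Real.exp (-2) ≤ 1 / 7 := by
  have h1 := Real.exp_one_gt_d9
  have h2 : Real.exp 2 = Real.exp 1 ^ 2 := by rw [← Real.exp_nat_mul]; norm_num
  have h3 : 7 ≤ Real.exp 2 := by
    rw [h2]
    calc (7 : ℝ) ≤ 2.7182818283 ^ 2 := by norm_num
      _ ≤ Real.exp 1 ^ 2 := pow_le_pow_left₀ (by norm_num) h1.le _
  rw [Real.exp_neg, one_div]
  exact inv_anti₀ (by norm_num) h3

/-- **the swap lemma**: moving a letter `x` from above to below a quarter of the word -/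
theorem swap_const (u V w : List Bool) (h10 : 10 ≤ u.length + V.length + w.length + 2)
    (h4 : u.length + V.length + w.length + 2 ≤ 4 * V.length) :
    Zt (u.reverse ++ false :: (V ++ true :: w)) ≤
      ENNReal.ofReal (1 - 1 / 6000) * Zt (u.reverse ++ true :: (V ++ false :: w)) := by
  set δ : ℝ := Real.exp (-8) with hδ
  have hδ0 : 0 < δ := Real.exp_pos _
  refine (swap δ hδ0.le u V w).trans (mul_le_mul_left ?_ _)
  set p : ℕ := u.length + V.length + w.length + 2 with hp
  have h1 : ex (u.length + w.length + 2) * kap δ ^ V.length ≤ ENNReal.ofReal (Real.exp (-10)) := by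
    rw [ex, kap, ← ENNReal.ofReal_pow (by positivity), ← ENNReal.ofReal_mul (Real.exp_pos _).le]
    refine ENNReal.ofReal_le_ofReal ?_
    have h2 : δ / (δ + 2) ≤ Real.exp (-8) := by
      rw [div_le_iff₀ (by positivity), ← hδ]
      nlinarith
    calc Real.exp (u.length + w.length + 2) * (Real.exp 1 * (δ / (δ + 2))) ^ V.length
        ≤ Real.exp (u.length + w.length + 2) * (Real.exp 1 * Real.exp (-8)) ^ V.length := by
          refine mul_le_mul_of_nonneg_left (pow_le_pow_left₀ (by positivity) ?_ _) (Real.exp_pos _).le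
          exact mul_le_mul_of_nonneg_left h2 (Real.exp_pos _).le
      _ = Real.exp (u.length + w.length + 2 + V.length * (1 + -8)) := by
          rw [← Real.exp_add 1, ← Real.exp_nat_mul, ← Real.exp_add]
      _ ≤ Real.exp (-10) := by
          refine Real.exp_le_exp.2 ?_
          have h5 : (10 : ℝ) ≤ p := by exact_mod_cast h10
          have h6 : (p : ℝ) ≤ 4 * V.length := by exact_mod_cast h4
          have h7 : (p : ℝ) = u.length + V.length + w.length + 2 := by rw [hp]; push_cast; ring
          linarith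
  have h2 : ex (-δ) ≤ ENNReal.ofReal (1 - δ + δ ^ 2) := by
    refine ENNReal.ofReal_le_ofReal ?_
    have h3 := Real.add_one_le_exp δ
    rw [Real.exp_neg, inv_eq_one_div, div_le_iff₀ (Real.exp_pos _)]
    have h4 : 0 < 1 - δ + δ ^ 2 := by nlinarith [sq_nonneg (δ - 1)]
    nlinarith [mul_le_mul_of_nonneg_left h3 h4.le, pow_pos hδ0 3]
  refine (add_le_add h2 h1).trans ?_
  have h3 : (0 : ℝ) ≤ 1 - δ + δ ^ 2 := by nlinarith [sq_nonneg (δ - 1)]
  rw [← ENNReal.ofReal_add h3 (Real.exp_pos _).le]
  refine ENNReal.ofReal_le_ofReal ?_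
  have h5 : Real.exp (-10) = δ * Real.exp (-2) := by
    rw [hδ, ← Real.exp_add]
    norm_num
  have h6 := num1
  rw [← Real.exp_neg] at h6
  have h7 := num2
  have h8 : δ ≤ 1 / 7 := by
    refine le_trans ?_ num2
    exact Real.exp_le_exp.2 (by norm_num)
  rw [h5]
  have h9 : δ * Real.exp (-2) ≤ δ * (1 / 7) := mul_le_mul_of_nonneg_left h7 hδ0.le
  nlinarith [h6]

end Pool.Agent.K7.H78.MZ
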