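import Mathlib

/-!
# Functions on unions of cubes which increase by a constant along every edge take few values in a short interval
-/

set_option autoImplicit false

namespace Pool.Agent.K7.H78.MZ

open Finset

/-- Sperner's theorem for the subsets of `D` -/
lemma sperner_sub {ι : Type} [DecidableEq ι] (D : Finset ι) (𝒜 : Finset (Finset ι)) (hsub : ∀ A ∈ 𝒜, A ⊆ D)
    (hanti : ∀ A ∈ 𝒜, ∀ B ∈ 𝒜, ¬ A ⊂ B) : 𝒜.card ≤ D.card.choose (D.card / 2) := by
  classical
  set f : Finset ι → Finset D := fun A => A.subtype (· ∈ D) with hf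
  have hmem : ∀ A ∈ 𝒜, ∀ i (hi : i ∈ D), (⟨i, hi⟩ : D) ∈ f A ↔ i ∈ A := by
    intro A _ i hi
    rw [hf]
    simp
  have hinj : Set.InjOn f (𝒜 : Set (Finset ι)) := by
    intro A hA B hB h
    ext i
    constructor
    · intro hi
      rw [← hmem B hB i (hsub A hA hi), ← h, hmem A hA]
      exact hi
    · intro hi
      rw [← hmem A hA i (hsub B hB hi), h, hmem B hB]
      exact hi
  have h1 : IsAntichain (· ⊆ ·) ((𝒜.image f : Finset (Finset D)) : Set (Finset D)) := by
    intro A' hA' B' hB' hne hle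
    rw [coe_image] at hA' hB'
    obtain ⟨A, hA, rfl⟩ := hA'
    obtain ⟨B, hB, rfl⟩ := hB'
    refine hanti A hA B hB ?_
    rw [Finset.ssubset_iff_subset_ne]
    refine ⟨fun i hi => ?_, fun h => hne (by rw [h])⟩
    rw [← hmem B hB i (hsub A hA hi)]
    exact hle ((hmem A hA i (hsub A hA hi)).2 hi)
  have h2 := h1.sperner
  rw [card_image_of_injOn hinj, Fintype.card_coe] at h2
  exact h2

/-- the central binomial coefficient -/
lemma central_sq (n : ℕ) : (Nat.centralBinom n) ^ 2 * (2 * n + 1) ≤ 16 ^ n := by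
  induction n with
  | zero => simp
  | succ n ih =>
    have h1 := Nat.succ_mul_centralBinom_succ n
    have h2 : (n + 1) ^ 2 * ((Nat.centralBinom (n + 1)) ^ 2 * (2 * (n + 1) + 1)) ≤
        (n + 1) ^ 2 * 16 ^ (n + 1) := by
      calc (n + 1) ^ 2 * ((Nat.centralBinom (n + 1)) ^ 2 * (2 * (n + 1) + 1))
          = ((n + 1) * Nat.centralBinom (n + 1)) ^ 2 * (2 * n + 3) := by ring
        _ = (2 * (2 * n + 1) * Nat.centralBinom n) ^ 2 * (2 * n + 3) := by rw [h1]
        _ = (Nat.centralBinom n ^ 2 * (2 * n + 1)) * (4 * ((2 * n + 1) * (2 * n + 3))) := by ring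
        _ ≤ 16 ^ n * (4 * (4 * (n + 1) ^ 2)) := by
          refine Nat.mul_le_mul ih ?_
          nlinarith
        _ = (n + 1) ^ 2 * 16 ^ (n + 1) := by ring
    exact Nat.le_of_mul_le_mul_left h2 (by positivity)

lemma choose_sq (d : ℕ) : (d.choose (d / 2)) ^ 2 * (d + 1) ≤ 4 ^ d := by
  rcases Nat.even_or_odd' d with ⟨n, rfl | rfl⟩
  · have h := central_sq n
    rw [Nat.centralBinom] at h
    rw [Nat.mul_div_cancel_left _ (by norm_num)]
    calc ((2 * n).choose n) ^ 2 * (2 * n + 1) ≤ 16 ^ n := h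
      _ = 4 ^ (2 * n) := by rw [pow_mul]; norm_num
  · have h := central_sq (n + 1)
    have h1 : (2 * n + 1) / 2 = n := by omega
    rw [h1]
    have h2 : Nat.centralBinom (n + 1) = 2 * (2 * n + 1).choose n := by
      rw [Nat.centralBinom, show 2 * (n + 1) = (2 * n + 1) + 1 by ring, Nat.choose_succ_succ,
        ← Nat.choose_symm_half n]
      ring
    rw [h2] at h
    have h3 : (16 : ℕ) ^ (n + 1) = 4 * 4 ^ (2 * n + 1) := by
      rw [show (16 : ℕ) = 4 ^ 2 by norm_num, ← pow_mul]
      ring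
    rw [h3] at h
    have h4 : 4 * (((2 * n + 1).choose n) ^ 2 * (2 * n + 1 + 1)) ≤ 4 * 4 ^ (2 * n + 1) := by
      refine le_trans ?_ h
      nlinarith [Nat.zero_le (((2 * n + 1).choose n) ^ 2)]
    exact Nat.le_of_mul_le_mul_left h4 (by norm_num)

lemma choose_le (d : ℕ) : (d.choose (d / 2) : ℝ) ≤ 2 ^ d * (1 / Real.sqrt ((d : ℝ) + 1)) := by
  have h0 : (0 : ℝ) < (d : ℝ) + 1 := by positivity
  have h1 : (0 : ℝ) < Real.sqrt ((d : ℝ) + 1) := Real.sqrt_pos.2 h0
  rw [mul_one_div, le_div_iff₀ h1]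
  have h2 : ((d.choose (d / 2) : ℝ)) ^ 2 * ((d : ℝ) + 1) ≤ 4 ^ d := by exact_mod_cast choose_sq d
  refine (sq_le_sq₀ (by positivity) (by positivity)).1 ?_
  rw [mul_pow, Real.sq_sqrt h0.le, ← pow_mul, mul_comm d 2, pow_mul]
  norm_num
  exact h2

section

variable {X K ι : Type} [Fintype X] [DecidableEq X] [DecidableEq K] [DecidableEq ι]

/-- cubes in `X` -/
structure Cubes (cls : X → K) (D o : X → Finset ι) (F : X → ℝ) (c : ℝ) : Prop where
  sub : ∀ x, o x ⊆ D x
  cl : ∀ x y, cls x = cls y → D x = D y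
  inj : ∀ x y, cls x = cls y → o x = o y → x = y
  sur : ∀ x A, A ⊆ D x → ∃ y, cls y = cls x ∧ o y = A
  step : ∀ x y i, cls x = cls y → i ∉ o x → o y = insert i (o x) → F x + c ≤ F y

variable {cls : X → K} {D o : X → Finset ι} {F : X → ℝ} {c : ℝ}

omit [Fintype X] [DecidableEq X] [DecidableEq K] in
lemma Cubes.chain (h : Cubes cls D o F c) (hc : 0 ≤ c) (n : ℕ) : ∀ x y, cls x = cls y → o x ⊂ o y →
    (o y).card ≤ n → F x + c ≤ F y := by
  induction n with
  | zero =>
    intro x y _ h2 h3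
    rw [Nat.le_zero, card_eq_zero] at h3
    rw [h3] at h2
    exact absurd h2 (Finset.not_ssubset_empty _)
  | succ n ih =>
    intro x y h1 h2 h3
    obtain ⟨i, hi, hix⟩ := Finset.exists_of_ssubset h2
    obtain ⟨z, hz1, hz2⟩ := h.sur y ((o y).erase i) ((erase_subset _ _).trans (h.sub y))
    have h4 : F z + c ≤ F y := h.step z y i hz1 (by rw [hz2]; exact notMem_erase _ _)
      (by rw [hz2, insert_erase hi])
    have h5 : o x ⊆ o z := by
      rw [hz2]
      exact subset_erase.2 ⟨h2.1, hix⟩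
    rcases h5.eq_or_ssubset with h6 | h6
    · have : x = z := h.inj x z (h1.trans hz1.symm) h6
      rw [this]
      exact h4
    · have h7 : (o z).card ≤ n := by
        rw [hz2, card_erase_of_mem hi]
        omega
      have := ih x z (h1.trans hz1.symm) h6 h7
      linarith

omit [DecidableEq X] in
/-- the number of points with a value in a short interval -/
theorem Cubes.count (h : Cubes cls D o F c) (hc : 0 < c) (a : ℝ) :
    ((univ.filter fun x => a ≤ F x ∧ F x < a + c).card : ℝ) ≤ ∑ x, 1 / Real.sqrt (((D x).card : ℝ) + 1) := by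
  set W : Finset X := univ.filter fun x => a ≤ F x ∧ F x < a + c with hW
  set I : Finset K := univ.image cls with hI
  have h1 : W.card = ∑ k ∈ I, (W.filter fun x => cls x = k).card :=
    card_eq_sum_card_fiberwise fun x _ => mem_image_of_mem _ (mem_univ x)
  have h2 : ∑ x, 1 / Real.sqrt (((D x).card : ℝ) + 1) =
      ∑ k ∈ I, ∑ x ∈ univ.filter (fun x => cls x = k), 1 / Real.sqrt (((D x).card : ℝ) + 1) :=
    (sum_fiberwise_of_maps_to (fun x _ => mem_image_of_mem _ (mem_univ x)) _).symm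
  rw [h1, h2, Nat.cast_sum]
  refine sum_le_sum fun k hk => ?_
  obtain ⟨x0, -, rfl⟩ := mem_image.1 hk
  set d : ℕ := (D x0).card with hd
  have h3 : ∀ x ∈ univ.filter (fun x => cls x = cls x0), 1 / Real.sqrt (((D x).card : ℝ) + 1) =
      1 / Real.sqrt ((d : ℝ) + 1) := by
    intro x hx
    rw [h.cl x x0 (mem_filter.1 hx).2]
  rw [sum_congr rfl h3, sum_const, nsmul_eq_mul]
  -- the fibre
  have h4 : (univ.filter fun x => cls x = cls x0).card = 2 ^ d := by
    rw [hd, ← card_powerset]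
    refine card_bij (fun x _ => o x) ?_ ?_ ?_
    · intro x hx
      rw [mem_powerset, ← h.cl x x0 (mem_filter.1 hx).2]
      exact h.sub x
    · intro x hx y hy hxy
      exact h.inj x y ((mem_filter.1 hx).2.trans (mem_filter.1 hy).2.symm) hxy
    · intro A hA
      obtain ⟨y, hy1, hy2⟩ := h.sur x0 A (mem_powerset.1 hA)
      exact ⟨y, mem_filter.2 ⟨mem_univ _, hy1⟩, hy2⟩
  have h5 : (W.filter fun x => cls x = cls x0).card ≤ d.choose (d / 2) := by
    have hinj : Set.InjOn o ((W.filter fun x => cls x = cls x0 : Finset X) : Set X) := by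
      intro x hx y hy hxy
      exact h.inj x y ((mem_filter.1 hx).2.trans (mem_filter.1 hy).2.symm) hxy
    rw [← card_image_of_injOn hinj]
    refine sperner_sub (D x0) _ ?_ ?_
    · intro A hA
      obtain ⟨x, hx, rfl⟩ := mem_image.1 hA
      rw [← h.cl x x0 (mem_filter.1 hx).2]
      exact h.sub x
    · intro A hA B hB hAB
      obtain ⟨x, hx, rfl⟩ := mem_image.1 hA
      obtain ⟨y, hy, rfl⟩ := mem_image.1 hB
      have h6 := h.chain hc.le _ x y ((mem_filter.1 hx).2.trans (mem_filter.1 hy).2.symm) hAB le_rfl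
      have h7 := (mem_filter.1 (mem_filter.1 hx).1).2
      have h8 := (mem_filter.1 (mem_filter.1 hy).1).2
      linarith [h7.1, h8.2]
  rw [h4]
  push_cast
  exact le_trans (by exact_mod_cast h5) (choose_le d)

/-- longer intervals -/
theorem Cubes.count' (h : Cubes cls D o F c) (hc : 0 < c) (a L : ℝ) (hL : 0 ≤ L) :
    ((univ.filter fun x => a ≤ F x ∧ F x ≤ a + L).card : ℝ) ≤
      (L / c + 1) * ∑ x, 1 / Real.sqrt (((D x).card : ℝ) + 1) := by
  set S : ℝ := ∑ x, 1 / Real.sqrt (((D x).card : ℝ) + 1) with hS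
  have hS0 : 0 ≤ S := sum_nonneg fun x _ => by positivity
  set n : ℕ := ⌊L / c⌋₊ + 1 with hn
  have h1 : (univ.filter fun x => a ≤ F x ∧ F x ≤ a + L) ⊆
      (range n).biUnion fun j => univ.filter fun x => a + j * c ≤ F x ∧ F x < (a + j * c) + c := by
    intro x hx
    obtain ⟨-, h2, h3⟩ := mem_filter.1 hx
    have h4 : 0 ≤ (F x - a) / c := div_nonneg (by linarith) hc.le
    refine mem_biUnion.2 ⟨⌊(F x - a) / c⌋₊, mem_range.2 ?_, mem_filter.2 ⟨mem_univ _, ?_, ?_⟩⟩
    · rw [hn, Nat.lt_succ_iff]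
      refine Nat.floor_le_floor ?_
      gcongr
      linarith
    · have h5 := Nat.floor_le h4
      rw [le_div_iff₀ hc] at h5
      linarith
    · have h5 := Nat.lt_floor_add_one ((F x - a) / c)
      rw [div_lt_iff₀ hc] at h5
      linarith
  have h2 := (card_le_card h1).trans card_biUnion_le
  calc ((univ.filter fun x => a ≤ F x ∧ F x ≤ a + L).card : ℝ)
      ≤ ((∑ j ∈ range n, (univ.filter fun x => a + j * c ≤ F x ∧ F x < (a + j * c) + c).card : ℕ) : ℝ) := by
        exact_mod_cast h2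
    _ = ∑ j ∈ range n, ((univ.filter fun x => a + j * c ≤ F x ∧ F x < (a + j * c) + c).card : ℝ) := by
        push_cast
        rfl
    _ ≤ ∑ _j ∈ range n, S := sum_le_sum fun j _ => h.count hc _
    _ = n * S := by rw [sum_const, card_range, nsmul_eq_mul]
    _ ≤ (L / c + 1) * S := by
        refine mul_le_mul_of_nonneg_right ?_ hS0
        rw [hn]
        push_cast
        have := Nat.floor_le (div_nonneg hL hc.le)
        linarith

end

end Pool.Agent.K7.H78.MZ
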