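import Pool.Agent.K7.H78.MZ.Hx
import Pool.Agent.K7.H78.MZ.All

/-!
# Cubes of words in `2`, `3`
-/

set_option autoImplicit false

namespace Pool.Agent.K7.H78.MZ

open Finset

/-- three letters -/
abbrev Bl : Type := Bool × Bool × Bool

def bl (a : Bl) : List Bool := [a.1, a.2.1, a.2.2]

/-- `333` -/
def bT : Bl := (true, true, true)
/-- `222` -/
def bF : Bl := (false, false, false)

lemma bT_ne : bT ≠ bF := by decide

/-- the letters of a sequence of blocks -/
def tl {h : ℕ} (t : Fin h → Bl) : List Bool := (List.ofFn t).flatMap bl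

/-- the weight -/
def wtl (l : List Bool) : ℕ := (wl l).length

lemma wtl_nil : wtl [] = 0 := rfl
lemma wtl_cons (a : Bool) (l : List Bool) : wtl (a :: l) = (if a then 3 else 2) + wtl l := by
  cases a <;> simp [wtl, wl] <;> omega
lemma wtl_append (a b : List Bool) : wtl (a ++ b) = wtl a + wtl b := by
  rw [wtl, wl_append, List.length_append]
  rfl

lemma wtl_ge (l : List Bool) : 2 * l.length ≤ wtl l := by
  induction l with
  | nil => simp [wtl_nil]
  | cons a l ih =>
    rw [wtl_cons, List.length_cons]
    cases a <;> simp <;> omega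

lemma wtl_le (l : List Bool) : wtl l ≤ 3 * l.length := by
  induction l with
  | nil => simp [wtl_nil]
  | cons a l ih =>
    rw [wtl_cons, List.length_cons]
    cases a <;> simp <;> omega

lemma tl_length {h : ℕ} (t : Fin h → Bl) : (tl t).length = 3 * h := by
  unfold tl
  rw [List.length_flatMap]
  have : (List.ofFn t).map (fun a => (bl a).length) = (List.ofFn t).map fun _ => 3 :=
    List.map_congr_left fun a _ => rfl
  rw [this, List.map_const', List.sum_replicate, List.length_ofFn, smul_eq_mul, mul_comm]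

lemma wtl_flatMap (L : List Bl) : wtl (L.flatMap bl) = (L.map fun a => wtl (bl a)).sum := by
  induction L with
  | nil => rfl
  | cons a L ih => rw [List.flatMap_cons, wtl_append, ih, List.map_cons, List.sum_cons]

lemma wtl_tl {h : ℕ} (t : Fin h → Bl) : wtl (tl t) = ∑ i, wtl (bl (t i)) := by
  unfold tl
  rw [wtl_flatMap, List.map_ofFn, List.sum_ofFn]
  rfl

lemma tl_inj {h : ℕ} {t t' : Fin h → Bl} (e : tl t = tl t') : t = t' := by
  unfold tl at e
  have key : ∀ L L' : List Bl, L.length = L'.length → L.flatMap bl = L'.flatMap bl → L = L' := by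
    intro L
    induction L with
    | nil =>
      intro L' h1 _
      exact (List.length_eq_zero_iff.1 h1.symm).symm
    | cons a L ih =>
      intro L' h1 h2
      cases L' with
      | nil => simp at h1
      | cons a' L' =>
        rw [List.flatMap_cons, List.flatMap_cons] at h2
        obtain ⟨h3, h4⟩ := List.append_inj h2 rfl
        rw [ih L' (by simpa using h1) h4]
        have h5 : a = a' := by
          obtain ⟨x, y, z⟩ := a
          obtain ⟨x', y', z'⟩ := a'
          simp only [bl, List.cons.injEq, and_true] at h3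
          obtain ⟨rfl, rfl, rfl⟩ := h3
          rfl
        rw [h5]
  exact List.ofFn_injective (key _ _ (by simp) e)

lemma tl_sur (h : ℕ) : ∀ l : List Bool, l.length = 3 * h → ∃ t : Fin h → Bl, tl t = l := by
  induction h with
  | zero =>
    intro l hl
    refine ⟨fun i => i.elim0, ?_⟩
    rw [List.length_eq_zero_iff.1 (by omega : l.length = 0)]
    simp [tl]
  | succ h ih =>
    intro l hl
    match l, hl with
    | a :: b :: c :: l, hl =>
      obtain ⟨t, ht⟩ := ih l (by simp only [List.length_cons] at hl; omega)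
      refine ⟨Fin.cons (a, b, c) t, ?_⟩
      unfold tl at ht ⊢
      rw [List.ofFn_succ, List.flatMap_cons]
      simp only [Fin.cons_zero, Fin.cons_succ]
      rw [ht]
      rfl
    | [], hl => simp at hl
    | [a], hl => simp only [List.length_cons, List.length_nil] at hl; omega
    | [a, b], hl => simp only [List.length_cons, List.length_nil] at hl; omega

/-- the letters of a word in four parts -/
def asm {h g : ℕ} (x : (Fin h → Bl) × (Fin h → Bl) × (Fin g → Bool) × List Bool) : List Bool :=
  tl x.1 ++ (List.ofFn x.2.2.1 ++ (tl x.2.1 ++ x.2.2.2))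

lemma wtl_asm {h g : ℕ} (x : (Fin h → Bl) × (Fin h → Bl) × (Fin g → Bool) × List Bool) :
    wtl (asm x) = (∑ i, (wtl (bl (x.1 i)) + wtl (bl (x.2.1 i)))) + (wtl (List.ofFn x.2.2.1) + wtl x.2.2.2) := by
  unfold asm
  rw [wtl_append, wtl_append, wtl_append, wtl_tl, wtl_tl, sum_add_distrib]
  ring

lemma asm_inj {h g : ℕ} {x y : (Fin h → Bl) × (Fin h → Bl) × (Fin g → Bool) × List Bool}
    (e : asm x = asm y) : x = y := by
  unfold asm at e
  obtain ⟨e1, e2⟩ := List.append_inj e (by rw [tl_length, tl_length])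
  obtain ⟨e3, e4⟩ := List.append_inj e2 (by rw [List.length_ofFn, List.length_ofFn])
  obtain ⟨e5, e6⟩ := List.append_inj e4 (by rw [tl_length, tl_length])
  exact Prod.ext (tl_inj e1) (Prod.ext (tl_inj e5) (Prod.ext (List.ofFn_injective e3) e6))

lemma asm_sur (h g : ℕ) (l : List Bool) (hl : 6 * h + g ≤ l.length) :
    ∃ x : (Fin h → Bl) × (Fin h → Bl) × (Fin g → Bool) × List Bool, asm x = l := by
  obtain ⟨t, ht⟩ := tl_sur h (l.take (3 * h)) (by rw [List.length_take]; omega)
  obtain ⟨b, hb⟩ := tl_sur h (((l.drop (3 * h)).drop g).take (3 * h)) (by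
    rw [List.length_take, List.length_drop, List.length_drop]; omega)
  have hm : ((l.drop (3 * h)).take g).length = g := by
    rw [List.length_take, List.length_drop]
    omega
  refine ⟨(t, b, fun j => ((l.drop (3 * h)).take g).get (j.cast hm.symm),
    ((l.drop (3 * h)).drop g).drop (3 * h)), ?_⟩
  unfold asm
  simp only
  have h1 : List.ofFn (fun j : Fin g => ((l.drop (3 * h)).take g).get (j.cast hm.symm)) =
      (l.drop (3 * h)).take g := by
    apply List.ext_getElem
    · rw [List.length_ofFn, hm]
    · intro n h2 h3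
      rw [List.getElem_ofFn]
      rfl
  rw [h1, ht, hb, List.take_append_drop, List.take_append_drop, List.take_append_drop]

/-- the lists of letters of weight `k` -/
lemma HL_finite (k : ℕ) : {l : List Bool | wtl l = k}.Finite := by
  refine (List.finite_length_le Bool k).subset ?_
  intro l hl
  have h1 := wtl_ge l
  have h2 : wtl l = k := hl
  change l.length ≤ k
  omega

noncomputable def HL (k : ℕ) : Finset (List Bool) := (HL_finite k).toFinset

lemma mem_HL (k : ℕ) (l : List Bool) : l ∈ HL k ↔ wtl l = k := by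
  rw [HL, Set.Finite.mem_toFinset]
  rfl

/-- the words of weight `k` in four parts -/
def Xt (h g k : ℕ) : Type := {x : (Fin h → Bl) × (Fin h → Bl) × (Fin g → Bool) × List Bool // wtl (asm x) = k}

instance (h g k : ℕ) : Finite (Xt h g k) :=
  Finite.of_injective (β := HL k) (fun x => ⟨asm x.1, (mem_HL _ _).2 x.2⟩) fun x y e =>
    Subtype.ext (asm_inj (congrArg Subtype.val e))

noncomputable instance (h g k : ℕ) : Fintype (Xt h g k) := Fintype.ofFinite _
noncomputable instance (h g k : ℕ) : DecidableEq (Xt h g k) := Classical.decEq _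

/-- active pairs -/
def act (a b : Bl) : Prop := (a = bT ∧ b = bF) ∨ (a = bF ∧ b = bT)

instance (a b : Bl) : Decidable (act a b) := by unfold act; infer_instance

abbrev Kt (h g : ℕ) : Type := (Fin h → Option (Bl × Bl)) × (Fin g → Bool) × List Bool

/-- the class -/
def clX {h g k : ℕ} (x : Xt h g k) : Kt h g :=
  (fun i => if act (x.1.1 i) (x.1.2.1 i) then none else some (x.1.1 i, x.1.2.1 i), x.1.2.2.1, x.1.2.2.2)

def dX {h g k : ℕ} (x : Xt h g k) : Finset (Fin h) := univ.filter fun i => act (x.1.1 i) (x.1.2.1 i)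

def oX {h g k : ℕ} (x : Xt h g k) : Finset (Fin h) := univ.filter fun i => x.1.1 i = bF ∧ x.1.2.1 i = bT

lemma mem_dX {h g k : ℕ} (x : Xt h g k) (i : Fin h) : i ∈ dX x ↔ act (x.1.1 i) (x.1.2.1 i) := by simp [dX]

lemma mem_oX {h g k : ℕ} (x : Xt h g k) (i : Fin h) : i ∈ oX x ↔ x.1.1 i = bF ∧ x.1.2.1 i = bT := by simp [oX]

lemma clX_eq {h g k : ℕ} {x y : Xt h g k} (hc : clX x = clX y) (i : Fin h) :
    (¬ act (x.1.1 i) (x.1.2.1 i) ∧ y.1.1 i = x.1.1 i ∧ y.1.2.1 i = x.1.2.1 i) ∨
      (act (x.1.1 i) (x.1.2.1 i) ∧ act (y.1.1 i) (y.1.2.1 i)) := by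
  have h1 := congrFun (congrArg Prod.fst hc) i
  simp only [clX] at h1
  by_cases h2 : act (x.1.1 i) (x.1.2.1 i)
  · by_cases h3 : act (y.1.1 i) (y.1.2.1 i)
    · exact Or.inr ⟨h2, h3⟩
    · rw [if_pos h2, if_neg h3] at h1
      exact absurd h1 (by simp)
  · by_cases h3 : act (y.1.1 i) (y.1.2.1 i)
    · rw [if_neg h2, if_pos h3] at h1
      exact absurd h1 (by simp)
    · rw [if_neg h2, if_neg h3, Option.some.injEq, Prod.mk.injEq] at h1
      exact Or.inl ⟨h2, h1.1.symm, h1.2.symm⟩

lemma tl_split {h : ℕ} (t : Fin h → Bl) (i : Fin h) :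
    tl t = ((List.ofFn t).take i).flatMap bl ++ (bl (t i) ++ ((List.ofFn t).drop (i + 1)).flatMap bl) := by
  have h1 : (i : ℕ) < (List.ofFn t).length := by rw [List.length_ofFn]; exact i.2
  have h2 : (List.ofFn t)[(i : ℕ)]'h1 = t i := by
    rw [List.getElem_ofFn]
  unfold tl
  conv_lhs => rw [← List.take_append_drop (i : ℕ) (List.ofFn t)]
  rw [List.drop_eq_getElem_cons h1, h2, List.flatMap_append, List.flatMap_cons]

lemma take_upd {h : ℕ} (t : Fin h → Bl) (i : Fin h) (a : Bl) :
    (List.ofFn (Function.update t i a)).take i = (List.ofFn t).take i := by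
  apply List.ext_getElem
  · simp
  · intro n h1 h2
    rw [List.getElem_take, List.getElem_take, List.getElem_ofFn, List.getElem_ofFn, Function.update_of_ne]
    intro h3
    have h4 := congrArg Fin.val h3
    simp only at h4
    rw [List.length_take] at h1
    omega

lemma drop_upd {h : ℕ} (t : Fin h → Bl) (i : Fin h) (a : Bl) :
    (List.ofFn (Function.update t i a)).drop (i + 1) = (List.ofFn t).drop (i + 1) := by
  apply List.ext_getElem
  · simp
  · intro n h1 h2
    rw [List.getElem_drop, List.getElem_drop, List.getElem_ofFn, List.getElem_ofFn, Function.update_of_ne]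
    intro h3
    have h4 := congrArg Fin.val h3
    simp only at h4
    omega

lemma AdmW_wl (l : List Bool) : AdmW (wl l) := by
  by_cases h : l = []
  · subst h
    exact Or.inl rfl
  · obtain ⟨V, hV⟩ := wl_mid h
    rw [hV]
    exact AdmW_mk V

end Pool.Agent.K7.H78.MZ
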