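import Pool.Agent.K7.H78.MZ.Hc

/-!
# Anticoncentration for words in `2`, `3`
-/

set_option autoImplicit false

namespace Pool.Agent.K7.H78.MZ

open Finset

lemma act_cases {a b a' b' : Bl} (h : act a b) (h' : act a' b') (ho : (a = bF ∧ b = bT) ↔ (a' = bF ∧ b' = bT)) :
    a = a' ∧ b = b' := by
  have hne := bT_ne
  rcases h with ⟨rfl, rfl⟩ | ⟨rfl, rfl⟩ <;> rcases h' with ⟨rfl, rfl⟩ | ⟨rfl, rfl⟩
  · exact ⟨rfl, rfl⟩
  · exact absurd (ho.2 ⟨rfl, rfl⟩).1 hne
  · exact absurd (ho.1 ⟨rfl, rfl⟩).1 hne
  · exact ⟨rfl, rfl⟩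

theorem cubesX {h g k : ℕ} (hg : 1 ≤ g) (h10 : 10 ≤ k) (hk : k + 8 ≤ 8 * g) :
    Cubes (X := Xt h g k) clX dX oX (fun x => Real.log (zv (wl (asm x.1)))) (1 / 6000) where
  sub := by
    intro x i hi
    rw [mem_oX] at hi
    rw [mem_dX]
    exact Or.inr hi
  cl := by
    intro x y hc
    ext i
    rw [mem_dX, mem_dX]
    rcases clX_eq hc i with ⟨h1, h2, h3⟩ | ⟨h1, h2⟩
    · rw [h2, h3]
    · simp [h1, h2]
  inj := by
    intro x y hc ho
    have h4 : ∀ i, x.1.1 i = y.1.1 i ∧ x.1.2.1 i = y.1.2.1 i := by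
      intro i
      have h5 : i ∈ oX x ↔ i ∈ oX y := by rw [ho]
      rw [mem_oX, mem_oX] at h5
      rcases clX_eq hc i with ⟨h1, h2, h3⟩ | ⟨h1, h2⟩
      · exact ⟨h2.symm, h3.symm⟩
      · exact act_cases h1 h2 h5
    have h6 := congrArg Prod.snd hc
    simp only [clX] at h6
    exact Subtype.ext (Prod.ext (funext fun i => (h4 i).1) (Prod.ext (funext fun i => (h4 i).2) h6))
  sur := by
    intro x A hA
    have hne := bT_ne
    have hact : ∀ i ∈ A, act (x.1.1 i) (x.1.2.1 i) := fun i hi => (mem_dX x i).1 (hA hi)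
    refine ⟨⟨(fun i => if act (x.1.1 i) (x.1.2.1 i) then (if i ∈ A then bF else bT) else x.1.1 i,
      fun i => if act (x.1.1 i) (x.1.2.1 i) then (if i ∈ A then bT else bF) else x.1.2.1 i, x.1.2.2), ?_⟩, ?_, ?_⟩
    · refine Eq.trans ?_ x.2
      rw [wtl_asm, wtl_asm]
      simp only
      congr 1
      refine sum_congr rfl fun i _ => ?_
      by_cases h1 : act (x.1.1 i) (x.1.2.1 i)
      · rw [if_pos h1, if_pos h1]
        rcases h1 with ⟨h2, h3⟩ | ⟨h2, h3⟩
        · rw [h2, h3]
          split_ifs
          · exact add_comm _ _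
          · rfl
        · rw [h2, h3]
          split_ifs
          · rfl
          · exact add_comm _ _
      · rw [if_neg h1, if_neg h1]
    · unfold clX
      simp only
      refine Prod.ext (funext fun i => ?_) rfl
      simp only
      by_cases h1 : act (x.1.1 i) (x.1.2.1 i)
      · simp only [h1, if_true]
        have h2 : act (if i ∈ A then bF else bT) (if i ∈ A then bT else bF) := by
          split_ifs
          · exact Or.inr ⟨rfl, rfl⟩
          · exact Or.inl ⟨rfl, rfl⟩
        rw [if_pos h2]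
      · simp only [h1, if_false]
    · ext i
      rw [mem_oX]
      simp only
      by_cases h1 : act (x.1.1 i) (x.1.2.1 i)
      · simp only [h1, if_true]
        by_cases h2 : i ∈ A
        · simp [h2]
        · simp only [h2, if_false, iff_false]
          intro h3
          exact hne h3.1
      · simp only [h1, if_false]
        constructor
        · intro h2
          exact absurd (Or.inr h2) h1
        · intro h2
          exact absurd (hact i h2) h1
  step := by
    intro x y i hc hi ho
    have hne := bT_ne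
    have hy : y.1.1 i = bF ∧ y.1.2.1 i = bT := by
      rw [← mem_oX, ho]
      exact mem_insert_self _ _
    have hx : x.1.1 i = bT ∧ x.1.2.1 i = bF := by
      rcases clX_eq hc i with ⟨h1, h2, h3⟩ | ⟨h1, h2⟩
      · rw [← h2, ← h3, hy.1, hy.2] at h1
        exact absurd (Or.inr ⟨rfl, rfl⟩) h1
      · rw [mem_oX] at hi
        rcases h1 with h3 | h3
        · exact h3
        · exact absurd h3 hi
    have hnj : ∀ j, j ≠ i → y.1.1 j = x.1.1 j ∧ y.1.2.1 j = x.1.2.1 j := by
      intro j hj
      have h5 : j ∈ oX y ↔ j ∈ oX x := by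
        rw [ho, mem_insert]
        simp [hj]
      rw [mem_oX, mem_oX] at h5
      rcases clX_eq hc j with ⟨h1, h2, h3⟩ | ⟨h1, h2⟩
      · exact ⟨h2, h3⟩
      · exact act_cases h2 h1 h5
    have hy1 : y.1.1 = Function.update x.1.1 i bF := by
      funext j
      rcases eq_or_ne j i with rfl | hj
      · rw [Function.update_self, hy.1]
      · rw [Function.update_of_ne hj, (hnj j hj).1]
    have hy2 : y.1.2.1 = Function.update x.1.2.1 i bT := by
      funext j
      rcases eq_or_ne j i with rfl | hj
      · rw [Function.update_self, hy.2]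
      · rw [Function.update_of_ne hj, (hnj j hj).2]
    have hy3 : y.1.2.2 = x.1.2.2 := by
      have h6 := congrArg Prod.snd hc
      simp only [clX] at h6
      exact h6.symm
    set P : List Bool := ((List.ofFn x.1.1).take i).flatMap bl with hP
    set Q : List Bool := ((List.ofFn x.1.1).drop (i + 1)).flatMap bl with hQ
    set P' : List Bool := ((List.ofFn x.1.2.1).take i).flatMap bl with hP'
    set Q' : List Bool := ((List.ofFn x.1.2.1).drop (i + 1)).flatMap bl with hQ'
    have ex : asm x.1 = P ++ ([true, true, true] ++ (Q ++ (List.ofFn x.1.2.2.1 ++ (P' ++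
        ([false, false, false] ++ (Q' ++ x.1.2.2.2)))))) := by
      unfold asm
      rw [tl_split x.1.1 i, tl_split x.1.2.1 i, hx.1, hx.2]
      simp only [bl, bT, bF, List.append_assoc, ← hP, ← hQ, ← hP', ← hQ']
    have ey : asm y.1 = P ++ ([false, false, false] ++ (Q ++ (List.ofFn x.1.2.2.1 ++ (P' ++
        ([true, true, true] ++ (Q' ++ x.1.2.2.2)))))) := by
      unfold asm
      rw [tl_split y.1.1 i, tl_split y.1.2.1 i, hy.1, hy.2, hy1, hy2, hy3, take_upd, take_upd, drop_upd, drop_upd]
      simp only [bl, bT, bF, List.append_assoc, ← hP, ← hQ, ← hP', ← hQ']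
    have hm : List.ofFn x.1.2.2.1 ≠ [] := by
      intro h1
      have h2 := congrArg List.length h1
      rw [List.length_ofFn, List.length_nil] at h2
      omega
    have hkx : (wl (asm x.1)).length = k := x.2
    have hml : 2 * g ≤ (wl (List.ofFn x.1.2.2.1)).length := by
      have := wtl_ge (List.ofFn x.1.2.2.1)
      rwa [List.length_ofFn] at this
    have h1 := exch P Q (List.ofFn x.1.2.2.1) P' Q' x.1.2.2.2 hm (by rw [← ex, hkx]; exact h10)
      (by rw [← ex, hkx]; omega)
    rw [← ex, ← ey, (AdmW_wl _).Zt, (AdmW_wl _).Zt, ← ENNReal.ofReal_mul (by norm_num)] at h1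
    have h3 := (AdmW_wl (asm x.1)).pos
    have h4 := (AdmW_wl (asm y.1)).pos
    have h2 : zv (wl (asm x.1)) ≤ (1 - 1 / 6000) * zv (wl (asm y.1)) :=
      (ENNReal.ofReal_le_ofReal_iff (by positivity)).1 h1
    have h5 : Real.log (zv (wl (asm x.1))) ≤ Real.log (1 - 1 / 6000) + Real.log (zv (wl (asm y.1))) := by
      rw [← Real.log_mul (by norm_num) h4.ne']
      exact Real.log_le_log h3 h2
    have h6 : Real.log (1 - 1 / 6000) ≤ -(1 / 6000) := by
      have := Real.log_le_sub_one_of_pos (show (0 : ℝ) < 1 - 1 / 6000 by norm_num)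
      linarith
    linarith

/-- a list of letters of weight `j` -/
def canon (j : ℕ) : List Bool := if j % 2 = 0 then List.replicate (j / 2) false else
  true :: List.replicate ((j - 3) / 2) false

lemma wtl_rep (n : ℕ) : wtl (List.replicate n false) = 2 * n := by
  induction n with
  | zero => rfl
  | succ n ih => rw [List.replicate_succ, wtl_cons, ih]; simp; omega

lemma wtl_canon (j : ℕ) (hj : 2 ≤ j) : wtl (canon j) = j := by
  unfold canon
  split_ifs with h
  · rw [wtl_rep]; omega
  · rw [wtl_cons, wtl_rep]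
    simp only [if_true]
    omega

lemma wtl_bl (a : Bl) : 6 ≤ wtl (bl a) ∧ wtl (bl a) ≤ 9 := by
  obtain ⟨x, y, z⟩ := a
  cases x <;> cases y <;> cases z <;> decide

/-- the new last part -/
def newr (s : ℕ) (r : List Bool) : List Bool := canon (wtl (r.take 4) + s - 15) ++ r.drop 4

lemma wtl_newr (s : ℕ) (hs : 12 ≤ s) (r : List Bool) (hr : 12 ≤ wtl r) : wtl (newr s r) + 15 = wtl r + s := by
  unfold newr
  have h1 := wtl_le r
  have h2 := wtl_ge (r.take 4)
  rw [List.length_take] at h2
  have h3 : wtl r = wtl (r.take 4) + wtl (r.drop 4) := by rw [← wtl_append, List.take_append_drop]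
  rw [wtl_append, wtl_canon _ (by omega)]
  omega

lemma wr_ge {h g k : ℕ} (hk : 18 * h + 3 * g + 12 ≤ k) (x : Xt h g k) : 12 ≤ wtl x.1.2.2.2 := by
  have h1 := x.2
  have h2 : wtl (asm x.1) = wtl (tl x.1.1) + (wtl (List.ofFn x.1.2.2.1) + (wtl (tl x.1.2.1) + wtl x.1.2.2.2)) := by
    unfold asm
    rw [wtl_append, wtl_append, wtl_append]
  have h3 := wtl_le (tl x.1.1)
  have h4 := wtl_le (tl x.1.2.1)
  have h5 := wtl_le (List.ofFn x.1.2.2.1)
  rw [tl_length] at h3 h4
  rw [List.length_ofFn] at h5
  omega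

lemma sum_update {h : ℕ} (t : Fin h → Bl) (b : Fin h → Bl) (i : Fin h) (a c : Bl) :
    (∑ j, (wtl (bl (Function.update t i a j)) + wtl (bl (Function.update b i c j)))) +
      (wtl (bl (t i)) + wtl (bl (b i))) =
    (∑ j, (wtl (bl (t j)) + wtl (bl (b j)))) + (wtl (bl a) + wtl (bl c)) := by
  rw [← sum_erase_add univ _ (mem_univ i), ← sum_erase_add univ (fun j => wtl (bl (t j)) + wtl (bl (b j))) (mem_univ i)]
  simp only [Function.update_self]
  have : ∑ j ∈ univ.erase i, (wtl (bl (Function.update t i a j)) + wtl (bl (Function.update b i c j))) =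
      ∑ j ∈ univ.erase i, (wtl (bl (t j)) + wtl (bl (b j))) := by
    refine sum_congr rfl fun j hj => ?_
    rw [Function.update_of_ne (mem_erase.1 hj).1, Function.update_of_ne (mem_erase.1 hj).1]
  rw [this]
  ring

/-- the modification at `i` -/
def modX {h g k : ℕ} (hk : 18 * h + 3 * g + 12 ≤ k) (i : Fin h) (x : Xt h g k) : Xt h g k :=
  ⟨(Function.update x.1.1 i bT, Function.update x.1.2.1 i bF, x.1.2.2.1,
    newr (wtl (bl (x.1.1 i)) + wtl (bl (x.1.2.1 i))) x.1.2.2.2), by
    have h1 := x.2
    rw [wtl_asm] at h1 ⊢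
    simp only
    have h2 := sum_update x.1.1 x.1.2.1 i bT bF
    have h3 := wtl_newr (wtl (bl (x.1.1 i)) + wtl (bl (x.1.2.1 i)))
      (by have := (wtl_bl (x.1.1 i)).1; have := (wtl_bl (x.1.2.1 i)).1; omega) x.1.2.2.2 (wr_ge hk x)
    have h4 : wtl (bl bT) = 9 := rfl
    have h5 : wtl (bl bF) = 6 := rfl
    rw [h4, h5] at h2
    omega⟩

theorem localX {h g k : ℕ} (hk : 18 * h + 3 * g + 12 ≤ k) :
    Local (X := Xt h g k) dX (fun i x => modX hk i x) 1024 where
  good := by
    intro i x
    rw [mem_dX]
    left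
    simp [modX]
  other := by
    intro i j hij x
    rw [mem_dX, mem_dX]
    simp only [modX, Function.update_of_ne hij.symm]
  fib := by
    intro i y
    set f : Xt h g k → Bl × Bl × (Fin 4 → Bool) := fun x =>
      (x.1.1 i, x.1.2.1 i, fun j => x.1.2.2.2.getD j false) with hf
    have h1 : Set.InjOn f (univ.filter fun x : Xt h g k => modX hk i x = y : Finset (Xt h g k)) := by
      intro x hx x' hx' he
      rw [mem_coe, mem_filter] at hx hx'
      have hm := hx.2.trans hx'.2.symm
      have hm1 := congrArg Subtype.val hm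
      simp only [modX, Prod.mk.injEq] at hm1
      simp only [hf, Prod.mk.injEq] at he
      obtain ⟨e1, e2, e3⟩ := he
      obtain ⟨m1, m2, m3, m4⟩ := hm1
      have hl : 4 ≤ x.1.2.2.2.length := by
        have := wr_ge hk x
        have := wtl_le x.1.2.2.2
        omega
      have hl' : 4 ≤ x'.1.2.2.2.length := by
        have := wr_ge hk x'
        have := wtl_le x'.1.2.2.2
        omega
      have e4 : x.1.2.2.2.take 4 = x'.1.2.2.2.take 4 := by
        apply List.ext_getElem
        · rw [List.length_take, List.length_take]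
          omega
        · intro n h2 h3
          rw [List.length_take] at h2
          have h4 := congrFun e3 ⟨n, by omega⟩
          simp only at h4
          rw [List.getElem_take, List.getElem_take]
          rw [List.getD_eq_getElem _ _ (by omega), List.getD_eq_getElem _ _ (by omega)] at h4
          exact h4
      have e5 : x.1.2.2.2.drop 4 = x'.1.2.2.2.drop 4 := by
        unfold newr at m4
        rw [e4, e1, e2] at m4
        exact List.append_cancel_left m4
      have e6 : x.1.2.2.2 = x'.1.2.2.2 := by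
        rw [← List.take_append_drop 4 x.1.2.2.2, ← List.take_append_drop 4 x'.1.2.2.2, e4, e5]
      have e7 : x.1.1 = x'.1.1 := by
        funext j
        rcases eq_or_ne j i with rfl | hj
        · exact e1
        · have := congrFun m1 j
          rwa [Function.update_of_ne hj, Function.update_of_ne hj] at this
      have e8 : x.1.2.1 = x'.1.2.1 := by
        funext j
        rcases eq_or_ne j i with rfl | hj
        · exact e2
        · have := congrFun m2 j
          rwa [Function.update_of_ne hj, Function.update_of_ne hj] at this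
      exact Subtype.ext (Prod.ext e7 (Prod.ext e8 (Prod.ext m3 e6)))
    have h2 := card_le_card_of_injOn f (fun x _ => mem_coe.2 (mem_univ _)) h1
    refine h2.trans (le_of_eq ?_)
    simp

theorem antiX {h g k : ℕ} (hh : 0 < h) (hg : 1 ≤ g) (h10 : 10 ≤ k) (hk : k + 8 ≤ 8 * g)
    (hk' : 18 * h + 3 * g + 12 ≤ k) (a L : ℝ) (hL : 0 ≤ L) :
    ((univ.filter fun x : Xt h g k => a ≤ Real.log (zv (wl (asm x.1))) ∧
      Real.log (zv (wl (asm x.1))) ≤ a + L).card : ℝ) ≤
      (6000 * L + 1) * (Fintype.card (Xt h g k) * Real.sqrt (1024 / h)) := by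
  have := Classical.decEq (Kt h g)
  have h1 := anti (cubesX (h := h) hg h10 hk) (localX hk') (by norm_num) (by rw [Fintype.card_fin]; exact hh) a L hL
  rw [Fintype.card_fin] at h1
  refine h1.trans (le_of_eq ?_)
  push_cast
  ring

end Pool.Agent.K7.H78.MZ
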