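import Pool.Agent.K7.H78.MZ.Hd

/-!
# Anticoncentration for Hoffman words of weight `k`
-/

set_option autoImplicit false

namespace Pool.Agent.K7.H78.MZ

open Finset

lemma sqrt_bound (h k : ℕ) (hh : 5 ≤ h) (hk : k ≤ 36 * h + 47) (hk0 : 0 < k) :
    Real.sqrt (1024 / (h : ℝ)) ≤ 222 / Real.sqrt k := by
  have hh0 : (0 : ℝ) < h := by positivity
  have hk1 : (0 : ℝ) < k := by exact_mod_cast hk0
  have h1 : (222 : ℝ) / Real.sqrt k = Real.sqrt (222 ^ 2 / k) := by
    rw [Real.sqrt_div (by norm_num), Real.sqrt_sq (by norm_num)]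
  rw [h1]
  refine Real.sqrt_le_sqrt ?_
  rw [div_le_div_iff₀ hh0 hk1]
  have h2 : (k : ℝ) ≤ 36 * h + 47 := by exact_mod_cast hk
  have h3 : (5 : ℝ) ≤ h := by exact_mod_cast hh
  nlinarith

theorem anti_HL (k : ℕ) (hk : 2 ≤ k) (a L : ℝ) (hL : 0 ≤ L) :
    (((HL k).filter fun l => a ≤ Real.log (zv (wl l)) ∧ Real.log (zv (wl l)) ≤ a + L).card : ℝ) ≤
      ((6000 * L + 1) * (222 / Real.sqrt k)) * (HL k).card := by
  classical
  have hk0 : (0 : ℝ) < k := by positivity
  have hs : 0 < Real.sqrt k := Real.sqrt_pos.2 hk0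
  by_cases hbig : 192 ≤ k
  · set h : ℕ := (k - 12) / 36 with hh
    have h5 : 5 ≤ h := by omega
    have hk1 : k ≤ 36 * h + 47 := by omega
    have hk2 : 36 * h + 12 ≤ k := by omega
    have key := antiX (h := h) (g := 6 * h) (k := k) (by omega) (by omega) (by omega) (by omega) (by omega) a L hL
    have hc : Fintype.card (Xt h (6 * h) k) ≤ (HL k).card := by
      rw [← Fintype.card_coe]
      exact Fintype.card_le_of_injective (fun x : Xt h (6 * h) k => (⟨asm x.1, (mem_HL _ _).2 x.2⟩ : HL k))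
        fun x y e => Subtype.ext (asm_inj (congrArg Subtype.val e))
    have h1 : ((HL k).filter fun l => a ≤ Real.log (zv (wl l)) ∧ Real.log (zv (wl l)) ≤ a + L) ⊆
        (univ.filter fun x : Xt h (6 * h) k => a ≤ Real.log (zv (wl (asm x.1))) ∧
          Real.log (zv (wl (asm x.1))) ≤ a + L).image fun x => asm x.1 := by
      intro l hl
      obtain ⟨h2, h3⟩ := mem_filter.1 hl
      rw [mem_HL] at h2
      have h4 := wtl_le l
      obtain ⟨x, hx⟩ := asm_sur h (6 * h) l (by omega)
      refine mem_image.2 ⟨⟨x, by rw [hx]; exact h2⟩, mem_filter.2 ⟨mem_univ _, ?_⟩, hx⟩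
      simp only [hx]
      exact h3
    calc (((HL k).filter fun l => a ≤ Real.log (zv (wl l)) ∧ Real.log (zv (wl l)) ≤ a + L).card : ℝ)
        ≤ ((univ.filter fun x : Xt h (6 * h) k => a ≤ Real.log (zv (wl (asm x.1))) ∧
          Real.log (zv (wl (asm x.1))) ≤ a + L).card : ℝ) := by
          exact_mod_cast (card_le_card h1).trans card_image_le
      _ ≤ (6000 * L + 1) * (Fintype.card (Xt h (6 * h) k) * Real.sqrt (1024 / h)) := key
      _ ≤ (6000 * L + 1) * ((HL k).card * (222 / Real.sqrt k)) := by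
          refine mul_le_mul_of_nonneg_left ?_ (by positivity)
          exact mul_le_mul (by exact_mod_cast hc) (sqrt_bound h k h5 hk1 (by omega)) (Real.sqrt_nonneg _)
            (Nat.cast_nonneg _)
      _ = _ := by ring
  · have h1 : (((HL k).filter fun l => a ≤ Real.log (zv (wl l)) ∧ Real.log (zv (wl l)) ≤ a + L).card : ℝ) ≤
        (HL k).card := by exact_mod_cast card_filter_le _ _
    refine h1.trans ?_
    have h2 : Real.sqrt k ≤ 222 := by
      rw [Real.sqrt_le_left (by norm_num)]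
      have : (k : ℝ) ≤ 192 := by exact_mod_cast (by omega : k ≤ 192)
      linarith
    have h3 : 1 ≤ 222 / Real.sqrt k := by
      rw [le_div_iff₀ hs]
      linarith
    have h4 : 1 ≤ (6000 * L + 1) * (222 / Real.sqrt k) := by
      have : 1 ≤ 6000 * L + 1 := by linarith
      nlinarith
    calc ((HL k).card : ℝ) = 1 * (HL k).card := (one_mul _).symm
      _ ≤ _ := mul_le_mul_of_nonneg_right h4 (Nat.cast_nonneg _)

/-- the arguments of a list of letters -/
def nl (l : List Bool) : List ℕ := l.map fun b => if b then 3 else 2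

lemma nl_inj : Function.Injective nl := by
  intro l l' h
  refine List.map_injective_iff.2 ?_ h
  intro a b hab
  revert hab
  cases a <;> cases b <;> simp

lemma index_wl (l : List Bool) : index 0 (wl l) = nl l := by
  induction l with
  | nil => rfl
  | cons a l ih =>
    cases a
    · rw [show wl (false :: l) = false :: true :: wl l from rfl, index, index, ih]
      rfl
    · rw [show wl (true :: l) = false :: false :: true :: wl l from rfl, index, index, index, ih]
      rfl

lemma nl_sum (l : List Bool) : (nl l).sum = wtl l := by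
  induction l with
  | nil => rfl
  | cons a l ih =>
    rw [wtl_cons, ← ih]
    rfl

/-- the Hoffman words of weight `k` -/
noncomputable def Hf (k : ℕ) : Finset (List ℕ) := (HL k).image nl

lemma mem_Hf (k : ℕ) (w : List ℕ) : w ∈ Hf k ↔ (∀ a ∈ w, a = 2 ∨ a = 3) ∧ w.sum = k := by
  rw [Hf, mem_image]
  constructor
  · rintro ⟨l, hl, rfl⟩
    rw [mem_HL] at hl
    refine ⟨?_, by rw [nl_sum, hl]⟩
    intro a ha
    obtain ⟨b, _, rfl⟩ := List.mem_map.1 ha
    cases b <;> simp
  · rintro ⟨h1, h2⟩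
    refine ⟨w.map fun a => decide (a = 3), ?_, ?_⟩
    · rw [mem_HL, ← nl_sum]
      rw [← h2]
      congr 1
      rw [nl, List.map_map]
      conv_rhs => rw [← List.map_id w]
      refine List.map_congr_left fun a ha => ?_
      rcases h1 a ha with rfl | rfl <;> simp
    · rw [nl, List.map_map]
      conv_rhs => rw [← List.map_id w]
      refine List.map_congr_left fun a ha => ?_
      rcases h1 a ha with rfl | rfl <;> simp

lemma HL_nonempty (k : ℕ) (hk : 2 ≤ k) : (HL k).Nonempty := ⟨canon k, (mem_HL _ _).2 (wtl_canon k hk)⟩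

lemma Hf_adm {k : ℕ} {w : List ℕ} (hw : w ∈ Hf k) : Pool.Agent.H447R2.MZ.Adm w := by
  obtain ⟨l, _, rfl⟩ := mem_image.1 hw
  rw [← index_wl]
  exact (AdmW_wl l).adm

lemma Hf_pos {k : ℕ} {w : List ℕ} (hw : w ∈ Hf k) : 0 < mzv w := by
  obtain ⟨l, _, rfl⟩ := mem_image.1 hw
  rw [← index_wl]
  exact (AdmW_wl l).pos

theorem anti_Hf (k : ℕ) (hk : 2 ≤ k) (a L : ℝ) (hL : 0 ≤ L) :
    (((Hf k).filter fun w => a ≤ Real.log (mzv w) ∧ Real.log (mzv w) ≤ a + L).card : ℝ) ≤
      ((6000 * L + 1) * (222 / Real.sqrt k)) * (Hf k).card := by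
  classical
  have h1 := anti_HL k hk a L hL
  have h2 : (Hf k).card = (HL k).card := by
    rw [Hf, card_image_of_injective _ nl_inj]
  rw [h2]
  refine le_trans ?_ h1
  have h3 : ((Hf k).filter fun w => a ≤ Real.log (mzv w) ∧ Real.log (mzv w) ≤ a + L) ⊆
      ((HL k).filter fun l => a ≤ Real.log (zv (wl l)) ∧ Real.log (zv (wl l)) ≤ a + L).image nl := by
    intro w hw
    obtain ⟨h4, h5⟩ := mem_filter.1 hw
    obtain ⟨l, hl, rfl⟩ := mem_image.1 h4
    refine mem_image.2 ⟨l, mem_filter.2 ⟨hl, ?_⟩, rfl⟩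
    rw [zv, index_wl]
    exact h5
  exact_mod_cast (card_le_card h3).trans card_image_le

end Pool.Agent.K7.H78.MZ
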