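import Pool.Agent.K7.H78.MZ.Tup

/-!
# Words in the letters `2 = xy` and `3 = xxy`: exchanging `333` and `222` far below it
-/

set_option autoImplicit false

namespace Pool.Agent.K7.H78.MZ

/-- `v` can be replaced by `v'` at every place of a word, and the value does not decrease -/
def Le (v v' : List Bool) : Prop := ∀ u w, Zt (u ++ (v ++ w)) ≤ Zt (u ++ (v' ++ w))

lemma Le.refl (v : List Bool) : Le v v := fun _ _ => le_rfl

lemma Le.trans {a b c : List Bool} (h1 : Le a b) (h2 : Le b c) : Le a c := fun u w => (h1 u w).trans (h2 u w)

lemma Le.app {a b c d : List Bool} (h1 : Le a b) (h2 : Le c d) : Le (a ++ c) (b ++ d) := by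
  intro u w
  have e1 := h1 u (c ++ w)
  have e2 := h2 (u ++ b) w
  simp only [List.append_assoc] at e1 e2 ⊢
  exact e1.trans e2

lemma Le.xy : Le [false, true] [true, false] := by
  intro u w
  have := swap_le u.reverse [] w
  simpa using this

lemma Le.x (v : List Bool) : Le (false :: v) (v ++ [false]) := by
  induction v with
  | nil => exact Le.refl _
  | cons a v ih =>
    cases a
    · exact (Le.refl [false]).app ih
    · exact (Le.xy.app (Le.refl v)).trans ((Le.refl [true]).app ih)

lemma Le.xx (v : List Bool) : Le ([false, false] ++ v) (v ++ [false, false]) := by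
  have h1 : Le ([false] ++ ([false] ++ v)) ([false] ++ (v ++ [false])) := (Le.refl _).app (Le.x v)
  have h2 : Le ((false :: v) ++ [false]) ((v ++ [false]) ++ [false]) := (Le.x v).app (Le.refl _)
  rw [List.append_assoc] at h2
  exact h1.trans h2

lemma Le.xxx (v : List Bool) : Le ([false, false, false] ++ v) (v ++ [false, false, false]) := by
  have h1 : Le ([false] ++ ([false, false] ++ v)) ([false] ++ (v ++ [false, false])) :=
    (Le.refl _).app (Le.xx v)
  have h2 : Le ((false :: v) ++ [false, false]) ((v ++ [false]) ++ [false, false]) := (Le.x v).app (Le.refl _)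
  rw [List.append_assoc] at h2
  exact h1.trans h2

/-- the word of a list of letters: `false` is `2 = xy`, `true` is `3 = xxy` -/
def wl : List Bool → List Bool
  | [] => []
  | false :: l => false :: true :: wl l
  | true :: l => false :: false :: true :: wl l

lemma wl_append (a b : List Bool) : wl (a ++ b) = wl a ++ wl b := by
  induction a with
  | nil => rfl
  | cons c a ih => cases c <;> simp [wl, ih]

lemma Le.t1 : Le (wl [true, true, true]) (wl [false, false, false] ++ [false, false, false]) := by
  have h1 : Le (wl [true, true, true]) (wl [false, true, true] ++ [false]) := Le.x _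
  have h2 : Le (wl [false] ++ (wl [true, true] ++ [false])) (wl [false] ++ ((wl [false, true] ++ [false]) ++ [false])) :=
    (Le.refl _).app ((Le.x _).app (Le.refl _))
  have h3 : Le (wl [false, false] ++ (wl [true] ++ [false, false]))
      (wl [false, false] ++ ((wl [false] ++ [false]) ++ [false, false])) :=
    (Le.refl _).app ((Le.x _).app (Le.refl _))
  exact h1.trans (h2.trans h3)

lemma Le.t2 : Le ([false, false, false] ++ wl [false, false, false]) (wl [true, true, true]) := by
  have h1 : Le (([false, false] ++ wl [true]) ++ wl [false, false])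
      ((wl [true] ++ [false, false]) ++ wl [false, false]) := (Le.xx _).app (Le.refl _)
  have h2 : Le (wl [true] ++ ([false] ++ wl [true]) ++ wl [false])
      (wl [true] ++ (wl [true] ++ [false]) ++ wl [false]) :=
    ((Le.refl _).app (Le.x _)).app (Le.refl _)
  exact h1.trans h2

lemma wl_ne {m : List Bool} (hm : m ≠ []) : wl m ≠ [] := by
  cases m with
  | nil => exact absurd rfl hm
  | cons a m => cases a <;> simp [wl]

lemma Le.t3 (m : List Bool) (hm : m ≠ []) :
    Le ([false, false, true] ++ ((wl m).dropLast ++ [false])) (wl m ++ [false, false, false]) := by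
  induction m with
  | nil => exact absurd rfl hm
  | cons a m ih =>
    by_cases h0 : m = []
    · subst h0
      cases a
      · have h1 : Le ([false] ++ ([false, true] ++ [false, false])) ([false] ++ ([true, false] ++ [false, false])) :=
          (Le.refl _).app (Le.xy.app (Le.refl _))
        exact h1
      · exact Le.refl _
    · have h2 := ih h0
      cases a
      · have h3 : (wl (false :: m)).dropLast = [false, true] ++ (wl m).dropLast := by
          rw [show wl (false :: m) = [false, true] ++ wl m from rfl, List.dropLast_append_of_ne_nil (wl_ne h0)]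
        rw [h3]
        have h1 : Le ([false] ++ ([false, true] ++ [false, true])) ([false] ++ ([true, false] ++ [false, true])) :=
          (Le.refl _).app (Le.xy.app (Le.refl _))
        have h4 := (h1.app (Le.refl ((wl m).dropLast ++ [false]))).trans ((Le.refl [false, true]).app h2)
        exact h4
      · have h3 : (wl (true :: m)).dropLast = [false, false, true] ++ (wl m).dropLast := by
          rw [show wl (true :: m) = [false, false, true] ++ wl m from rfl,
            List.dropLast_append_of_ne_nil (wl_ne h0)]
        rw [h3]
        exact (Le.refl [false, false, true]).app h2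

lemma wl_mid {m : List Bool} (hm : m ≠ []) : ∃ V, wl m = false :: (V ++ [true]) := by
  induction m with
  | nil => exact absurd rfl hm
  | cons a m ih =>
    by_cases h0 : m = []
    · subst h0
      cases a
      · exact ⟨[], rfl⟩
      · exact ⟨[false], rfl⟩
    · obtain ⟨V, hV⟩ := ih h0
      cases a
      · exact ⟨true :: false :: V, by simp [wl, hV]⟩
      · exact ⟨false :: true :: false :: V, by simp [wl, hV]⟩

lemma Le.t4 {m V : List Bool} (hV : wl m = false :: (V ++ [true])) (hm : m ≠ []) :
    Le ([false, false, false] ++ (true :: (V ++ [false]))) (wl m ++ [false, false, false]) := by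
  have h1 : (wl m).dropLast = false :: V := by
    rw [hV, ← List.cons_append, List.dropLast_concat]
  have h2 := Le.t3 m hm
  rw [h1] at h2
  have h3 : Le ([false, false] ++ ([false, true] ++ (V ++ [false])))
      ([false, false] ++ ([true, false] ++ (V ++ [false]))) := (Le.refl _).app (Le.xy.app (Le.refl _))
  exact h3.trans h2

/-- **exchange** of `333` with a later `222` -/
theorem exch (P Q m P' Q' r : List Bool) (hm : m ≠ [])
    (h10 : 10 ≤ (wl (P ++ ([true, true, true] ++ (Q ++ (m ++ (P' ++ ([false, false, false] ++ (Q' ++ r)))))))).length)
    (h4 : (wl (P ++ ([true, true, true] ++ (Q ++ (m ++ (P' ++ ([false, false, false] ++ (Q' ++ r)))))))).length + 8 ≤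
      4 * (wl m).length) :
    Zt (wl (P ++ ([true, true, true] ++ (Q ++ (m ++ (P' ++ ([false, false, false] ++ (Q' ++ r)))))))) ≤
      ENNReal.ofReal (1 - 1 / 6000) *
        Zt (wl (P ++ ([false, false, false] ++ (Q ++ (m ++ (P' ++ ([true, true, true] ++ (Q' ++ r)))))))) := by
  obtain ⟨V, hV⟩ := wl_mid hm
  set U : List Bool := wl P ++ (wl [true, true, true] ++ wl Q) with hU
  set R : List Bool := wl P' ++ (wl [false, false, false] ++ (wl Q' ++ wl r)) with hR
  have e1 : wl (P ++ ([true, true, true] ++ (Q ++ (m ++ (P' ++ ([false, false, false] ++ (Q' ++ r))))))) =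
      U ++ false :: (V ++ true :: R) := by
    rw [wl_append, wl_append, wl_append, wl_append, wl_append, wl_append, wl_append, hV, hU, hR]
    simp only [List.append_assoc, List.cons_append, List.nil_append]
  have e2 : wl (P ++ ([false, false, false] ++ (Q ++ (m ++ (P' ++ ([true, true, true] ++ (Q' ++ r))))))) =
      wl P ++ ((wl [false, false, false] ++ (wl Q ++ (wl m ++ (wl P' ++ wl [true, true, true])))) ++ (wl Q' ++ wl r)) := by
    rw [wl_append, wl_append, wl_append, wl_append, wl_append, wl_append, wl_append]
    simp only [List.append_assoc]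
  have h1 := swap_const U.reverse V R
  rw [List.reverse_reverse, List.length_reverse] at h1
  have hl : (wl (P ++ ([true, true, true] ++ (Q ++ (m ++ (P' ++ ([false, false, false] ++ (Q' ++ r)))))))).length =
      U.length + V.length + R.length + 2 := by
    rw [e1]
    simp only [List.length_append, List.length_cons]
    omega
  have hVl : (wl m).length = V.length + 2 := by
    rw [hV]
    simp
  rw [hl] at h10 h4
  rw [e1, e2]
  refine (h1 h10 (by omega)).trans (mul_le_mul_right ?_ _)
  -- the chain
  have a1 : Le (wl [true, true, true] ++ wl Q) (wl [false, false, false] ++ (wl Q ++ [false, false, false])) := by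
    have b1 := Le.t1.app (Le.refl (wl Q))
    rw [List.append_assoc] at b1
    exact b1.trans ((Le.refl _).app (Le.xxx _))
  have a2 := Le.t4 hV hm
  have a3 := Le.xxx (wl P')
  have a4 := Le.t2
  have c1 : Le ((wl [true, true, true] ++ wl Q) ++ ((true :: (V ++ [false])) ++ (wl P' ++ wl [false, false, false])))
      ((wl [false, false, false] ++ (wl Q ++ [false, false, false])) ++
        ((true :: (V ++ [false])) ++ (wl P' ++ wl [false, false, false]))) := a1.app (Le.refl _)
  have c2 : Le (wl [false, false, false] ++ (wl Q ++ (([false, false, false] ++ (true :: (V ++ [false]))) ++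
      (wl P' ++ wl [false, false, false]))))
      (wl [false, false, false] ++ (wl Q ++ ((wl m ++ [false, false, false]) ++
      (wl P' ++ wl [false, false, false])))) := (Le.refl _).app ((Le.refl _).app (a2.app (Le.refl _)))
  have c3 : Le (wl [false, false, false] ++ (wl Q ++ (wl m ++ (([false, false, false] ++ wl P') ++ wl [false, false, false]))))
      (wl [false, false, false] ++ (wl Q ++ (wl m ++ ((wl P' ++ [false, false, false]) ++ wl [false, false, false])))) :=
    (Le.refl _).app ((Le.refl _).app ((Le.refl _).app (a3.app (Le.refl _))))
  have c4 : Le (wl [false, false, false] ++ (wl Q ++ (wl m ++ (wl P' ++ ([false, false, false] ++ wl [false, false, false])))))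
      (wl [false, false, false] ++ (wl Q ++ (wl m ++ (wl P' ++ wl [true, true, true])))) :=
    (Le.refl _).app ((Le.refl _).app ((Le.refl _).app ((Le.refl _).app a4)))
  simp only [List.append_assoc] at c1 c2 c3 c4
  have c5 := ((c1.trans c2).trans c3).trans c4
  have c6 := c5 (wl P) (wl Q' ++ wl r)
  simp only [List.append_assoc, List.cons_append, List.nil_append] at c6 ⊢
  rw [hU, hR]
  simp only [List.append_assoc, List.cons_append, List.nil_append]
  exact c6

end Pool.Agent.K7.H78.MZ
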