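import Mathlib

/-!
# Iterated integrals over the line

The multiple zeta value of a word in `x = false`, `y = true` is the iterated integral of the densities
`(1 + e ^ (-r))⁻¹` (letter `x`) and `(1 + e ^ r)⁻¹` (letter `y`) over `r_1 < r_2 < ⋯ < r_p` (here `t = (1 + e ^ r)⁻¹`).
-/

set_option autoImplicit false

namespace Pool.Agent.K7.H78.MZ

open MeasureTheory Set Filter Topology
open scoped ENNReal

/-- the density of a letter -/
noncomputable def ph (b : Bool) (r : ℝ) : ℝ := (1 + Real.exp (if b then r else -r))⁻¹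

lemma ph_pos (b : Bool) (r : ℝ) : 0 < ph b r := by
  unfold ph
  positivity

lemma ph_true (r : ℝ) : ph true r = (1 + Real.exp r)⁻¹ := by simp [ph]

lemma ph_false (r : ℝ) : ph false r = (1 + Real.exp (-r))⁻¹ := by simp [ph]

lemma ph_cont (b : Bool) : Continuous (ph b) := by
  unfold ph
  refine Continuous.inv₀ ?_ fun r => by positivity
  cases b
  · simp only [Bool.false_eq_true, if_false]
    fun_prop
  · simp only [if_true]
    fun_prop

lemma ph_le (b : Bool) (r s : ℝ) (η : ℝ) (h : |r - s| ≤ η) : ph b r ≤ Real.exp η * ph b s := by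
  unfold ph
  rw [← div_eq_mul_inv, le_div_iff₀ (by positivity), inv_mul_le_iff₀ (by positivity)]
  have hη : 0 ≤ η := (abs_nonneg _).trans h
  have h1 : 1 ≤ Real.exp η := Real.one_le_exp hη
  have h2 := abs_le.1 h
  have h3 : Real.exp (if b then s else -s) ≤ Real.exp (if b then r else -r) * Real.exp η := by
    rw [← Real.exp_add]
    refine Real.exp_le_exp.2 ?_
    cases b
    · simp only [Bool.false_eq_true, if_false]
      linarith [h2.2]
    · simp only [if_true]
      linarith [h2.1]
  nlinarith

/-- the key identity -/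
lemma ph_swap (r s : ℝ) : ph false r * ph true s = Real.exp (-(s - r)) * (ph true r * ph false s) := by
  rw [ph_true, ph_true, ph_false, ph_false]
  have h1 : (1 + Real.exp (-r)) = Real.exp (-r) * (1 + Real.exp r) := by
    rw [mul_add, mul_one, ← Real.exp_add]
    simp [add_comm]
  have h2 : (1 + Real.exp (-s)) = Real.exp (-s) * (1 + Real.exp s) := by
    rw [mul_add, mul_one, ← Real.exp_add]
    simp [add_comm]
  rw [h1, h2, mul_inv, mul_inv, ← Real.exp_neg, ← Real.exp_neg]
  have h3 : Real.exp (-(s - r)) * Real.exp (- -s) = Real.exp (- -r) := by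
    rw [← Real.exp_add]
    congr 1
    ring
  rw [← h3]
  ring

/-- the density as an extended real -/
noncomputable def wt (b : Bool) (r : ℝ) : ℝ≥0∞ := ENNReal.ofReal (ph b r)

lemma wt_meas (b : Bool) : Measurable (wt b) := (ph_cont b).measurable.ennreal_ofReal

lemma wt_le (b : Bool) (r s : ℝ) (η : ℝ) (h : |r - s| ≤ η) :
    wt b r ≤ ENNReal.ofReal (Real.exp η) * wt b s := by
  unfold wt
  rw [← ENNReal.ofReal_mul (Real.exp_pos _).le]
  exact ENNReal.ofReal_le_ofReal (ph_le b r s η h)

lemma wt_swap (r s : ℝ) : wt false r * wt true s =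
    ENNReal.ofReal (Real.exp (-(s - r))) * (wt true r * wt false s) := by
  unfold wt
  rw [← ENNReal.ofReal_mul (ph_pos _ _).le, ← ENNReal.ofReal_mul (ph_pos _ _).le,
    ← ENNReal.ofReal_mul (Real.exp_pos _).le, ph_swap]

/-- the iterated integral over `r < r_1 < r_2 < ⋯` -/
noncomputable def Bt : List Bool → ℝ → ℝ≥0∞
  | [], _ => 1
  | a :: w, r => ∫⁻ ρ in Ioi r, wt a ρ * Bt w ρ

/-- the iterated integral over `⋯ < r_2 < r_1 < r` -/
noncomputable def Tp : List Bool → ℝ → ℝ≥0∞
  | [], _ => 1
  | a :: u, r => ∫⁻ ρ in Iio r, wt a ρ * Tp u ρ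

/-- the iterated integral over `r < r_1 < r_2 < ⋯ < s` -/
noncomputable def Md : List Bool → ℝ → ℝ → ℝ≥0∞
  | [], _, _ => 1
  | v :: V, r, s => ∫⁻ ρ in Ioo r s, wt v ρ * Md V ρ s

/-- the iterated integral over the line -/
noncomputable def Zt : List Bool → ℝ≥0∞
  | [] => 1
  | a :: w => ∫⁻ ρ, wt a ρ * Bt w ρ

lemma Bt_cons (a : Bool) (w : List Bool) (r : ℝ) : Bt (a :: w) r = ∫⁻ ρ in Ioi r, wt a ρ * Bt w ρ := by
  rw [Bt]
lemma Tp_cons (a : Bool) (w : List Bool) (r : ℝ) : Tp (a :: w) r = ∫⁻ ρ in Iio r, wt a ρ * Tp w ρ := by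
  rw [Tp]
lemma Md_cons (a : Bool) (w : List Bool) (r s : ℝ) :
    Md (a :: w) r s = ∫⁻ ρ in Ioo r s, wt a ρ * Md w ρ s := by
  rw [Md]

lemma Bt_meas (w : List Bool) : Measurable (Bt w) := by
  cases w with
  | nil => exact measurable_const
  | cons a w =>
    refine Antitone.measurable fun r s h => ?_
    rw [Bt_cons, Bt_cons]
    exact lintegral_mono_set (Ioi_subset_Ioi h)

lemma Tp_meas (w : List Bool) : Measurable (Tp w) := by
  cases w with
  | nil => exact measurable_const
  | cons a w =>
    refine Monotone.measurable fun r s h => ?_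
    rw [Tp_cons, Tp_cons]
    exact lintegral_mono_set (Iio_subset_Iio h)

lemma Md_meas (w : List Bool) : Measurable (fun p : ℝ × ℝ => Md w p.1 p.2) := by
  induction w with
  | nil => exact measurable_const
  | cons a w ih =>
    have h1 : (fun p : ℝ × ℝ => Md (a :: w) p.1 p.2) = fun p : ℝ × ℝ =>
        ∫⁻ ρ, (fun q : (ℝ × ℝ) × ℝ => {q : (ℝ × ℝ) × ℝ | q.1.1 < q.2 ∧ q.2 < q.1.2}.indicator
          (fun q => wt a q.2 * Md w q.2 q.1.2) q) (p, ρ) := by
      funext p
      rw [Md_cons, ← lintegral_indicator measurableSet_Ioo]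
      refine lintegral_congr fun ρ => ?_
      simp only [Set.indicator, Set.mem_Ioo, Set.mem_ofPred_eq]
    rw [h1]
    refine Measurable.lintegral_prod_right' ?_
    refine Measurable.indicator ?_ ?_
    · exact ((wt_meas a).comp measurable_snd).mul
        (ih.comp (measurable_snd.prodMk (measurable_snd.comp measurable_fst)))
    · exact (measurableSet_lt (measurable_fst.comp measurable_fst) measurable_snd).inter
        (measurableSet_lt measurable_snd (measurable_snd.comp measurable_fst))

/-- Tonelli -/
lemma tonelli (F G : ℝ → ℝ≥0∞) (hF : Measurable F) (hG : Measurable G) :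
    ∫⁻ ρ, F ρ * ∫⁻ r in Ioi ρ, G r = ∫⁻ r, (∫⁻ ρ in Iio r, F ρ) * G r := by
  have h1 : ∀ ρ, F ρ * ∫⁻ r in Ioi ρ, G r = ∫⁻ r, {q : ℝ × ℝ | q.1 < q.2}.indicator
      (fun q => F q.1 * G q.2) (ρ, r) := by
    intro ρ
    rw [← lintegral_const_mul _ hG, ← lintegral_indicator measurableSet_Ioi]
    refine lintegral_congr fun r => ?_
    simp only [Set.indicator, Set.mem_Ioi, Set.mem_ofPred_eq]
  have h2 : ∀ r, (∫⁻ ρ in Iio r, F ρ) * G r = ∫⁻ ρ, {q : ℝ × ℝ | q.1 < q.2}.indicator
      (fun q => F q.1 * G q.2) (ρ, r) := by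
    intro r
    rw [← lintegral_mul_const _ hF, ← lintegral_indicator measurableSet_Iio]
    refine lintegral_congr fun ρ => ?_
    simp only [Set.indicator, Set.mem_Iio, Set.mem_ofPred_eq]
  simp only [h1, h2]
  rw [lintegral_lintegral_swap]
  refine Measurable.aemeasurable ?_
  exact ((hF.comp measurable_fst).mul (hG.comp measurable_snd)).indicator
    (measurableSet_lt measurable_fst measurable_snd)

/-- cutting above a letter -/
lemma Zt_cut (u : List Bool) : ∀ (a : Bool) (w : List Bool),
    Zt (u.reverse ++ a :: w) = ∫⁻ r, Tp u r * (wt a r * Bt w r) := by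
  induction u with
  | nil =>
    intro a w
    rw [List.reverse_nil, List.nil_append, Zt]
    simp only [Tp, one_mul]
  | cons c u ih =>
    intro a w
    rw [List.reverse_cons, List.append_assoc, List.singleton_append, ih]
    simp only [Bt_cons, Tp_cons]
    have h1 : ∀ r, Tp u r * (wt c r * ∫⁻ ρ in Ioi r, wt a ρ * Bt w ρ) =
        (wt c r * Tp u r) * ∫⁻ ρ in Ioi r, wt a ρ * Bt w ρ := fun r => by ring
    simp only [h1]
    exact tonelli _ _ ((wt_meas c).mul (Tp_meas u)) ((wt_meas a).mul (Bt_meas w))

/-- cutting below a letter -/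
lemma Bt_cut (V : List Bool) : ∀ (b : Bool) (w : List Bool) (r : ℝ),
    Bt (V ++ b :: w) r = ∫⁻ s in Ioi r, Md V r s * (wt b s * Bt w s) := by
  induction V with
  | nil =>
    intro b w r
    rw [List.nil_append, Bt_cons]
    simp only [Md, one_mul]
  | cons v V ih =>
    intro b w r
    rw [List.cons_append, Bt_cons]
    have h1 : ∫⁻ ρ in Ioi r, wt v ρ * Bt (V ++ b :: w) ρ = ∫⁻ ρ, ∫⁻ s,
        {q : ℝ × ℝ | r < q.1 ∧ q.1 < q.2}.indicator
          (fun q => (wt v q.1 * Md V q.1 q.2) * (wt b q.2 * Bt w q.2)) (ρ, s) := by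
      rw [← lintegral_indicator measurableSet_Ioi]
      refine lintegral_congr fun ρ => ?_
      by_cases hρ : r < ρ
      · rw [Set.indicator_of_mem (by exact hρ), ih, ← lintegral_const_mul, ← lintegral_indicator
          measurableSet_Ioi]
        · refine lintegral_congr fun s => ?_
          simp only [Set.indicator, Set.mem_Ioi, Set.mem_ofPred_eq, hρ, true_and]
          split_ifs
          · ring
          · rfl
        · exact ((Md_meas V).comp (measurable_const.prodMk measurable_id)).mul
            ((wt_meas b).mul (Bt_meas w))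
      · rw [Set.indicator_of_notMem (by exact hρ)]
        symm
        rw [lintegral_eq_zero_iff']
        · refine ae_of_all _ fun s => ?_
          simp only [Set.indicator, Set.mem_ofPred_eq, hρ, false_and, if_false, Pi.zero_apply]
        · refine Measurable.aemeasurable ?_
          simp only [Set.indicator, Set.mem_ofPred_eq, hρ, false_and, if_false]
          exact measurable_const
    rw [h1, lintegral_lintegral_swap]
    · rw [← lintegral_indicator measurableSet_Ioi]
      refine lintegral_congr fun s => ?_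
      by_cases hs : r < s
      · rw [Set.indicator_of_mem (by exact hs), Md_cons, ← lintegral_mul_const, ← lintegral_indicator
          measurableSet_Ioo]
        · refine lintegral_congr fun ρ => ?_
          simp only [Set.indicator, Set.mem_Ioo, Set.mem_ofPred_eq]
        · exact (wt_meas v).mul ((Md_meas V).comp (measurable_id.prodMk measurable_const))
      · rw [Set.indicator_of_notMem (by exact hs)]
        have h2 : ∀ ρ, {q : ℝ × ℝ | r < q.1 ∧ q.1 < q.2}.indicator
          (fun q => (wt v q.1 * Md V q.1 q.2) * (wt b q.2 * Bt w q.2)) (ρ, s) = 0 := by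
          intro ρ
          refine Set.indicator_of_notMem ?_ _
          rintro ⟨h3, h4⟩
          exact hs (h3.trans h4)
        simp only [h2, lintegral_zero]
    · refine Measurable.aemeasurable ?_
      refine Measurable.indicator ?_ ?_
      · exact (((wt_meas v).comp measurable_fst).mul (Md_meas V)).mul
          (((wt_meas b).mul (Bt_meas w)).comp measurable_snd)
      · exact (measurableSet_lt measurable_const measurable_fst).inter
          (measurableSet_lt measurable_fst measurable_snd)

/-- cutting at two letters -/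
lemma Zt_two (u V w : List Bool) (a b : Bool) : Zt (u.reverse ++ a :: (V ++ b :: w)) =
    ∫⁻ r, ∫⁻ s in Ioi r, (Tp u r * Md V r s * Bt w s) * (wt a r * wt b s) := by
  rw [Zt_cut]
  refine lintegral_congr fun r => ?_
  rw [Bt_cut, ← lintegral_const_mul, ← lintegral_const_mul]
  · refine lintegral_congr fun s => ?_
    ring
  · exact (((Md_meas V).comp (measurable_const.prodMk measurable_id)).mul
      ((wt_meas b).mul (Bt_meas w))).const_mul _
  · exact ((Md_meas V).comp (measurable_const.prodMk measurable_id)).mul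
      ((wt_meas b).mul (Bt_meas w))

end Pool.Agent.K7.H78.MZ
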