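import Pool.Agent.K7.H78.MZ.Const
import Pool.Agent.TH507.DS.A

/-!
# The iterated integral is the multiple zeta value
-/

set_option autoImplicit false

namespace Pool.Agent.K7.H78.MZ

open MeasureTheory Set Filter Topology
open scoped ENNReal
open Pool.Agent.TH507.DS (Lb Lb_nil Lb_cons Jn In yv Vd coeff_nonneg coeff_In coeff_zero_Lb Zb)

/-- the coordinate -/
noncomputable abbrev tau (r : ℝ) : ℝ := ph true r

lemma tau_lt (r : ℝ) : tau r < 1 := by
  rw [tau, ph_true]
  exact inv_lt_one_of_one_lt₀ (by linarith [Real.exp_pos r])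

lemma ph_false_eq (r : ℝ) : ph false r = 1 - tau r := by
  rw [tau, ph_true, ph_false, Real.exp_neg]
  have := Real.exp_pos r
  field_simp
  ring

lemma tau_deriv (r : ℝ) : HasDerivAt tau (-(tau r * (1 - tau r))) r := by
  have h1 : tau = fun r => (1 + Real.exp r)⁻¹ := by
    funext s
    exact ph_true s
  rw [h1]
  have h2 : HasDerivAt (fun r => 1 + Real.exp r) (Real.exp r) r := (Real.hasDerivAt_exp r).const_add 1
  have h3 : HasDerivAt (fun r => (1 + Real.exp r)⁻¹) (-(Real.exp r) / (1 + Real.exp r) ^ 2) r :=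
    h2.fun_inv (by positivity)
  refine h3.congr_deriv ?_
  have := Real.exp_pos r
  field_simp
  ring

lemma tau_top : Tendsto tau atTop (𝓝 0) := by
  have h1 : tau = fun r => (1 + Real.exp r)⁻¹ := by
    funext s
    exact ph_true s
  rw [h1]
  exact (tendsto_atTop_add_const_left _ _ Real.tendsto_exp_atTop).inv_tendsto_atTop

lemma tau_bot : Tendsto tau atBot (𝓝 1) := by
  have h1 : tau = fun r => (1 + Real.exp r)⁻¹ := by
    funext s
    exact ph_true s
  rw [h1]
  have h2 : Tendsto (fun r : ℝ => 1 + Real.exp r) atBot (𝓝 (1 + 0)) :=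
    tendsto_const_nhds.add Real.tendsto_exp_atBot
  have h3 := h2.inv₀ (by norm_num)
  simpa using h3

/-- one monomial -/
lemma lint_mono (n : ℕ) (hn : 1 ≤ n) (r : ℝ) :
    ∫⁻ ρ in Ioi r, ENNReal.ofReal (ph false ρ * tau ρ ^ n) = ENNReal.ofReal (tau r ^ n / n) := by
  have hn0 : (n : ℝ) ≠ 0 := by positivity
  have hd : ∀ x ∈ Ici r, HasDerivAt (fun ρ => -(tau ρ ^ n / n)) (ph false x * tau x ^ n) x := by
    intro x _
    have h1 : HasDerivAt (fun ρ => tau ρ ^ n) (n * tau x ^ (n - 1) * (-(tau x * (1 - tau x)))) x :=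
      (tau_deriv x).fun_pow n
    have h2 : HasDerivAt (fun ρ => -(tau ρ ^ n / n)) (-(n * tau x ^ (n - 1) * (-(tau x * (1 - tau x))) / n)) x :=
      (h1.div_const (n : ℝ)).fun_neg
    refine h2.congr_deriv ?_
    rw [ph_false_eq]
    obtain ⟨m, rfl⟩ : ∃ m, n = m + 1 := ⟨n - 1, by omega⟩
    rw [Nat.add_sub_cancel, pow_succ]
    push_cast at hn0 ⊢
    field_simp
  have hpos : ∀ x ∈ Ioi r, 0 ≤ ph false x * tau x ^ n := fun x _ =>
    mul_nonneg (ph_pos _ _).le (pow_nonneg (ph_pos _ _).le _)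
  have hlim : Tendsto (fun ρ => -(tau ρ ^ n / n)) atTop (𝓝 0) := by
    have h1 := ((tau_top.pow n).div_const (n : ℝ)).neg
    rw [zero_pow (by omega), zero_div, neg_zero] at h1
    exact h1
  have hint := integrableOn_Ioi_deriv_of_nonneg' hd hpos hlim
  have hval := integral_Ioi_of_hasDerivAt_of_nonneg' hd hpos hlim
  rw [← ofReal_integral_eq_lintegral_ofReal hint ((ae_restrict_iff' measurableSet_Ioi).2
    (ae_of_all _ fun x hx => hpos x hx)), hval]
  congr 1
  ring

lemma mono_meas (n : ℕ) : Measurable fun ρ => ENNReal.ofReal (ph false ρ * tau ρ ^ n) :=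
  (((ph_cont false).mul ((ph_cont true).pow n)).measurable).ennreal_ofReal

lemma lint_mono_all (n : ℕ) (hn : 1 ≤ n) :
    ∫⁻ ρ, ENNReal.ofReal (ph false ρ * tau ρ ^ n) = ENNReal.ofReal (1 / n) := by
  have h1 : AECover volume (atBot : Filter ℝ) fun a : ℝ => Ioi a := aecover_Ioi tendsto_id
  have h2 := h1.lintegral_tendsto_of_countably_generated (mono_meas n).aemeasurable
  simp only [lint_mono n hn] at h2
  refine tendsto_nhds_unique h2 ?_
  refine (ENNReal.continuous_ofReal.tendsto _).comp ?_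
  have h3 := (tau_bot.pow n).div_const (n : ℝ)
  rwa [one_pow] at h3

/-- the value of a power series -/
noncomputable def ev (F : PowerSeries ℝ) (t : ℝ) : ℝ≥0∞ :=
  ∑' n, ENNReal.ofReal (PowerSeries.coeff n F * t ^ n)

lemma lint_ev (G : PowerSeries ℝ) (hG : ∀ n, 0 ≤ PowerSeries.coeff n G) (h0 : PowerSeries.coeff 0 G = 0)
    (μ : Measure ℝ) (q : ℕ → ℝ) (hq : ∀ n, 1 ≤ n →
      ∫⁻ ρ, ENNReal.ofReal (ph false ρ * tau ρ ^ n) ∂μ = ENNReal.ofReal (q n)) :
    ∫⁻ ρ, wt false ρ * ev G (tau ρ) ∂μ = ∑' n, ENNReal.ofReal (PowerSeries.coeff n G * q n) := by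
  have h1 : ∀ ρ, wt false ρ * ev G (tau ρ) =
      ∑' n, ENNReal.ofReal (PowerSeries.coeff n G) * ENNReal.ofReal (ph false ρ * tau ρ ^ n) := by
    intro ρ
    rw [ev, ← ENNReal.tsum_mul_left]
    refine tsum_congr fun n => ?_
    rw [wt, ← ENNReal.ofReal_mul (ph_pos _ _).le, ← ENNReal.ofReal_mul (hG n)]
    congr 1
    ring
  simp only [h1]
  rw [lintegral_tsum fun n => ((mono_meas n).const_mul _).aemeasurable]
  refine tsum_congr fun n => ?_
  rw [lintegral_const_mul _ (mono_meas n)]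
  rcases Nat.eq_zero_or_pos n with rfl | hn
  · rw [h0, zero_mul, ENNReal.ofReal_zero, zero_mul]
  · rw [hq n hn, ← ENNReal.ofReal_mul (hG n)]

lemma geo (x : ℝ≥0∞) (m : ℕ) (hx : x < 1) :
    (1 - x) * ∑' n, (if m < n then x ^ n else 0) = x ^ (m + 1) := by
  have h1 : ∑' n, (if m < n then x ^ n else 0) = ∑' n, x ^ (m + 1) * x ^ n := by
    have hinj : Function.Injective fun k : ℕ => k + (m + 1) := fun a b h => by simpa using h
    rw [← hinj.tsum_eq]
    · refine tsum_congr fun n => ?_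
      rw [if_pos (by omega), pow_add, mul_comm]
    · intro n hn
      rw [Function.mem_support] at hn
      refine ⟨n - (m + 1), ?_⟩
      have : m < n := by
        by_contra h
        exact hn (if_neg h)
      simp only
      omega
  rw [h1, ENNReal.tsum_mul_left, ENNReal.tsum_geometric, mul_comm, mul_assoc, ENNReal.inv_mul_cancel, mul_one]
  · exact (tsub_pos_of_lt hx).ne'
  · exact (lt_of_le_of_lt tsub_le_self ENNReal.one_lt_top).ne

lemma coeff_y (F : PowerSeries ℝ) (n : ℕ) :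
    PowerSeries.coeff n (yv true * F) = ∑ m ∈ Finset.range n, PowerSeries.coeff m F := by
  rw [mul_comm, PowerSeries.coeff_mul, Finset.Nat.sum_antidiagonal_eq_sum_range_succ_mk,
    Finset.sum_range_succ]
  simp only [yv, if_true, PowerSeries.coeff_mk, Nat.sub_self, mul_zero, add_zero]
  refine Finset.sum_congr rfl fun m hm => ?_
  have := Finset.mem_range.1 hm
  rw [if_neg (by omega), mul_one]

/-- the letter `y` -/
lemma ev_y (F : PowerSeries ℝ) (hF : ∀ n, 0 ≤ PowerSeries.coeff n F) (t : ℝ) (h0 : 0 ≤ t) (h1 : t < 1) :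
    ENNReal.ofReal t * ev F t = ENNReal.ofReal (1 - t) * ev (yv true * F) t := by
  set x : ℝ≥0∞ := ENNReal.ofReal t with hx
  have hx1 : x < 1 := by
    rw [hx, ← ENNReal.ofReal_one]
    exact (ENNReal.ofReal_lt_ofReal_iff one_pos).2 h1
  have h2 : ENNReal.ofReal (1 - t) = 1 - x := by
    rw [ENNReal.ofReal_sub _ h0, ENNReal.ofReal_one]
  have h3 : ev (yv true * F) t = ∑' n, ∑' m, ENNReal.ofReal (PowerSeries.coeff m F) *
      (if m < n then x ^ n else 0) := by
    rw [ev]
    refine tsum_congr fun n => ?_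
    rw [tsum_eq_sum (s := Finset.range n), coeff_y, Finset.sum_mul, ENNReal.ofReal_sum_of_nonneg]
    · refine Finset.sum_congr rfl fun m hm => ?_
      rw [if_pos (Finset.mem_range.1 hm), ENNReal.ofReal_mul (hF m), hx, ENNReal.ofReal_pow h0]
    · intro m _
      exact mul_nonneg (hF m) (pow_nonneg h0 _)
    · intro m hm
      rw [if_neg (by simpa using hm), mul_zero]
  rw [h3, ENNReal.tsum_comm, h2, ← ENNReal.tsum_mul_left, ev, ← ENNReal.tsum_mul_left]
  refine tsum_congr fun m => ?_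
  rw [ENNReal.tsum_mul_left, mul_left_comm, geo x m hx1, ENNReal.ofReal_mul (hF m), ENNReal.ofReal_pow h0,
    pow_succ]
  ring

lemma coeff_yv_nonneg (a : Bool) (F : PowerSeries ℝ) (hF : ∀ n, 0 ≤ PowerSeries.coeff n F) (n : ℕ) :
    0 ≤ PowerSeries.coeff n (yv a * F) := by
  cases a
  · simpa [yv] using hF n
  · rw [coeff_y]
    exact Finset.sum_nonneg fun m _ => hF m

/-- one letter -/
lemma ev_letter (a : Bool) (F : PowerSeries ℝ) (hF : ∀ n, 0 ≤ PowerSeries.coeff n F) (ρ : ℝ) :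
    wt a ρ * ev F (tau ρ) = wt false ρ * ev (yv a * F) (tau ρ) := by
  cases a
  · simp [yv]
  · rw [wt, wt, ev_y F hF (tau ρ) (ph_pos _ _).le (tau_lt ρ), ph_false_eq]

lemma Bt_ev (w : List Bool) : Vd w → ∀ r, Bt w r = ev (Lb w) (tau r) := by
  induction w with
  | nil =>
    intro _ r
    rw [Lb_nil, ev, Bt, tsum_eq_single 0]
    · simp
    · intro n hn
      rw [PowerSeries.coeff_one, if_neg hn, zero_mul, ENNReal.ofReal_zero]
  | cons a w ih =>
    intro hV r
    rw [Bt_cons]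
    have h1 : ∀ ρ, wt a ρ * Bt w ρ = wt false ρ * ev (yv a * Lb w) (tau ρ) := fun ρ => by
      rw [ih hV.2 ρ, ev_letter a _ (coeff_nonneg w)]
    simp only [h1]
    rw [lint_ev _ (coeff_yv_nonneg a _ (coeff_nonneg w)) (Pool.Agent.TH507.DS.coeff_zero_form hV)
      (volume.restrict (Ioi r)) (fun n => tau r ^ n / n) (fun n hn => lint_mono n hn r), Lb_cons, ev]
    refine tsum_congr fun n => ?_
    rw [Jn, coeff_In]
    congr 1
    ring

/-- **the iterated integral is the value of the power series at one** -/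
theorem Zt_ev (w : List Bool) (hV : Vd w) : Zt w = ∑' n, ENNReal.ofReal (PowerSeries.coeff n (Lb w)) := by
  cases w with
  | nil =>
    rw [Lb_nil, Zt, tsum_eq_single 0]
    · simp
    · intro n hn
      rw [PowerSeries.coeff_one, if_neg hn, ENNReal.ofReal_zero]
  | cons a w =>
    rw [Zt]
    have h1 : ∀ ρ, wt a ρ * Bt w ρ = wt false ρ * ev (yv a * Lb w) (tau ρ) := fun ρ => by
      rw [Bt_ev w hV.2 ρ, ev_letter a _ (coeff_nonneg w)]
    simp only [h1]
    rw [lint_ev _ (coeff_yv_nonneg a _ (coeff_nonneg w)) (Pool.Agent.TH507.DS.coeff_zero_form hV)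
      volume (fun n => 1 / n) (fun n hn => lint_mono_all n hn), Lb_cons]
    refine tsum_congr fun n => ?_
    rw [Jn, coeff_In]
    congr 1
    ring

theorem Zt_Zb (w : List Bool) (hV : Vd w) (hs : Summable fun n => PowerSeries.coeff n (Lb w)) :
    Zt w = ENNReal.ofReal (Zb w) := by
  rw [Zt_ev w hV, Zb, ENNReal.ofReal_tsum_of_nonneg (coeff_nonneg w) hs]

end Pool.Agent.K7.H78.MZ
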