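import Pool.Agent.K7.H78.MZ.All

/-!
# Anticoncentration on slices
-/

set_option autoImplicit false

namespace Pool.Agent.K7.H78.MZ

open Finset

section

variable {X K ι : Type} [Fintype X] [DecidableEq X] [DecidableEq K] [DecidableEq ι]
  {cls : X → K} {D o : X → Finset ι} {F0 : X → ℝ} {c0 : ℝ}

omit [Fintype X] in
/-- the number of points of a union `S` of cubes with a value in a short interval -/
theorem Cubes.countQ (h : Cubes cls D o F0 c0) (S : Finset X) (hS : ∀ x ∈ S, ∀ y, cls y = cls x → y ∈ S)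
    (F : X → ℝ) (c : ℝ) (q : ℕ) (hq : 0 < q)
    (hgain : ∀ x ∈ S, ∀ y ∈ S, cls x = cls y → o x ⊆ o y → (o x).card + q ≤ (o y).card → F x + c ≤ F y) (a : ℝ) :
    ((S.filter fun x => a ≤ F x ∧ F x < a + c).card : ℝ) ≤ q * ∑ x ∈ S, 1 / Real.sqrt (((D x).card : ℝ) + 1) := by
  classical
  have key : ∀ r, ((S.filter fun x => (a ≤ F x ∧ F x < a + c) ∧ (o x).card % q = r).card : ℝ) ≤
      ∑ x ∈ S, 1 / Real.sqrt (((D x).card : ℝ) + 1) := by
    intro r
    set W : Finset X := S.filter fun x => (a ≤ F x ∧ F x < a + c) ∧ (o x).card % q = r with hW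
    set I : Finset K := S.image cls with hI
    have h1 : W.card = ∑ k ∈ I, (W.filter fun x => cls x = k).card :=
      card_eq_sum_card_fiberwise fun x hx => mem_image_of_mem _ (mem_filter.1 (mem_coe.1 hx)).1
    have h2 : ∑ x ∈ S, 1 / Real.sqrt (((D x).card : ℝ) + 1) =
        ∑ k ∈ I, ∑ x ∈ S.filter (fun x => cls x = k), 1 / Real.sqrt (((D x).card : ℝ) + 1) :=
      (sum_fiberwise_of_maps_to (fun x hx => mem_image_of_mem _ hx) _).symm
    rw [h1, h2, Nat.cast_sum]
    refine sum_le_sum fun k hk => ?_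
    obtain ⟨x0, hx0, rfl⟩ := mem_image.1 hk
    set d : ℕ := (D x0).card with hd
    have h3 : ∀ x ∈ S.filter (fun x => cls x = cls x0), 1 / Real.sqrt (((D x).card : ℝ) + 1) =
        1 / Real.sqrt ((d : ℝ) + 1) := by
      intro x hx
      rw [h.cl x x0 (mem_filter.1 hx).2]
    rw [sum_congr rfl h3, sum_const, nsmul_eq_mul]
    have h4 : (S.filter fun x => cls x = cls x0).card = 2 ^ d := by
      rw [hd, ← card_powerset]
      refine card_bij (fun x _ => o x) ?_ ?_ ?_
      · intro x hx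
        rw [mem_powerset, ← h.cl x x0 (mem_filter.1 hx).2]
        exact h.sub x
      · intro x hx y hy hxy
        exact h.inj x y ((mem_filter.1 hx).2.trans (mem_filter.1 hy).2.symm) hxy
      · intro A hA
        obtain ⟨y, hy1, hy2⟩ := h.sur x0 A (mem_powerset.1 hA)
        exact ⟨y, mem_filter.2 ⟨hS x0 hx0 y hy1, hy1⟩, hy2⟩
    have h5 : (W.filter fun x => cls x = cls x0).card ≤ d.choose (d / 2) := by
      have hinj : Set.InjOn o ((W.filter fun x => cls x = cls x0 : Finset X) : Set X) := by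
        intro x hx y hy hxy
        exact h.inj x y ((mem_filter.1 hx).2.trans (mem_filter.1 hy).2.symm) hxy
      rw [← card_image_of_injOn hinj]
      refine sperner_sub (D x0) _ ?_ ?_
      · intro A hA
        obtain ⟨x, hx, rfl⟩ := mem_image.1 hA
        rw [← h.cl x x0 (mem_filter.1 hx).2]
        exact h.sub x
      · intro A hA B hB hAB
        obtain ⟨x, hx, rfl⟩ := mem_image.1 hA
        obtain ⟨y, hy, rfl⟩ := mem_image.1 hB
        obtain ⟨hx1, hx2⟩ := mem_filter.1 hx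
        obtain ⟨hy1, hy2⟩ := mem_filter.1 hy
        obtain ⟨hxS, hx3, hx4⟩ := mem_filter.1 hx1
        obtain ⟨hyS, hy3, hy4⟩ := mem_filter.1 hy1
        have h6 : (o x).card < (o y).card := card_lt_card hAB
        have h7 : (o x).card + q ≤ (o y).card := by
          have h8 : (o y).card - (o x).card ≠ 0 := by omega
          have h9 : q ∣ (o y).card - (o x).card := (Nat.modEq_iff_dvd' h6.le).1 (hx4.trans hy4.symm)
          have := Nat.le_of_dvd (by omega) h9
          omega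
        have h10 := hgain x hxS y hyS (hx2.trans hy2.symm) hAB.1 h7
        linarith [hx3.1, hy3.2]
    rw [h4]
    push_cast
    exact le_trans (by exact_mod_cast h5) (choose_le d)
  have h1 : (S.filter fun x => a ≤ F x ∧ F x < a + c) ⊆
      (range q).biUnion fun r => S.filter fun x => (a ≤ F x ∧ F x < a + c) ∧ (o x).card % q = r := by
    intro x hx
    obtain ⟨h2, h3⟩ := mem_filter.1 hx
    exact mem_biUnion.2 ⟨(o x).card % q, mem_range.2 (Nat.mod_lt _ hq), mem_filter.2 ⟨h2, h3, rfl⟩⟩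
  have h2 := (card_le_card h1).trans card_biUnion_le
  calc ((S.filter fun x => a ≤ F x ∧ F x < a + c).card : ℝ)
      ≤ ((∑ r ∈ range q, (S.filter fun x => (a ≤ F x ∧ F x < a + c) ∧ (o x).card % q = r).card : ℕ) : ℝ) := by
        exact_mod_cast h2
    _ = ∑ r ∈ range q, ((S.filter fun x => (a ≤ F x ∧ F x < a + c) ∧ (o x).card % q = r).card : ℝ) := by
        push_cast
        rfl
    _ ≤ ∑ _r ∈ range q, ∑ x ∈ S, 1 / Real.sqrt (((D x).card : ℝ) + 1) := sum_le_sum fun r _ => key r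
    _ = _ := by rw [sum_const, card_range, nsmul_eq_mul]

omit [Fintype X] in
/-- longer intervals -/
theorem Cubes.countQ' (h : Cubes cls D o F0 c0) (S : Finset X) (hS : ∀ x ∈ S, ∀ y, cls y = cls x → y ∈ S)
    (F : X → ℝ) (c : ℝ) (hc : 0 < c) (q : ℕ) (hq : 0 < q)
    (hgain : ∀ x ∈ S, ∀ y ∈ S, cls x = cls y → o x ⊆ o y → (o x).card + q ≤ (o y).card → F x + c ≤ F y)
    (a L : ℝ) (hL : 0 ≤ L) :
    ((S.filter fun x => a ≤ F x ∧ F x ≤ a + L).card : ℝ) ≤
      (L / c + 1) * (q * ∑ x ∈ S, 1 / Real.sqrt (((D x).card : ℝ) + 1)) := by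
  set T : ℝ := q * ∑ x ∈ S, 1 / Real.sqrt (((D x).card : ℝ) + 1) with hT
  have hT0 : 0 ≤ T := mul_nonneg (Nat.cast_nonneg _) (sum_nonneg fun x _ => by positivity)
  set n : ℕ := ⌊L / c⌋₊ + 1 with hn
  have h1 : (S.filter fun x => a ≤ F x ∧ F x ≤ a + L) ⊆
      (range n).biUnion fun j => S.filter fun x => a + j * c ≤ F x ∧ F x < (a + j * c) + c := by
    intro x hx
    obtain ⟨h1, h2, h3⟩ := mem_filter.1 hx
    have h4 : 0 ≤ (F x - a) / c := div_nonneg (by linarith) hc.le
    refine mem_biUnion.2 ⟨⌊(F x - a) / c⌋₊, mem_range.2 ?_, mem_filter.2 ⟨h1, ?_, ?_⟩⟩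
    · rw [hn, Nat.lt_succ_iff]
      refine Nat.floor_le_floor ?_
      gcongr
      linarith
    · have h5 := Nat.floor_le h4
      rw [le_div_iff₀ hc] at h5
      linarith
    · have h5 := Nat.lt_floor_add_one ((F x - a) / c)
      rw [div_lt_iff₀ hc] at h5
      linarith
  have h2 := (card_le_card h1).trans card_biUnion_le
  calc ((S.filter fun x => a ≤ F x ∧ F x ≤ a + L).card : ℝ)
      ≤ ((∑ j ∈ range n, (S.filter fun x => a + j * c ≤ F x ∧ F x < (a + j * c) + c).card : ℕ) : ℝ) := by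
        exact_mod_cast h2
    _ = ∑ j ∈ range n, ((S.filter fun x => a + j * c ≤ F x ∧ F x < (a + j * c) + c).card : ℝ) := by
        push_cast
        rfl
    _ ≤ ∑ _j ∈ range n, T := sum_le_sum fun j _ => h.countQ S hS F c q hq hgain _
    _ = n * T := by rw [sum_const, card_range, nsmul_eq_mul]
    _ ≤ (L / c + 1) * T := by
        refine mul_le_mul_of_nonneg_right ?_ hT0
        rw [hn]
        push_cast
        have := Nat.floor_le (div_nonneg hL hc.le)
        linarith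

end

/-- the number of letters `true` -/
def cnt {h : ℕ} (x : (Fin h → Bool) × (Fin h → Bool)) : ℕ :=
  ∑ i, ((if x.1 i = true then 1 else 0) + (if x.2 i = true then 1 else 0))

/-- the slice -/
def Sl (h d : ℕ) : Finset ((Fin h → Bool) × (Fin h → Bool)) := univ.filter fun x => cnt x = d

lemma mem_Sl {h d : ℕ} (x : (Fin h → Bool) × (Fin h → Bool)) : x ∈ Sl h d ↔ cnt x = d := by
  simp [Sl]

lemma Sl_closed {h d : ℕ} : ∀ x ∈ Sl h d, ∀ y, cl y = cl x → y ∈ Sl h d := by
  intro x hx y hy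
  rw [mem_Sl] at hx ⊢
  rw [← hx]
  unfold cnt
  refine sum_congr rfl fun i _ => ?_
  rcases cl_eq hy.symm i with ⟨h1, h2, h3⟩ | ⟨h1, h2⟩
  · rw [h2, h3]
  · revert h1 h2
    cases x.1 i <;> cases x.2 i <;> cases y.1 i <;> cases y.2 i <;> simp

/-- both letters `true` -/
def n11 {h : ℕ} (x : (Fin h → Bool) × (Fin h → Bool)) : Finset (Fin h) :=
  univ.filter fun i => x.1 i = true ∧ x.2 i = true
/-- both letters `false` -/
def n00 {h : ℕ} (x : (Fin h → Bool) × (Fin h → Bool)) : Finset (Fin h) :=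
  univ.filter fun i => x.1 i = false ∧ x.2 i = false

lemma counts {h : ℕ} (x : (Fin h → Bool) × (Fin h → Bool)) :
    2 * (n11 x).card + (Ds x).card = cnt x ∧ 2 * (n00 x).card + (Ds x).card + cnt x = 2 * h := by
  have e1 : (n11 x).card = ∑ i, if x.1 i = true ∧ x.2 i = true then 1 else 0 := by
    rw [n11, card_filter]
  have e2 : (n00 x).card = ∑ i, if x.1 i = false ∧ x.2 i = false then 1 else 0 := by
    rw [n00, card_filter]
  have e3 : (Ds x).card = ∑ i, if x.1 i ≠ x.2 i then 1 else 0 := by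
    rw [Ds, card_filter]
  have e4 : 2 * h = ∑ _i : Fin h, 2 := by simp [mul_comm]
  rw [e4, e1, e2, e3, cnt, mul_sum, mul_sum, ← sum_add_distrib, ← sum_add_distrib, ← sum_add_distrib]
  constructor
  · refine sum_congr rfl fun i _ => ?_
    cases x.1 i <;> cases x.2 i <;> simp
  · refine sum_congr rfl fun i _ => ?_
    cases x.1 i <;> cases x.2 i <;> simp

/-- the modification: `11` at `i` and `00` at `j` become `10` and `01` -/
def md {h : ℕ} (i j : Fin h) (x : (Fin h → Bool) × (Fin h → Bool)) : (Fin h → Bool) × (Fin h → Bool) :=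
  (x.1, Function.update (Function.update x.2 i false) j true)

lemma md_Ds {h : ℕ} (i j : Fin h) (x : (Fin h → Bool) × (Fin h → Bool)) (hi : i ∈ n11 x) (hj : j ∈ n00 x) :
    i ≠ j ∧ i ∈ Ds (md i j x) ∧ j ∈ Ds (md i j x) ∧ (Ds (md i j x)).card = (Ds x).card + 2 ∧
      cnt (md i j x) = cnt x := by
  have hi' : x.1 i = true ∧ x.2 i = true := by simpa [n11] using hi
  have hj' : x.1 j = false ∧ x.2 j = false := by simpa [n00] using hj
  have hij : i ≠ j := by
    rintro rfl
    rw [hi'.1] at hj'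
    exact absurd hj'.1 (by decide)
  have e1 : Ds (md i j x) = insert i (insert j (Ds x)) := by
    ext k
    rw [mem_insert, mem_insert, mem_Ds, mem_Ds]
    simp only [md]
    rcases eq_or_ne k j with rfl | hkj
    · rw [Function.update_self, hj'.1]
      simp
    · rw [Function.update_of_ne hkj]
      rcases eq_or_ne k i with rfl | hki
      · rw [Function.update_self, hi'.1]
        simp
      · rw [Function.update_of_ne hki]
        simp [hkj, hki]
  have hjD : j ∉ Ds x := by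
    rw [mem_Ds, hj'.1, hj'.2]
    simp
  have hiD : i ∉ insert j (Ds x) := by
    rw [mem_insert, mem_Ds, hi'.1, hi'.2]
    simp [hij]
  refine ⟨hij, by rw [e1]; exact mem_insert_self _ _, by rw [e1]; exact mem_insert_of_mem (mem_insert_self _ _), ?_, ?_⟩
  · rw [e1, card_insert_of_notMem hiD, card_insert_of_notMem hjD]
  · unfold cnt
    rw [sum_add_distrib, sum_add_distrib]
    congr 1
    simp only [md]
    have e2 : ∑ k, (if x.2 k = true then 1 else 0) = (∑ k ∈ (univ.erase j).erase i, if x.2 k = true then 1 else 0) + 1 := by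
      rw [← sum_erase_add univ _ (mem_univ j), ← sum_erase_add (univ.erase j) _ (mem_erase.2 ⟨hij, mem_univ i⟩)]
      rw [hi'.2, hj'.2]
      simp
    have e3 : ∑ k, (if Function.update (Function.update x.2 i false) j true k = true then 1 else 0) =
        (∑ k ∈ (univ.erase j).erase i, if x.2 k = true then 1 else 0) + 1 := by
      rw [← sum_erase_add univ _ (mem_univ j), ← sum_erase_add (univ.erase j) _ (mem_erase.2 ⟨hij, mem_univ i⟩)]
      rw [Function.update_self, Function.update_of_ne hij, Function.update_self]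
      simp only [Bool.false_eq_true, if_false, add_zero, if_true]
      congr 1
      refine sum_congr rfl fun k hk => ?_
      have hk1 := mem_erase.1 hk
      have hk2 := mem_erase.1 hk1.2
      rw [Function.update_of_ne hk2.1, Function.update_of_ne hk1.1]
    rw [e2]
    exact e3

/-- double counting -/
lemma dc {h d : ℕ} : ∑ x ∈ Sl h d, ((n11 x).card : ℝ) * (n00 x).card * (1 / ((Ds x).card + 1 : ℝ)) ≤
    ∑ x ∈ Sl h d, ((Ds x).card : ℝ) := by
  classical
  -- the left side as a sum over pairs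
  have h1 : ∀ x ∈ Sl h d, ((n11 x).card : ℝ) * (n00 x).card * (1 / ((Ds x).card + 1 : ℝ)) =
      ∑ p : Fin h × Fin h, if p.1 ∈ n11 x ∧ p.2 ∈ n00 x then 1 / ((Ds x).card + 1 : ℝ) else 0 := by
    intro x _
    rw [← sum_filter]
    have : (univ.filter fun p : Fin h × Fin h => p.1 ∈ n11 x ∧ p.2 ∈ n00 x) = n11 x ×ˢ n00 x := by
      ext p
      simp
    rw [this, sum_const, card_product, nsmul_eq_mul]
    push_cast
    ring
  have h2 : ∀ x ∈ Sl h d, ∑ p : Fin h × Fin h, (if p.1 ≠ p.2 ∧ p.1 ∈ Ds x ∧ p.2 ∈ Ds x then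
      1 / ((Ds x).card - 1 : ℝ) else 0) ≤ ((Ds x).card : ℝ) := by
    intro x _
    rw [← sum_filter]
    have : (univ.filter fun p : Fin h × Fin h => p.1 ≠ p.2 ∧ p.1 ∈ Ds x ∧ p.2 ∈ Ds x) = (Ds x).offDiag := by
      ext p
      simp only [mem_filter, mem_univ, true_and, mem_offDiag]
      tauto
    rw [this, sum_const, offDiag_card, nsmul_eq_mul]
    rcases Nat.lt_or_ge (Ds x).card 2 with h3 | h3
    · interval_cases hc : (Ds x).card <;> simp
    · have h4 : (0 : ℝ) < ((Ds x).card : ℝ) - 1 := by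
        have : (2 : ℝ) ≤ (Ds x).card := by exact_mod_cast h3
        linarith
      rw [Nat.cast_sub (by nlinarith)]
      push_cast
      rw [mul_one_div, div_le_iff₀ h4]
      nlinarith
  rw [sum_congr rfl h1]
  refine le_trans ?_ (sum_le_sum h2)
  rw [sum_comm, sum_comm (s := Sl h d)]
  refine sum_le_sum fun p _ => ?_
  rw [← sum_filter, ← sum_filter]
  -- the injection
  set A := (Sl h d).filter fun x => p.1 ∈ n11 x ∧ p.2 ∈ n00 x with hA
  have hinj : Set.InjOn (md p.1 p.2) (A : Set ((Fin h → Bool) × (Fin h → Bool))) := by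
    intro x hx y hy hxy
    obtain ⟨-, hx1, hx2⟩ := mem_filter.1 (mem_coe.1 hx)
    obtain ⟨-, hy1, hy2⟩ := mem_filter.1 (mem_coe.1 hy)
    have hx1' : x.1 p.1 = true ∧ x.2 p.1 = true := by simpa [n11] using hx1
    have hx2' : x.1 p.2 = false ∧ x.2 p.2 = false := by simpa [n00] using hx2
    have hy1' : y.1 p.1 = true ∧ y.2 p.1 = true := by simpa [n11] using hy1
    have hy2' : y.1 p.2 = false ∧ y.2 p.2 = false := by simpa [n00] using hy2
    have e1 := congrArg Prod.fst hxy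
    have e2 := congrArg Prod.snd hxy
    simp only [md] at e1 e2
    refine Prod.ext e1 (funext fun k => ?_)
    rcases eq_or_ne k p.2 with rfl | hk2
    · rw [hx2'.2, hy2'.2]
    · rcases eq_or_ne k p.1 with rfl | hk1
      · rw [hx1'.2, hy1'.2]
      · have := congrFun e2 k
        rwa [Function.update_of_ne hk2, Function.update_of_ne hk1, Function.update_of_ne hk2,
          Function.update_of_ne hk1] at this
  calc ∑ x ∈ A, 1 / (((Ds x).card : ℝ) + 1)
      = ∑ x ∈ A, 1 / (((Ds (md p.1 p.2 x)).card : ℝ) - 1) := by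
        refine sum_congr rfl fun x hx => ?_
        obtain ⟨-, hx1, hx2⟩ := mem_filter.1 hx
        rw [(md_Ds p.1 p.2 x hx1 hx2).2.2.2.1]
        push_cast
        congr 1
        ring
    _ = ∑ y ∈ A.image (md p.1 p.2), 1 / (((Ds y).card : ℝ) - 1) := (sum_image (f := fun y => 1 / (((Ds y).card : ℝ) - 1)) hinj).symm
    _ ≤ _ := by
        refine sum_le_sum_of_subset_of_nonneg ?_ ?_
        · intro y hy
          obtain ⟨x, hx, rfl⟩ := mem_image.1 hy
          obtain ⟨hx0, hx1, hx2⟩ := mem_filter.1 hx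
          obtain ⟨e1, e2, e3, e4, e5⟩ := md_Ds p.1 p.2 x hx1 hx2
          rw [mem_Sl] at hx0
          exact mem_filter.2 ⟨(mem_Sl _).2 (e5.trans hx0), e1, e2, e3⟩
        · intro y hy _
          obtain ⟨-, e1, e2, e3⟩ := mem_filter.1 hy
          have h5 : 1 < (Ds y).card := one_lt_card.2 ⟨p.1, e2, p.2, e3, e1⟩
          have : (1 : ℝ) < (Ds y).card := by exact_mod_cast h5
          exact one_div_nonneg.2 (by linarith)

/-- the average on a slice -/
lemma slice_inv {h d μ : ℕ} (hμ : 0 < μ) (h1 : μ ≤ d) (h2 : μ + d ≤ 2 * h) (h3 : 2 * h ≤ d + μ ∨ d ≤ μ) :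
    ∑ x ∈ Sl h d, 1 / (((Ds x).card : ℝ) + 1) ≤ 18 / μ * (Sl h d).card := by
  have hμ0 : (0 : ℝ) < μ := by exact_mod_cast hμ
  have hD : ∀ x ∈ Sl h d, ((Ds x).card : ℝ) ≤ μ := by
    intro x hx
    rw [mem_Sl] at hx
    obtain ⟨e1, e2⟩ := counts x
    have : (Ds x).card ≤ μ := by omega
    exact_mod_cast this
  have hpt : ∀ x ∈ Sl h d, 1 / (((Ds x).card : ℝ) + 1) ≤
      16 / (μ : ℝ) ^ 2 * (((n11 x).card : ℝ) * (n00 x).card * (1 / ((Ds x).card + 1 : ℝ))) + 2 / μ := by
    intro x hx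
    rw [mem_Sl] at hx
    obtain ⟨e1, e2⟩ := counts x
    have hδ : (0 : ℝ) < ((Ds x).card : ℝ) + 1 := by positivity
    by_cases hc : 2 * (Ds x).card ≤ μ
    · have e3 : μ ≤ 4 * (n11 x).card := by omega
      have e4 : μ ≤ 4 * (n00 x).card := by omega
      have e5 : (μ : ℝ) ≤ 4 * (n11 x).card := by exact_mod_cast e3
      have e6 : (μ : ℝ) ≤ 4 * (n00 x).card := by exact_mod_cast e4
      have e7 : (μ : ℝ) ^ 2 ≤ 16 * (((n11 x).card : ℝ) * (n00 x).card) := by nlinarith
      have e8 : 1 ≤ 16 / (μ : ℝ) ^ 2 * (((n11 x).card : ℝ) * (n00 x).card) := by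
        rw [div_mul_eq_mul_div, le_div_iff₀ (by positivity), one_mul]
        exact e7
      have e9 : 1 * (1 / (((Ds x).card : ℝ) + 1)) ≤
          (16 / (μ : ℝ) ^ 2 * (((n11 x).card : ℝ) * (n00 x).card)) * (1 / (((Ds x).card : ℝ) + 1)) :=
        mul_le_mul_of_nonneg_right e8 (by positivity)
      have e10 : (0 : ℝ) ≤ 2 / μ := by positivity
      calc 1 / (((Ds x).card : ℝ) + 1) = 1 * (1 / (((Ds x).card : ℝ) + 1)) := (one_mul _).symm
        _ ≤ _ := e9
        _ = 16 / (μ : ℝ) ^ 2 * (((n11 x).card : ℝ) * (n00 x).card * (1 / ((Ds x).card + 1 : ℝ))) := by ring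
        _ ≤ _ := by linarith
    · push Not at hc
      have e3 : (μ : ℝ) ≤ 2 * (Ds x).card := by exact_mod_cast hc.le
      have e4 : 1 / (((Ds x).card : ℝ) + 1) ≤ 2 / μ := by
        rw [div_le_div_iff₀ hδ hμ0]
        linarith
      have e5 : 0 ≤ 16 / (μ : ℝ) ^ 2 * (((n11 x).card : ℝ) * (n00 x).card * (1 / ((Ds x).card + 1 : ℝ))) := by
        positivity
      linarith
  calc ∑ x ∈ Sl h d, 1 / (((Ds x).card : ℝ) + 1)
      ≤ ∑ x ∈ Sl h d, (16 / (μ : ℝ) ^ 2 * (((n11 x).card : ℝ) * (n00 x).card * (1 / ((Ds x).card + 1 : ℝ))) + 2 / μ) :=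
        sum_le_sum hpt
    _ = 16 / (μ : ℝ) ^ 2 * ∑ x ∈ Sl h d, ((n11 x).card : ℝ) * (n00 x).card * (1 / ((Ds x).card + 1 : ℝ)) +
        (Sl h d).card * (2 / μ) := by
        rw [sum_add_distrib, ← mul_sum, sum_const, nsmul_eq_mul]
    _ ≤ 16 / (μ : ℝ) ^ 2 * ∑ x ∈ Sl h d, ((Ds x).card : ℝ) + (Sl h d).card * (2 / μ) :=
        add_le_add (mul_le_mul_of_nonneg_left dc (by positivity)) le_rfl
    _ ≤ 16 / (μ : ℝ) ^ 2 * ∑ _x ∈ Sl h d, (μ : ℝ) + (Sl h d).card * (2 / μ) :=
        add_le_add (mul_le_mul_of_nonneg_left (sum_le_sum hD) (by positivity)) le_rfl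
    _ = 18 / μ * (Sl h d).card := by
        rw [sum_const, nsmul_eq_mul]
        field_simp
        ring

lemma slice_sqrt {h d μ : ℕ} (hμ : 0 < μ) (h1 : μ ≤ d) (h2 : μ + d ≤ 2 * h) (h3 : 2 * h ≤ d + μ ∨ d ≤ μ) :
    ∑ x ∈ Sl h d, 1 / Real.sqrt (((Ds x).card : ℝ) + 1) ≤ (Sl h d).card * Real.sqrt (18 / μ) := by
  have hμ0 : (0 : ℝ) < μ := by exact_mod_cast hμ
  have h4 := sq_sum_le_card_mul_sum_sq (s := Sl h d) (f := fun x => 1 / Real.sqrt (((Ds x).card : ℝ) + 1))
  have h5 : ∀ x : (Fin h → Bool) × (Fin h → Bool), (1 / Real.sqrt (((Ds x).card : ℝ) + 1)) ^ 2 =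
      1 / (((Ds x).card : ℝ) + 1) := by
    intro x
    rw [div_pow, one_pow, Real.sq_sqrt (by positivity)]
  simp only [h5] at h4
  refine (sq_le_sq₀ (sum_nonneg fun x _ => by positivity) (by positivity)).1 (h4.trans ?_)
  rw [mul_pow, Real.sq_sqrt (by positivity)]
  calc ((Sl h d).card : ℝ) * ∑ x ∈ Sl h d, 1 / (((Ds x).card : ℝ) + 1)
      ≤ (Sl h d).card * (18 / μ * (Sl h d).card) :=
        mul_le_mul_of_nonneg_left (slice_inv hμ h1 h2 h3) (Nat.cast_nonneg _)
    _ = _ := by ring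

/-- **anticoncentration on a slice** -/
theorem antiS {h d μ : ℕ} (hh : 4 ≤ h) (hμ : 0 < μ) (h1 : μ ≤ d) (h2 : μ + d ≤ 2 * h)
    (h3 : 2 * h ≤ d + μ ∨ d ≤ μ) (F : (Fin h → Bool) × (Fin h → Bool) → ℝ) (c : ℝ) (hc : 0 < c) (q : ℕ) (hq : 0 < q)
    (hgain : ∀ x ∈ Sl h d, ∀ y ∈ Sl h d, cl x = cl y → Os x ⊆ Os y → (Os x).card + q ≤ (Os y).card →
      F x + c ≤ F y) (a L : ℝ) (hL : 0 ≤ L) :
    (((Sl h d).filter fun x => a ≤ F x ∧ F x ≤ a + L).card : ℝ) ≤
      (L / c + 1) * (q * ((Sl h d).card * Real.sqrt (18 / μ))) :=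
  ((cubes_all hh [] (by simp)).countQ' (Sl h d) Sl_closed F c hc q hq hgain a L hL).trans
    (mul_le_mul_of_nonneg_left (mul_le_mul_of_nonneg_left (slice_sqrt hμ h1 h2 h3) (Nat.cast_nonneg _))
      (by positivity))

end Pool.Agent.K7.H78.MZ
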