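import Pool.Agent.K7.H78.MZ.Hc
import Pool.Agent.K7.H78.MZ.Slice

/-!
# Exchanging single letters `2`, `3`
-/

set_option autoImplicit false

namespace Pool.Agent.K7.H78.MZ

open Finset

/-- the constant -/
noncomputable def c8 : ℝ := Real.exp (-24) / 2

lemma c8_pos : 0 < c8 := by unfold c8; positivity
lemma c8_lt : c8 < 1 := by
  unfold c8
  have : Real.exp (-24) ≤ 1 := Real.exp_le_one_iff.2 (by norm_num)
  linarith

theorem swap_const8 (u V w : List Bool) (h10 : 13 ≤ u.length + V.length + w.length + 2)
    (h4 : u.length + V.length + w.length + 2 ≤ 8 * V.length) :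
    Zt (u.reverse ++ false :: (V ++ true :: w)) ≤
      ENNReal.ofReal (1 - c8) * Zt (u.reverse ++ true :: (V ++ false :: w)) := by
  set δ : ℝ := Real.exp (-24) with hδ
  have hδ0 : 0 < δ := Real.exp_pos _
  refine (swap δ hδ0.le u V w).trans (mul_le_mul_left ?_ _)
  set p : ℕ := u.length + V.length + w.length + 2 with hp
  have h1 : ex (u.length + w.length + 2) * kap δ ^ V.length ≤ ENNReal.ofReal (Real.exp (-26)) := by
    rw [ex, kap, ← ENNReal.ofReal_pow (by positivity), ← ENNReal.ofReal_mul (Real.exp_pos _).le]
    refine ENNReal.ofReal_le_ofReal ?_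
    have h2 : δ / (δ + 2) ≤ Real.exp (-24) := by
      rw [div_le_iff₀ (by positivity), ← hδ]
      nlinarith
    calc Real.exp (u.length + w.length + 2) * (Real.exp 1 * (δ / (δ + 2))) ^ V.length
        ≤ Real.exp (u.length + w.length + 2) * (Real.exp 1 * Real.exp (-24)) ^ V.length := by
          refine mul_le_mul_of_nonneg_left (pow_le_pow_left₀ (by positivity) ?_ _) (Real.exp_pos _).le
          exact mul_le_mul_of_nonneg_left h2 (Real.exp_pos _).le
      _ = Real.exp (u.length + w.length + 2 + V.length * (1 + -24)) := by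
          rw [← Real.exp_add 1, ← Real.exp_nat_mul, ← Real.exp_add]
      _ ≤ Real.exp (-26) := by
          refine Real.exp_le_exp.2 ?_
          have h5 : (13 : ℝ) ≤ p := by exact_mod_cast h10
          have h6 : (p : ℝ) ≤ 8 * V.length := by exact_mod_cast h4
          have h7 : (p : ℝ) = u.length + V.length + w.length + 2 := by rw [hp]; push_cast; ring
          linarith
  have h2 : ex (-δ) ≤ ENNReal.ofReal (1 - δ + δ ^ 2) := by
    refine ENNReal.ofReal_le_ofReal ?_
    have h3 := Real.add_one_le_exp δ
    rw [Real.exp_neg, inv_eq_one_div, div_le_iff₀ (Real.exp_pos _)]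
    have h4 : 0 < 1 - δ + δ ^ 2 := by nlinarith [sq_nonneg (δ - 1)]
    nlinarith [mul_le_mul_of_nonneg_left h3 h4.le, pow_pos hδ0 3]
  refine (add_le_add h2 h1).trans ?_
  have h3 : (0 : ℝ) ≤ 1 - δ + δ ^ 2 := by nlinarith [sq_nonneg (δ - 1)]
  rw [← ENNReal.ofReal_add h3 (Real.exp_pos _).le]
  refine ENNReal.ofReal_le_ofReal ?_
  have h5 : Real.exp (-26) = δ * Real.exp (-2) := by
    rw [hδ, ← Real.exp_add]
    norm_num
  have h7 := num2
  have h8 : δ ≤ 1 / 7 := by
    refine le_trans ?_ num2
    exact Real.exp_le_exp.2 (by norm_num)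
  rw [h5, c8, ← hδ]
  have h9 : δ * Real.exp (-2) ≤ δ * (1 / 7) := mul_le_mul_of_nonneg_left h7 hδ0.le
  nlinarith

/-- many letters `x` -/
def xs (n : ℕ) : List Bool := List.replicate n false

lemma xs_add (m n : ℕ) : xs (m + n) = xs m ++ xs n := (List.replicate_append_replicate (n := m) (m := n)).symm

lemma xs_succ (n : ℕ) : xs (n + 1) = xs n ++ [false] := xs_add n 1

lemma Le.xn (n : ℕ) (v : List Bool) : Le (xs n ++ v) (v ++ xs n) := by
  induction n with
  | zero =>
    have : xs 0 = [] := rfl
    rw [this, List.nil_append, List.append_nil]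
    exact Le.refl _
  | succ n ih =>
    have h1 : Le (xs n ++ (false :: v)) (xs n ++ (v ++ [false])) := (Le.refl _).app (Le.x v)
    have h2 : Le ((xs n ++ v) ++ [false]) ((v ++ xs n) ++ [false]) := ih.app (Le.refl _)
    rw [xs_succ]
    simp only [List.append_assoc, List.cons_append, List.nil_append] at h1 h2 ⊢
    exact h1.trans h2

lemma cnt_ge {A A' : List Bool} (hA : List.Forall₂ (fun a a' => a' = true → a = true) A A') :
    A'.count true ≤ A.count true := by
  induction hA with
  | nil => simp
  | @cons b b' A A' hb _ ih2 =>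
    rw [List.count_cons, List.count_cons]
    cases b <;> cases b'
    · simpa using ih2
    · exact absurd (hb rfl) (by decide)
    · simp only [beq_self_eq_true, if_true, beq_iff_eq, Bool.false_eq_true, if_false]
      omega
    · simpa using ih2

/-- `3`s changed to `2`s -/
lemma chg {T T' : List Bool} (h : List.Forall₂ (fun a a' => a' = true → a = true) T T') :
    ∀ n, T.count true = T'.count true + n → Le (wl T) (wl T' ++ xs n) := by
  induction h with
  | nil =>
    intro n hn
    have : n = 0 := by simpa using hn.symm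
    subst this
    exact Le.refl _
  | @cons a a' T T' ha hTT ih =>
    intro n hn
    rw [List.count_cons, List.count_cons] at hn
    cases a <;> cases a'
    · have h1 := ih n (by simpa using hn)
      exact (Le.refl (wl [false])).app h1
    · exact absurd (ha rfl) (by decide)
    · simp only [beq_self_eq_true, if_true, beq_iff_eq, Bool.false_eq_true, if_false] at hn
      have h0 := cnt_ge hTT
      obtain ⟨n0, rfl⟩ : ∃ n0, n = n0 + 1 := ⟨n - 1, by omega⟩
      have h1 := ih n0 (by omega)
      have h2 : Le (wl (true :: T)) (wl (false :: T) ++ [false]) := Le.x _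
      have h3 : Le ((wl [false] ++ wl T) ++ [false]) ((wl [false] ++ (wl T' ++ xs n0)) ++ [false]) :=
        ((Le.refl _).app h1).app (Le.refl _)
      rw [xs_succ]
      simp only [List.append_assoc] at h2 h3 ⊢
      exact h2.trans h3
    · have h1 := ih n (by simp only [beq_self_eq_true, if_true] at hn; omega)
      exact (Le.refl (wl [true])).app h1

lemma cnt_le {A A' : List Bool} (hA : List.Forall₂ (fun a a' => a = true → a' = true) A A') :
    A.count true ≤ A'.count true := by
  induction hA with
  | nil => simp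
  | @cons b b' A A' hb _ ih2 =>
    rw [List.count_cons, List.count_cons]
    cases b <;> cases b'
    · simpa using ih2
    · simp only [beq_self_eq_true, if_true, beq_iff_eq, Bool.false_eq_true, if_false]
      omega
    · exact absurd (hb rfl) (by decide)
    · simpa using ih2

/-- `2`s changed to `3`s -/
lemma chg' {T T' : List Bool} (h : List.Forall₂ (fun a a' => a = true → a' = true) T T') :
    ∀ n, T'.count true = T.count true + n → Le (xs n ++ wl T) (wl T') := by
  induction h with
  | nil =>
    intro n hn
    have : n = 0 := by simpa using hn.symm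
    subst this
    exact Le.refl _
  | @cons a a' T T' ha hTT ih =>
    intro n hn
    rw [List.count_cons, List.count_cons] at hn
    cases a <;> cases a'
    · have h1 := ih n (by simpa using hn)
      have h2 : Le ((xs n ++ wl [false]) ++ wl T) ((wl [false] ++ xs n) ++ wl T) := (Le.xn n _).app (Le.refl _)
      have h3 : Le (wl [false] ++ (xs n ++ wl T)) (wl [false] ++ wl T') := (Le.refl _).app h1
      simp only [List.append_assoc] at h2 h3
      exact h2.trans h3
    · simp only [beq_self_eq_true, if_true, beq_iff_eq, Bool.false_eq_true, if_false] at hn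
      have h0 := cnt_le hTT
      obtain ⟨n0, rfl⟩ : ∃ n0, n = n0 + 1 := ⟨n - 1, by omega⟩
      have h1 := ih n0 (by omega)
      have h2 : Le ((xs n0 ++ wl [true]) ++ wl T) ((wl [true] ++ xs n0) ++ wl T) := (Le.xn n0 _).app (Le.refl _)
      have h3 : Le (wl [true] ++ (xs n0 ++ wl T)) (wl [true] ++ wl T') := (Le.refl _).app h1
      rw [xs_succ]
      simp only [List.append_assoc] at h2 h3 ⊢
      exact h2.trans h3
    · exact absurd (ha rfl) (by decide)
    · have h1 := ih n (by simp only [beq_self_eq_true, if_true] at hn; omega)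
      have h2 : Le ((xs n ++ wl [true]) ++ wl T) ((wl [true] ++ xs n) ++ wl T) := (Le.xn n _).app (Le.refl _)
      have h3 : Le (wl [true] ++ (xs n ++ wl T)) (wl [true] ++ wl T') := (Le.refl _).app h1
      simp only [List.append_assoc] at h2 h3
      exact h2.trans h3

/-- the order of the letters above: `3`s changed to `2`s -/
abbrev Dn (T T' : List Bool) : Prop := List.Forall₂ (fun a a' => a' = true → a = true) T T'
/-- the order of the letters below: `2`s changed to `3`s -/
abbrev Up (T T' : List Bool) : Prop := List.Forall₂ (fun a a' => a = true → a' = true) T T'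

/-- exchanges increase the value -/
lemma Le.mono {T T' Z B B' : List Bool} (h1 : Dn T T') (h2 : Up B B') (n : ℕ)
    (hn : T.count true = T'.count true + n) (hn' : B'.count true = B.count true + n) :
    Le (wl (T ++ (Z ++ B))) (wl (T' ++ (Z ++ B'))) := by
  simp only [wl_append]
  have a1 := (chg h1 n hn).app (Le.refl (wl Z ++ wl B))
  have a2 : Le (wl T' ++ ((xs n ++ wl Z) ++ wl B)) (wl T' ++ ((wl Z ++ xs n) ++ wl B)) :=
    (Le.refl _).app ((Le.xn n _).app (Le.refl _))
  have a3 : Le (wl T' ++ (wl Z ++ (xs n ++ wl B))) (wl T' ++ (wl Z ++ wl B')) :=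
    (Le.refl _).app ((Le.refl _).app (chg' h2 n hn'))
  simp only [List.append_assoc] at a1 a2 a3 ⊢
  exact a1.trans (a2.trans a3)

/-- at least three exchanges over a long word increase the value by a constant factor -/
theorem gain {T T' Z B B' : List Bool} (h1 : Dn T T') (h2 : Up B B') (n : ℕ) (hn3 : 3 ≤ n)
    (hn : T.count true = T'.count true + n) (hn' : B'.count true = B.count true + n) (P R : List Bool)
    (hZ : Z ≠ []) (h10 : 13 ≤ (wl (P ++ (T ++ (Z ++ (B ++ R))))).length)
    (h4 : (wl (P ++ (T ++ (Z ++ (B ++ R))))).length + 16 ≤ 8 * (wl Z).length) :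
    Zt (wl (P ++ (T ++ (Z ++ (B ++ R))))) ≤ ENNReal.ofReal (1 - c8) * Zt (wl (P ++ (T' ++ (Z ++ (B' ++ R))))) := by
  obtain ⟨V, hV⟩ := wl_mid hZ
  have e1 : wl (P ++ (T ++ (Z ++ (B ++ R)))) = (wl P ++ wl T) ++ false :: (V ++ true :: (wl B ++ wl R)) := by
    simp only [wl_append, hV, List.append_assoc, List.cons_append, List.nil_append]
  have hs := swap_const8 (wl P ++ wl T).reverse V (wl B ++ wl R)
  rw [List.reverse_reverse, List.length_reverse] at hs
  have hl : (wl (P ++ (T ++ (Z ++ (B ++ R))))).length =
      (wl P ++ wl T).length + V.length + (wl B ++ wl R).length + 2 := by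
    rw [e1]
    simp only [List.length_append, List.length_cons]
    omega
  have hVl : (wl Z).length = V.length + 2 := by
    rw [hV]
    simp
  rw [hl] at h10 h4
  rw [e1]
  refine (hs h10 (by omega)).trans (mul_le_mul_right ?_ _)
  obtain ⟨n0, rfl⟩ : ∃ n0, n = n0 + 3 := ⟨n - 3, by omega⟩
  have a1 := (chg h1 _ hn).app (Le.refl ((true :: (V ++ [false])) ++ wl B))
  have hx3 : xs 3 = [false, false, false] := rfl
  have a2 : Le (wl T' ++ (xs n0 ++ (([false, false, false] ++ (true :: (V ++ [false]))) ++ wl B)))
      (wl T' ++ (xs n0 ++ ((wl Z ++ [false, false, false]) ++ wl B))) :=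
    (Le.refl _).app ((Le.refl _).app ((Le.t4 hV hZ).app (Le.refl _)))
  have a3 : Le (wl T' ++ ((xs n0 ++ wl Z) ++ ([false, false, false] ++ wl B)))
      (wl T' ++ ((wl Z ++ xs n0) ++ ([false, false, false] ++ wl B))) :=
    (Le.refl _).app ((Le.xn n0 _).app (Le.refl _))
  have a4 : Le (wl T' ++ (wl Z ++ (xs (n0 + 3) ++ wl B))) (wl T' ++ (wl Z ++ wl B')) :=
    (Le.refl _).app ((Le.refl _).app (chg' h2 _ hn'))
  rw [xs_add, hx3] at a1 a4
  simp only [List.append_assoc] at a1 a2 a3 a4
  have a5 := (((a1.trans a2).trans a3).trans a4) (wl P) (wl R)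
  simp only [wl_append, List.append_assoc, List.cons_append, List.nil_append] at a5 ⊢
  exact a5

end Pool.Agent.K7.H78.MZ
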