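import Pool.Agent.K7.H78.MZ.Lv

/-!
# The gain for words with a given number of `3`s
-/

set_option autoImplicit false

namespace Pool.Agent.K7.H78.MZ

open Finset

/-- the list of the opposite letters -/
def fl {g : ℕ} (p : Fin g → Bool) : List Bool := List.ofFn fun i => !(p i)

lemma fl_length {g : ℕ} (p : Fin g → Bool) : (fl p).length = g := List.length_ofFn

lemma fl_succ {g : ℕ} (p : Fin (g + 1) → Bool) : fl p = (!(p 0)) :: fl (fun i => p i.succ) := by
  unfold fl
  rw [List.ofFn_succ]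

lemma fl_add {g h : ℕ} (p : Fin (g + h) → Bool) :
    fl p = fl (fun i => p (Fin.castAdd h i)) ++ fl (fun i => p (Fin.natAdd g i)) := by
  unfold fl
  rw [List.ofFn_add]
  rfl

/-- the pointwise condition -/
def Chg {g : ℕ} (p q p' q' : Fin g → Bool) : Prop :=
  ∀ i, (p' i = p i ∧ q' i = q i) ∨ (p i = false ∧ q i = true ∧ p' i = true ∧ q' i = false)

/-- the number of changes -/
def nch {g : ℕ} (p p' : Fin g → Bool) : ℕ := ∑ i, if p i ≠ p' i then 1 else 0

lemma chg_fl {g : ℕ} : ∀ {p q p' q' : Fin g → Bool}, Chg p q p' q' →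
    Dn (fl p) (fl p') ∧ Up (fl q) (fl q') ∧ (fl p).count true = (fl p').count true + nch p p' ∧
      (fl q').count true = (fl q).count true + nch p p' := by
  induction g with
  | zero =>
    intro p q p' q' _
    have h0 : ∀ p : Fin 0 → Bool, fl p = [] := fun p => by simp [fl]
    rw [h0, h0, h0, h0]
    exact ⟨List.Forall₂.nil, List.Forall₂.nil, by simp [nch], by simp [nch]⟩
  | succ g ih =>
    intro p q p' q' h
    obtain ⟨a1, a2, a3, a4⟩ := ih (p := fun i => p i.succ) (q := fun i => q i.succ) (p' := fun i => p' i.succ)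
      (q' := fun i => q' i.succ) (fun i => h i.succ)
    have h0 := h 0
    rw [fl_succ p, fl_succ q, fl_succ p', fl_succ q']
    have e1 : nch p p' = (if p 0 ≠ p' 0 then 1 else 0) + nch (fun i => p i.succ) fun i => p' i.succ := by
      unfold nch
      rw [Fin.sum_univ_succ]
    rw [e1, List.count_cons, List.count_cons, List.count_cons, List.count_cons, a3, a4]
    rcases h0 with ⟨h1, h2⟩ | ⟨h1, h2, h3, h4⟩
    · rw [h1, h2]
      refine ⟨List.Forall₂.cons (fun h => h) a1, List.Forall₂.cons (fun h => h) a2, ?_, ?_⟩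
      · simp
        omega
      · simp
        omega
    · rw [h1, h2, h3, h4]
      refine ⟨List.Forall₂.cons (fun h => by simp at h) a1, List.Forall₂.cons (fun h => by simp at h) a2, ?_, ?_⟩
      · simp
        omega
      · simp
        omega

/-- the letters of the word -/
def lw {g : ℕ} (e : List Bool) (x : (Fin g → Bool) × (Fin g → Bool)) : List Bool := fl x.1 ++ (fl x.2 ++ e)

lemma chg_of {h : ℕ} {x y : (Fin h → Bool) × (Fin h → Bool)} (hc : cl x = cl y) (ho : Os x ⊆ Os y) :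
    Chg x.1 x.2 y.1 y.2 := by
  intro i
  have h5 : i ∈ Os x → i ∈ Os y := fun h => ho h
  rw [mem_Os, mem_Os] at h5
  rcases cl_eq hc i with ⟨h1, h2, h3⟩ | ⟨h1, h2⟩
  · exact Or.inl ⟨h2, h3⟩
  · revert h1 h2 h5
    cases x.1 i <;> cases x.2 i <;> cases y.1 i <;> cases y.2 i <;> simp

lemma card_Os {h : ℕ} {x y : (Fin h → Bool) × (Fin h → Bool)} (hc : Chg x.1 x.2 y.1 y.2) :
    (Os y).card = (Os x).card + nch x.1 y.1 := by
  rw [Os, Os, card_filter, card_filter, nch, ← sum_add_distrib]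
  refine sum_congr rfl fun i _ => ?_
  rcases hc i with ⟨h1, h2⟩ | ⟨h1, h2, h3, h4⟩
  · rw [h1, h2]
    simp
  · rw [h1, h2, h3, h4]
    simp

lemma nch_add {g h : ℕ} (p p' : Fin (g + h) → Bool) : nch p p' =
    nch (fun i => p (Fin.castAdd h i)) (fun i => p' (Fin.castAdd h i)) +
      nch (fun i => p (Fin.natAdd g i)) fun i => p' (Fin.natAdd g i) := by
  unfold nch
  rw [Fin.sum_univ_add]

/-- the gain -/
theorem gain_lw {g : ℕ} (hg : 7 ≤ g) (e : List Bool) (he : e.length ≤ 3)
    {x y : (Fin (g + g) → Bool) × (Fin (g + g) → Bool)} (hc : cl x = cl y) (ho : Os x ⊆ Os y)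
    (h5 : (Os x).card + 5 ≤ (Os y).card) :
    Real.log (zv (wl (lw e x))) + c8 ≤ Real.log (zv (wl (lw e y))) := by
  have hch := chg_of hc ho
  have hN := card_Os hch
  have hN2 := nch_add x.1 y.1
  set T1 := fl (fun i => x.1 (Fin.castAdd g i)) with hT1
  set T2 := fl (fun i => x.1 (Fin.natAdd g i)) with hT2
  set T1' := fl (fun i => y.1 (Fin.castAdd g i)) with hT1'
  set T2' := fl (fun i => y.1 (Fin.natAdd g i)) with hT2'
  set B1 := fl (fun i => x.2 (Fin.castAdd g i)) with hB1
  set B2 := fl (fun i => x.2 (Fin.natAdd g i)) with hB2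
  set B1' := fl (fun i => y.2 (Fin.castAdd g i)) with hB1'
  set B2' := fl (fun i => y.2 (Fin.natAdd g i)) with hB2'
  set N1 := nch (fun i => x.1 (Fin.castAdd g i)) (fun i => y.1 (Fin.castAdd g i)) with hN1
  set N2 := nch (fun i => x.1 (Fin.natAdd g i)) (fun i => y.1 (Fin.natAdd g i)) with hN2'
  obtain ⟨a1, a2, a3, a4⟩ := chg_fl (p := fun i : Fin g => x.1 (Fin.castAdd g i))
    (q := fun i => x.2 (Fin.castAdd g i)) (p' := fun i => y.1 (Fin.castAdd g i))
    (q' := fun i => y.2 (Fin.castAdd g i)) (fun i => hch _)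
  obtain ⟨b1, b2, b3, b4⟩ := chg_fl (p := fun i : Fin g => x.1 (Fin.natAdd g i))
    (q := fun i => x.2 (Fin.natAdd g i)) (p' := fun i => y.1 (Fin.natAdd g i))
    (q' := fun i => y.2 (Fin.natAdd g i)) (fun i => hch _)
  have ex : lw e x = T1 ++ (T2 ++ (B1 ++ (B2 ++ e))) := by
    rw [lw, fl_add x.1, fl_add x.2]
    simp only [List.append_assoc, hT1, hT2, hB1, hB2]
  have ey : lw e y = T1' ++ (T2' ++ (B1' ++ (B2' ++ e))) := by
    rw [lw, fl_add y.1, fl_add y.2]
    simp only [List.append_assoc, hT1', hT2', hB1', hB2']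
  have hlen : ∀ A B C D : List Bool, A.length = g → B.length = g → C.length = g → D.length = g →
      13 ≤ (wl (A ++ (B ++ (C ++ (D ++ e))))).length ∧ (wl (A ++ (B ++ (C ++ (D ++ e))))).length + 16 ≤ 16 * g := by
    intro A B C D hA hB hC hD
    have h1 := wtl_ge (A ++ (B ++ (C ++ (D ++ e))))
    have h2 := wtl_le (A ++ (B ++ (C ++ (D ++ e))))
    rw [wtl] at h1 h2
    rw [List.length_append, List.length_append, List.length_append, List.length_append, hA, hB, hC, hD] at h1 h2
    constructor <;> omega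
  have hZl : ∀ A : List Bool, A.length = g → 16 * g ≤ 8 * (wl A).length := by
    intro A hA
    have h1 := wtl_ge A
    rw [wtl, hA] at h1
    omega
  have hne : ∀ A : List Bool, A.length = g → A ≠ [] := by
    rintro A hA rfl
    rw [List.length_nil] at hA
    omega
  have key : Zt (wl (lw e x)) ≤ ENNReal.ofReal (1 - c8) * Zt (wl (lw e y)) := by
    rw [ex, ey]
    rcases Nat.lt_or_ge N1 3 with hlt | hge
    · have hge2 : 3 ≤ N2 := by omega
      have l1 := hlen T1 T2 B1 B2 (fl_length _) (fl_length _) (fl_length _) (fl_length _)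
      have g1 := gain (T := T2) (T' := T2') (Z := B1) (B := B2) (B' := B2') b1 b2 N2 hge2 b3 b4 T1 e
        (hne _ (fl_length _)) l1.1 (l1.2.trans (hZl _ (fl_length _)))
      have m1 := (Le.mono (T := T1) (T' := T1') (Z := T2') (B := B1) (B' := B1') a1 a2 N1 a3 a4) [] (wl (B2' ++ e))
      simp only [wl_append, List.append_assoc, List.nil_append] at g1 m1 ⊢
      exact g1.trans (mul_le_mul_right m1 _)
    · have l1 := hlen T1 T2 B1 B2 (fl_length _) (fl_length _) (fl_length _) (fl_length _)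
      have g1 := gain (T := T1) (T' := T1') (Z := T2) (B := B1) (B' := B1') a1 a2 N1 hge a3 a4 [] (B2 ++ e)
        (hne _ (fl_length _)) l1.1 (l1.2.trans (hZl _ (fl_length _)))
      have m1 := (Le.mono (T := T2) (T' := T2') (Z := B1') (B := B2) (B' := B2') b1 b2 N2 b3 b4) (wl T1') (wl e)
      simp only [wl_append, List.append_assoc, List.nil_append] at g1 m1 ⊢
      exact g1.trans (mul_le_mul_right m1 _)
  have hc8 := c8_lt
  have hc8' := c8_pos
  rw [(AdmW_wl _).Zt, (AdmW_wl _).Zt, ← ENNReal.ofReal_mul (by linarith)] at key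
  have h3 := (AdmW_wl (lw e x)).pos
  have h4 := (AdmW_wl (lw e y)).pos
  have h1c : 0 < 1 - c8 := by linarith
  have h2 : zv (wl (lw e x)) ≤ (1 - c8) * zv (wl (lw e y)) :=
    (ENNReal.ofReal_le_ofReal_iff (mul_pos h1c h4).le).1 key
  have h5 : Real.log (zv (wl (lw e x))) ≤ Real.log (1 - c8) + Real.log (zv (wl (lw e y))) := by
    rw [← Real.log_mul h1c.ne' h4.ne']
    exact Real.log_le_log h3 h2
  have h6 : Real.log (1 - c8) ≤ -c8 := by
    have := Real.log_le_sub_one_of_pos h1c
    linarith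
  linarith

/-- anticoncentration for the words with a given number of `3`s, in parts -/
theorem antiL {g d μ : ℕ} (hg : 7 ≤ g) (e : List Bool) (he : e.length ≤ 3) (hμ : 0 < μ) (h1 : μ ≤ d)
    (h2 : μ + d ≤ 2 * (g + g)) (h3 : 2 * (g + g) ≤ d + μ ∨ d ≤ μ) (a L : ℝ) (hL : 0 ≤ L) :
    (((Sl (g + g) d).filter fun x => a ≤ Real.log (zv (wl (lw e x))) ∧
      Real.log (zv (wl (lw e x))) ≤ a + L).card : ℝ) ≤
      (L / c8 + 1) * (5 * ((Sl (g + g) d).card * Real.sqrt (18 / μ))) := by
  have := antiS (h := g + g) (by omega) hμ h1 h2 h3 (fun x => Real.log (zv (wl (lw e x)))) c8 c8_pos 5 (by norm_num)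
    (fun x _ y _ hc ho h5 => gain_lw hg e he hc ho h5) a L hL
  exact_mod_cast this

end Pool.Agent.K7.H78.MZ
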