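import Pool.Agent.K7.H78.MZ.Lw

/-!
# Anticoncentration for the words with `d` letters `3` and `e` letters `2`
-/

set_option autoImplicit false

namespace Pool.Agent.K7.H78.MZ

open Finset

lemma LL_finite (d e : ℕ) : {l : List Bool | l.count true = d ∧ l.count false = e}.Finite := by
  refine (List.finite_length_eq Bool (d + e)).subset ?_
  rintro l ⟨h1, h2⟩
  have h3 : l.length = l.count true + l.count false := by
    rw [← List.count_true_add_count_false]
  change l.length = d + e
  omega

/-- the lists with `d` letters `true` and `e` letters `false` -/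
noncomputable def LL (d e : ℕ) : Finset (List Bool) := (LL_finite d e).toFinset

lemma mem_LL (d e : ℕ) (l : List Bool) : l ∈ LL d e ↔ l.count true = d ∧ l.count false = e := by
  rw [LL, Set.Finite.mem_toFinset]
  rfl

noncomputable def EL (n : ℕ) : Finset (List Bool) := (List.finite_length_eq Bool n).toFinset

lemma mem_EL (n : ℕ) (l : List Bool) : l ∈ EL n ↔ l.length = n := by
  rw [EL, Set.Finite.mem_toFinset]
  rfl

lemma count_fl {g : ℕ} (p : Fin g → Bool) : (fl p).count false = ∑ i, if p i = true then 1 else 0 := by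
  induction g with
  | zero => simp [fl]
  | succ g ih =>
    rw [fl_succ, List.count_cons, ih, Fin.sum_univ_succ]
    cases p 0 <;> simp <;> omega

lemma count_lw {g : ℕ} (e : List Bool) (x : (Fin g → Bool) × (Fin g → Bool)) :
    (lw e x).count false = cnt x + e.count false := by
  rw [lw, List.count_append, List.count_append, count_fl, count_fl, cnt, sum_add_distrib]
  omega

lemma lw_length {g : ℕ} (e : List Bool) (x : (Fin g → Bool) × (Fin g → Bool)) :
    (lw e x).length = 2 * g + e.length := by
  rw [lw, List.length_append, List.length_append, fl_length, fl_length]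
  omega

lemma fl_inj {g : ℕ} {p q : Fin g → Bool} (h : fl p = fl q) : p = q := by
  unfold fl at h
  have h1 := List.ofFn_injective h
  funext i
  have h2 := congrFun h1 i
  simpa using h2

lemma fl_sur (g : ℕ) (l : List Bool) (hl : l.length = g) : ∃ p : Fin g → Bool, fl p = l := by
  subst hl
  refine ⟨fun i => !(l.get i), ?_⟩
  unfold fl
  simp only [Bool.not_not]
  exact List.ofFn_get l

lemma lw_inj {g : ℕ} {e e' : List Bool} {x x' : (Fin g → Bool) × (Fin g → Bool)} (h : lw e x = lw e' x') :
    e = e' ∧ x = x' := by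
  unfold lw at h
  obtain ⟨h1, h2⟩ := List.append_inj h (by rw [fl_length, fl_length])
  obtain ⟨h3, h4⟩ := List.append_inj h2 (by rw [fl_length, fl_length])
  exact ⟨h4, Prod.ext (fl_inj h1) (fl_inj h3)⟩

lemma lw_sur (g : ℕ) (l : List Bool) (hl : 2 * g ≤ l.length) :
    ∃ x : (Fin g → Bool) × (Fin g → Bool), lw (l.drop (2 * g)) x = l := by
  obtain ⟨p, hp⟩ := fl_sur g (l.take g) (by rw [List.length_take]; omega)
  obtain ⟨q, hq⟩ := fl_sur g ((l.drop g).take g) (by rw [List.length_take, List.length_drop]; omega)
  refine ⟨(p, q), ?_⟩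
  unfold lw
  simp only
  rw [hp, hq, show 2 * g = g + g by ring, ← List.drop_drop, List.take_append_drop, List.take_append_drop]

/-- **anticoncentration on the words with `d` letters `3` and `e` letters `2`** -/
theorem anti_LL (d e r : ℕ) (hr : 0 < r) (hd : r ≤ d) (he : r ≤ e) (a L : ℝ) (hL : 0 ≤ L) :
    (((LL d e).filter fun l => a ≤ Real.log (zv (wl l)) ∧ Real.log (zv (wl l)) ≤ a + L).card : ℝ) ≤
      ((L / c8 + 1) * (30 / Real.sqrt r)) * (LL d e).card := by
  classical
  have hr0 : (0 : ℝ) < r := by exact_mod_cast hr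
  have hs : 0 < Real.sqrt r := Real.sqrt_pos.2 hr0
  have hc8 := c8_pos
  have hL1 : 1 ≤ L / c8 + 1 := by
    have : 0 ≤ L / c8 := by positivity
    linarith
  by_cases hbig : 14 ≤ r
  · set g : ℕ := (d + e) / 4 with hg
    set ρ : ℕ := (d + e) % 4 with hρ
    have hge : 4 * g + ρ = d + e := by omega
    have hρ3 : ρ ≤ 3 := by omega
    have hg7 : 7 ≤ g := by omega
    set E : Finset (List Bool) := (EL ρ).filter fun t => t.count true ≤ d ∧ t.count false ≤ e with hE
    set Sg : List Bool → Finset ((Fin (g + g) → Bool) × (Fin (g + g) → Bool)) := fun t =>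
      Sl (g + g) (e - t.count false) with hSg
    -- properties of the last letters
    have hEt : ∀ t ∈ E, t.length = ρ ∧ t.count true + t.count false = ρ := by
      intro t ht
      have h1 := (mem_EL _ _).1 (mem_filter.1 ht).1
      refine ⟨h1, ?_⟩
      rw [List.count_true_add_count_false, h1]
    have hcard : (∑ t ∈ E, (Sg t).card) ≤ (LL d e).card := by
      rw [← card_sigma]
      refine card_le_card_of_injOn (fun z => lw z.1 z.2) ?_ ?_
      · rintro ⟨t, x⟩ hz
        obtain ⟨ht, hx⟩ := mem_sigma.1 (mem_coe.1 hz)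
        simp only at ht hx
        rw [hSg, mem_Sl] at hx
        obtain ⟨h1, h2⟩ := hEt t ht
        obtain ⟨h3, h4⟩ := (mem_filter.1 ht).2
        rw [mem_coe, mem_LL]
        have h5 : (lw t x).count false = e := by
          rw [count_lw, hx]
          omega
        refine ⟨?_, h5⟩
        have h6 : (lw t x).count true + (lw t x).count false = (lw t x).length := by
          rw [List.count_true_add_count_false]
        rw [h5, lw_length, h1] at h6
        simp only
        omega
      · rintro ⟨t, x⟩ _ ⟨t', x'⟩ _ h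
        obtain ⟨h1, h2⟩ := lw_inj h
        subst h1
        subst h2
        rfl
    have hsub : ((LL d e).filter fun l => a ≤ Real.log (zv (wl l)) ∧ Real.log (zv (wl l)) ≤ a + L) ⊆
        E.biUnion fun t => ((Sg t).filter fun x => a ≤ Real.log (zv (wl (lw t x))) ∧
          Real.log (zv (wl (lw t x))) ≤ a + L).image fun x => lw t x := by
      intro l hl
      obtain ⟨h1, h2⟩ := mem_filter.1 hl
      obtain ⟨h3, h4⟩ := (mem_LL _ _ _).1 h1
      have h5 : l.count true + l.count false = l.length := by
        rw [List.count_true_add_count_false]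
      obtain ⟨x, hx⟩ := lw_sur (g + g) l (by omega)
      have h6 : (l.drop (2 * (g + g))).length = ρ := by
        rw [List.length_drop]
        omega
      have h7 := count_lw (l.drop (2 * (g + g))) x
      rw [hx, h4] at h7
      have h8 : (l.drop (2 * (g + g))).count true ≤ l.count true :=
        (List.drop_sublist _ _).count_le _
      have h9 : (l.drop (2 * (g + g))).count false ≤ l.count false :=
        (List.drop_sublist _ _).count_le _
      refine mem_biUnion.2 ⟨l.drop (2 * (g + g)), mem_filter.2 ⟨(mem_EL _ _).2 h6, by omega, by omega⟩, ?_⟩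
      refine mem_image.2 ⟨x, mem_filter.2 ⟨?_, ?_⟩, hx⟩
      · rw [hSg, mem_Sl]
        omega
      · rw [hx]
        exact h2
    have hterm : ∀ t ∈ E, (((Sg t).filter fun x => a ≤ Real.log (zv (wl (lw t x))) ∧
          Real.log (zv (wl (lw t x))) ≤ a + L).card : ℝ) ≤ (L / c8 + 1) * (30 / Real.sqrt r) * (Sg t).card := by
      intro t ht
      obtain ⟨h1, h2⟩ := hEt t ht
      set μ : ℕ := min (e - t.count false) (d - t.count true) with hμ
      have hμ1 : r ≤ 2 * μ := by omega
      have hμr : (r : ℝ) ≤ 2 * μ := by exact_mod_cast hμ1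
      have hμ0 : (0 : ℝ) < μ := by linarith
      have key := antiL (g := g) (d := e - t.count false) (μ := μ) hg7 t (by omega) (by omega) (by omega)
        (by omega) (by omega) a L hL
      refine key.trans ?_
      have h3 : 5 * Real.sqrt (18 / μ) ≤ 30 / Real.sqrt r := by
        have h4 : (30 : ℝ) / Real.sqrt r = 5 * Real.sqrt (36 / r) := by
          rw [Real.sqrt_div (by norm_num), show (36 : ℝ) = 6 ^ 2 by norm_num, Real.sqrt_sq (by norm_num)]
          ring
        rw [h4]
        refine mul_le_mul_of_nonneg_left (Real.sqrt_le_sqrt ?_) (by norm_num)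
        rw [div_le_div_iff₀ hμ0 hr0]
        linarith
      calc (L / c8 + 1) * (5 * ((Sg t).card * Real.sqrt (18 / μ)))
          = (L / c8 + 1) * (5 * Real.sqrt (18 / μ)) * (Sg t).card := by ring
        _ ≤ (L / c8 + 1) * (30 / Real.sqrt r) * (Sg t).card :=
            mul_le_mul_of_nonneg_right (mul_le_mul_of_nonneg_left h3 (by linarith)) (Nat.cast_nonneg _)
    have h1 := (card_le_card hsub).trans card_biUnion_le
    calc (((LL d e).filter fun l => a ≤ Real.log (zv (wl l)) ∧ Real.log (zv (wl l)) ≤ a + L).card : ℝ)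
        ≤ ((∑ t ∈ E, (((Sg t).filter fun x => a ≤ Real.log (zv (wl (lw t x))) ∧
          Real.log (zv (wl (lw t x))) ≤ a + L).image fun x => lw t x).card : ℕ) : ℝ) := by exact_mod_cast h1
      _ ≤ ∑ t ∈ E, (L / c8 + 1) * (30 / Real.sqrt r) * (Sg t).card := by
          push_cast
          refine sum_le_sum fun t ht => le_trans ?_ (hterm t ht)
          exact_mod_cast card_image_le
      _ = (L / c8 + 1) * (30 / Real.sqrt r) * ((∑ t ∈ E, (Sg t).card : ℕ) : ℝ) := by
          push_cast
          rw [mul_sum]
      _ ≤ _ := mul_le_mul_of_nonneg_left (by exact_mod_cast hcard) (by positivity)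
  · have h1 : (((LL d e).filter fun l => a ≤ Real.log (zv (wl l)) ∧ Real.log (zv (wl l)) ≤ a + L).card : ℝ) ≤
        (LL d e).card := by exact_mod_cast card_filter_le _ _
    refine h1.trans ?_
    have h2 : Real.sqrt r ≤ 30 := by
      rw [Real.sqrt_le_left (by norm_num)]
      have : (r : ℝ) ≤ 14 := by exact_mod_cast (by omega : r ≤ 14)
      linarith
    have h3 : 1 ≤ 30 / Real.sqrt r := by
      rw [le_div_iff₀ hs]
      linarith
    have h4 : 1 ≤ (L / c8 + 1) * (30 / Real.sqrt r) := by nlinarith
    calc ((LL d e).card : ℝ) = 1 * (LL d e).card := (one_mul _).symm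
      _ ≤ _ := mul_le_mul_of_nonneg_right h4 (Nat.cast_nonneg _)

end Pool.Agent.K7.H78.MZ
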