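import Mathlib

/-!
# Separated monomials
-/

set_option autoImplicit false

namespace Pool.Agent.K7.H78.MZ

open Finset

/-- one coordinate of a product -/
theorem dep_count {m : ℕ} {Y : Type} [DecidableEq Y] (S : Fin m → Finset Y) (f : Y → ℝ) (lam β : ℝ)
    (j : Fin m) (G : (Fin m → Y) → ℝ) (hG : ∀ x y, G (Function.update x j y) = G x)
    (h : ∀ c : ℝ, (((S j).filter fun y => |f y - c| ≤ lam).card : ℝ) ≤ β * (S j).card) :
    (((Fintype.piFinset S).filter fun x => |f (x j) - G x| ≤ lam).card : ℝ) ≤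
      β * (Fintype.piFinset S).card := by
  classical
  rcases (S j).eq_empty_or_nonempty with h0 | h0
  · have h1 : Fintype.piFinset S = ∅ := by
      rw [Finset.eq_empty_iff_forall_notMem]
      intro x hx
      have := Fintype.mem_piFinset.1 hx j
      rw [h0] at this
      exact absurd this (notMem_empty _)
    rw [h1]
    simp
  · have hpos : (0 : ℝ) < (S j).card := by exact_mod_cast card_pos.2 h0
    set T : Finset (Fin m → Y) := Fintype.piFinset S with hT
    have h1 : (T.filter fun x => |f (x j) - G x| ≤ lam).card * (S j).card =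
        ∑ x ∈ T, ((S j).filter fun y => |f y - G x| ≤ lam).card := by
      rw [← card_product, ← card_sigma]
      refine card_bij' (fun z _ => (⟨Function.update z.1 j z.2, z.1 j⟩ : Σ _ : Fin m → Y, Y))
        (fun z _ => (Function.update z.1 j z.2, z.1 j)) ?_ ?_ ?_ ?_
      · rintro ⟨x, y⟩ hz
        rw [mem_product, mem_filter] at hz
        obtain ⟨⟨hx, hx2⟩, hy⟩ := hz
        rw [mem_sigma, mem_filter]
        refine ⟨Fintype.mem_piFinset.2 fun i => ?_, Fintype.mem_piFinset.1 hx j, ?_⟩
        · rcases eq_or_ne i j with rfl | hij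
          · simpa using hy
          · simpa [Function.update_of_ne hij] using Fintype.mem_piFinset.1 hx i
        · simpa [hG] using hx2
      · rintro ⟨x, y⟩ hz
        rw [mem_sigma, mem_filter] at hz
        obtain ⟨hx, hy, hy2⟩ := hz
        rw [mem_product, mem_filter]
        refine ⟨⟨Fintype.mem_piFinset.2 fun i => ?_, ?_⟩, Fintype.mem_piFinset.1 hx j⟩
        · rcases eq_or_ne i j with rfl | hij
          · simpa using hy
          · simpa [Function.update_of_ne hij] using Fintype.mem_piFinset.1 hx i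
        · simpa [hG] using hy2
      · rintro ⟨x, y⟩ _
        simp
      · rintro ⟨x, y⟩ _
        simp
    have h2 : (∑ x ∈ T, (((S j).filter fun y => |f y - G x| ≤ lam).card : ℝ)) ≤
        ∑ _x ∈ T, β * (S j).card := sum_le_sum fun x _ => h _
    rw [sum_const, nsmul_eq_mul] at h2
    have h3 : ((T.filter fun x => |f (x j) - G x| ≤ lam).card : ℝ) * (S j).card ≤
        (β * T.card) * (S j).card := by
      have h4 : ((T.filter fun x => |f (x j) - G x| ≤ lam).card : ℝ) * (S j).card =
          ∑ x ∈ T, (((S j).filter fun y => |f y - G x| ≤ lam).card : ℝ) := by exact_mod_cast h1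
      rw [h4]
      refine h2.trans (le_of_eq ?_)
      ring
    exact le_of_mul_le_mul_right h3 hpos

/-- one integer combination -/
theorem comb_count {m : ℕ} {Y : Type} [DecidableEq Y] (S : Fin m → Finset Y) (F : Fin m → Y → ℝ) (lam β : ℝ)
    (δ : Fin m → ℤ) (j : Fin m) (hj : δ j ≠ 0)
    (h : ∀ c : ℝ, (((S j).filter fun y => |F j y - c| ≤ lam).card : ℝ) ≤ β * (S j).card) :
    (((Fintype.piFinset S).filter fun x => |∑ i, (δ i : ℝ) * F i (x i)| ≤ lam).card : ℝ) ≤
      β * (Fintype.piFinset S).card := by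
  classical
  set G : (Fin m → Y) → ℝ := fun x => -(∑ i ∈ univ.erase j, (δ i : ℝ) * F i (x i)) / (δ j : ℝ) with hG
  have hδ : (1 : ℝ) ≤ |(δ j : ℝ)| := by
    have h2 : 1 ≤ |δ j| := Int.one_le_abs hj
    exact_mod_cast h2
  have hδ0 : (δ j : ℝ) ≠ 0 := by exact_mod_cast hj
  have h1 := dep_count S (F j) lam β j G (fun x y => by
    rw [hG]
    simp only
    congr 2
    refine sum_congr rfl fun i hi => ?_
    rw [Function.update_of_ne (ne_of_mem_erase hi)]) h
  refine le_trans ?_ h1
  have h2 : ((Fintype.piFinset S).filter fun x => |∑ i, (δ i : ℝ) * F i (x i)| ≤ lam) ⊆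
      (Fintype.piFinset S).filter fun x => |F j (x j) - G x| ≤ lam := by
    intro x hx
    obtain ⟨h3, h4⟩ := mem_filter.1 hx
    refine mem_filter.2 ⟨h3, ?_⟩
    have h5 : ∑ i, (δ i : ℝ) * F i (x i) = (δ j : ℝ) * (F j (x j) - G x) := by
      rw [← add_sum_erase _ _ (mem_univ j), hG]
      field_simp
      ring
    rw [h5, abs_mul] at h4
    have h6 : |F j (x j) - G x| ≤ |(δ j : ℝ)| * |F j (x j) - G x| := by
      nlinarith [abs_nonneg (F j (x j) - G x)]
    linarith
  exact_mod_cast card_le_card h2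

/-- all pairs of exponents -/
theorem poly_count {m : ℕ} {Y : Type} [DecidableEq Y] (S : Fin m → Finset Y) (F : Fin m → Y → ℝ) (lam β : ℝ)
    (E : Finset (Fin m → ℕ))
    (h : ∀ j, ∀ c : ℝ, (((S j).filter fun y => |F j y - c| ≤ lam).card : ℝ) ≤ β * (S j).card) (hβ : 0 ≤ β) :
    (((Fintype.piFinset S).filter fun x => ∃ a ∈ E, ∃ b ∈ E, a ≠ b ∧
      |∑ i, ((a i : ℤ) - (b i : ℤ) : ℤ) * F i (x i)| ≤ lam).card : ℝ) ≤
      (E.card : ℝ) ^ 2 * β * (Fintype.piFinset S).card := by
  classical
  have h1 : ((Fintype.piFinset S).filter fun x => ∃ a ∈ E, ∃ b ∈ E, a ≠ b ∧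
      |∑ i, ((a i : ℤ) - (b i : ℤ) : ℤ) * F i (x i)| ≤ lam) ⊆
      (E ×ˢ E).biUnion fun z => if z.1 ≠ z.2 then
        (Fintype.piFinset S).filter fun x => |∑ i, ((z.1 i : ℤ) - (z.2 i : ℤ) : ℤ) * F i (x i)| ≤ lam else ∅ := by
    intro x hx
    obtain ⟨hx1, a, ha, b, hb, hab, hx2⟩ := mem_filter.1 hx
    refine mem_biUnion.2 ⟨(a, b), mem_product.2 ⟨ha, hb⟩, ?_⟩
    rw [if_pos hab]
    exact mem_filter.2 ⟨hx1, hx2⟩
  have h2 := (card_le_card h1).trans card_biUnion_le
  calc _ ≤ ((∑ z ∈ E ×ˢ E, (if z.1 ≠ z.2 then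
        (Fintype.piFinset S).filter fun x => |∑ i, ((z.1 i : ℤ) - (z.2 i : ℤ) : ℤ) * F i (x i)| ≤ lam
        else ∅).card : ℕ) : ℝ) := by
        exact_mod_cast h2
    _ ≤ ∑ _z ∈ E ×ˢ E, β * (Fintype.piFinset S).card := by
        push_cast
        refine sum_le_sum fun z _ => ?_
        split_ifs with hz
        · obtain ⟨j, hj⟩ := Function.ne_iff.1 hz
          have h3 := comb_count S F lam β (fun i => (z.1 i : ℤ) - (z.2 i : ℤ)) j
            (by
              intro h0
              apply hj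
              have : (z.1 j : ℤ) = (z.2 j : ℤ) := by linarith
              exact_mod_cast this) (h j)
          refine le_trans (le_of_eq ?_) h3
          push_cast
          rfl
        · simp only [card_empty, Nat.cast_zero]
          positivity
    _ = (E.card : ℝ) ^ 2 * β * (Fintype.piFinset S).card := by
        rw [sum_const, card_product, nsmul_eq_mul]
        push_cast
        ring

/-- separated values satisfy no small relation -/
theorem dominateE {α : Type} [DecidableEq α] (E : Finset α) (z : α → ℝ) (hz : ∀ a ∈ E, 0 < z a) (B : ℝ) (hB : 1 ≤ B)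
    (hsep : ∀ a ∈ E, ∀ b ∈ E, a ≠ b → Real.log (E.card * B) < |Real.log (z a) - Real.log (z b)|) (c : α → ℝ)
    (hc : ∀ a ∈ E, c a = 0 ∨ (1 ≤ |c a| ∧ |c a| ≤ B)) (j : α) (hjE : j ∈ E) (hj : c j ≠ 0) :
    z j ≤ E.card * |∑ i ∈ E, c i * z i| := by
  classical
  have hm : (0 : ℝ) < E.card := by exact_mod_cast card_pos.2 ⟨j, hjE⟩
  set T : Finset α := E.filter fun i => c i ≠ 0 with hT
  obtain ⟨k, hk, hmax⟩ := exists_max_image T z ⟨j, mem_filter.2 ⟨hjE, hj⟩⟩
  obtain ⟨hkE, hk0⟩ := mem_filter.1 hk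
  have hzk := hz k hkE
  have hck : 1 ≤ |c k| := by
    rcases hc k hkE with h | h
    · exact absurd h hk0
    · exact h.1
  have hsum : ∑ i ∈ E, c i * z i = c k * z k + ∑ i ∈ E.erase k, c i * z i :=
    (add_sum_erase _ _ hkE).symm
  have hoth : ∀ i ∈ E.erase k, |c i * z i| ≤ z k / E.card := by
    intro i hi
    have hiE := mem_of_mem_erase hi
    by_cases hci : c i = 0
    · rw [hci, zero_mul, abs_zero]
      positivity
    · have hiT : i ∈ T := mem_filter.2 ⟨hiE, hci⟩
      have h1 := hmax i hiT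
      have h2 := hsep k hkE i hiE (Ne.symm (ne_of_mem_erase hi))
      have hzi := hz i hiE
      have h3 : Real.log (z i) ≤ Real.log (z k) := Real.log_le_log hzi h1
      rw [abs_of_nonneg (by linarith)] at h2
      have hmB : 0 < E.card * B := by positivity
      have h4 : Real.log (E.card * B * z i) < Real.log (z k) := by
        rw [Real.log_mul hmB.ne' hzi.ne']
        linarith
      have h5 : E.card * B * z i < z k := (Real.log_lt_log_iff (mul_pos hmB hzi) hzk).1 h4
      have hcB : |c i| ≤ B := by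
        rcases hc i hiE with h | h
        · exact absurd h hci
        · exact h.2
      rw [abs_mul, abs_of_pos hzi, le_div_iff₀ hm]
      calc |c i| * z i * E.card ≤ B * z i * E.card := by
            refine mul_le_mul_of_nonneg_right (mul_le_mul_of_nonneg_right hcB hzi.le) hm.le
        _ ≤ z k := by linarith
  have h1 : |∑ i ∈ E.erase k, c i * z i| ≤ (E.card - 1) * (z k / E.card) := by
    refine (abs_sum_le_sum_abs _ _).trans ((sum_le_sum hoth).trans ?_)
    rw [sum_const, card_erase_of_mem hkE, nsmul_eq_mul]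
    refine mul_le_mul_of_nonneg_right ?_ (by positivity)
    rw [Nat.cast_sub (card_pos.2 ⟨k, hkE⟩)]
    push_cast
    exact le_rfl
  have h2 : z k ≤ |c k * z k| := by
    rw [abs_mul, abs_of_pos hzk]
    nlinarith
  have h3 : |c k * z k| - |∑ i ∈ E.erase k, c i * z i| ≤ |∑ i ∈ E, c i * z i| := by
    rw [hsum]
    have := abs_sub_abs_le_abs_sub (c k * z k) (-∑ i ∈ E.erase k, c i * z i)
    rwa [abs_neg, sub_neg_eq_add] at this
  have h4 : z k / E.card ≤ |∑ i ∈ E, c i * z i| := by
    have h5 : (E.card - 1) * (z k / E.card) = z k - z k / E.card := by field_simp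
    rw [h5] at h1
    linarith
  have h5 := hmax j (mem_filter.2 ⟨hjE, hj⟩)
  rw [div_le_iff₀ hm] at h4
  linarith

end Pool.Agent.K7.H78.MZ
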