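import Pool.Agent.K7.H78.MZ.Int

/-!
# Moving a letter far away changes the multiple zeta value by a constant factor
-/

set_option autoImplicit false

namespace Pool.Agent.K7.H78.MZ

open MeasureTheory Set Filter Topology
open scoped ENNReal

/-- `e ^ k` as an extended real -/
noncomputable def ex (x : ℝ) : ℝ≥0∞ := ENNReal.ofReal (Real.exp x)

lemma ex_add (x y : ℝ) : ex (x + y) = ex x * ex y := by
  rw [ex, ex, ex, Real.exp_add, ENNReal.ofReal_mul (Real.exp_pos _).le]

lemma wt_le1 (b : Bool) (r s : ℝ) (h : |r - s| ≤ 1) : wt b r ≤ ex 1 * wt b s := wt_le b r s 1 h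

lemma lint_Ioi_add (g : ℝ → ℝ≥0∞) (r : ℝ) : ∫⁻ ρ in Ioi r, g (ρ + 1) = ∫⁻ ρ in Ioi (r + 1), g ρ := by
  rw [← lintegral_indicator measurableSet_Ioi, ← lintegral_indicator measurableSet_Ioi,
    ← lintegral_add_right_eq_self (fun ρ => (Ioi (r + 1)).indicator g ρ) (1 : ℝ)]
  refine lintegral_congr fun ρ => ?_
  simp only [Set.indicator, Set.mem_Ioi, add_lt_add_iff_right]

lemma lint_Iio_sub (g : ℝ → ℝ≥0∞) (r : ℝ) : ∫⁻ ρ in Iio r, g (ρ - 1) = ∫⁻ ρ in Iio (r - 1), g ρ := by
  rw [← lintegral_indicator measurableSet_Iio, ← lintegral_indicator measurableSet_Iio,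
    ← lintegral_sub_right_eq_self (fun ρ => (Iio (r - 1)).indicator g ρ) (1 : ℝ)]
  refine lintegral_congr fun ρ => ?_
  simp only [Set.indicator, Set.mem_Iio, sub_lt_sub_iff_right]

lemma Bt_shift (w : List Bool) : ∀ r, Bt w r ≤ ex w.length * Bt w (r + 1) := by
  induction w with
  | nil =>
    intro r
    simp [Bt, ex]
  | cons a w ih =>
    intro r
    rw [Bt_cons, Bt_cons, ← lint_Ioi_add (fun ρ => wt a ρ * Bt w ρ), ← lintegral_const_mul']
    · refine lintegral_mono fun ρ => ?_
      have h1 := wt_le1 a ρ (ρ + 1) (by rw [show ρ - (ρ + 1) = -1 by ring]; norm_num)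
      have h2 := ih ρ
      calc wt a ρ * Bt w ρ ≤ (ex 1 * wt a (ρ + 1)) * (ex w.length * Bt w (ρ + 1)) := mul_le_mul' h1 h2
        _ = ex (a :: w).length * (wt a (ρ + 1) * Bt w (ρ + 1)) := by
          rw [List.length_cons, Nat.cast_add, Nat.cast_one, ex_add]
          ring
    · exact ENNReal.ofReal_ne_top

lemma Tp_shift (w : List Bool) : ∀ r, Tp w r ≤ ex w.length * Tp w (r - 1) := by
  induction w with
  | nil =>
    intro r
    simp [Tp, ex]
  | cons a w ih =>
    intro r
    rw [Tp_cons, Tp_cons, ← lint_Iio_sub (fun ρ => wt a ρ * Tp w ρ), ← lintegral_const_mul']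
    · refine lintegral_mono fun ρ => ?_
      have h1 := wt_le1 a ρ (ρ - 1) (by rw [show ρ - (ρ - 1) = 1 by ring]; norm_num)
      have h2 := ih ρ
      calc wt a ρ * Tp w ρ ≤ (ex 1 * wt a (ρ - 1)) * (ex w.length * Tp w (ρ - 1)) := mul_le_mul' h1 h2
        _ = ex (a :: w).length * (wt a (ρ - 1) * Tp w (ρ - 1)) := by
          rw [List.length_cons, Nat.cast_add, Nat.cast_one, ex_add]
          ring
    · exact ENNReal.ofReal_ne_top

/-- stretching -/
lemma Md_affine (lam c s : ℝ) (hl : 0 < lam) (V : List Bool) :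
    ∀ r, r ≤ s → (∀ ρ ∈ Icc r s, |ρ - (lam * ρ + c)| ≤ 1) →
      Md V r s ≤ (ex 1 / ENNReal.ofReal lam) ^ V.length * Md V (lam * r + c) (lam * s + c) := by
  have hl0 : ENNReal.ofReal lam ≠ 0 := by
    rw [Ne, ENNReal.ofReal_eq_zero, not_le]
    exact hl
  have hlt : ENNReal.ofReal lam ≠ ⊤ := ENNReal.ofReal_ne_top
  induction V with
  | nil =>
    intro r _ _
    simp [Md]
  | cons v V ih =>
    intro r hrs h
    rw [Md_cons, Md_cons]
    have himg : Ioo (lam * r + c) (lam * s + c) = (fun x => lam * x + c) '' Ioo r s :=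
      (image_affine_Ioo hl c r s).symm
    rw [himg, lintegral_image_eq_lintegral_abs_deriv_mul measurableSet_Ioo (f' := fun _ => lam)
      (fun x _ => by
        have := ((hasDerivAt_id x).const_mul lam).add_const c
        simpa using this.hasDerivWithinAt)
      (fun x _ y _ hxy => by
        have : lam * x = lam * y := by simpa using hxy
        exact mul_left_cancel₀ hl.ne' this), abs_of_pos hl, ← lintegral_const_mul']
    · refine setLIntegral_mono' measurableSet_Ioo fun ρ hρ => ?_
      have h1 := wt_le1 v ρ (lam * ρ + c) (h ρ ⟨hρ.1.le, hρ.2.le⟩)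
      have h2 := ih ρ hρ.2.le fun σ hσ => h σ ⟨hρ.1.le.trans hσ.1, hσ.2⟩
      calc wt v ρ * Md V ρ s ≤ (ex 1 * wt v (lam * ρ + c)) *
            ((ex 1 / ENNReal.ofReal lam) ^ V.length * Md V (lam * ρ + c) (lam * s + c)) :=
            mul_le_mul' h1 h2
        _ = (ex 1 / ENNReal.ofReal lam) ^ (v :: V).length * (ENNReal.ofReal lam *
            (wt v (lam * ρ + c) * Md V (lam * ρ + c) (lam * s + c))) := by
          rw [List.length_cons, pow_succ]
          have h3 : ex 1 / ENNReal.ofReal lam * ENNReal.ofReal lam = ex 1 :=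
            ENNReal.div_mul_cancel hl0 hlt
          calc _ = (ex 1 / ENNReal.ofReal lam) ^ V.length * ex 1 *
              (wt v (lam * ρ + c) * Md V (lam * ρ + c) (lam * s + c)) := by ring
            _ = (ex 1 / ENNReal.ofReal lam) ^ V.length * (ex 1 / ENNReal.ofReal lam * ENNReal.ofReal lam) *
              (wt v (lam * ρ + c) * Md V (lam * ρ + c) (lam * s + c)) := by rw [h3]
            _ = _ := by ring
    · refine ENNReal.pow_ne_top ?_
      rw [div_eq_mul_inv]
      exact ENNReal.mul_ne_top ENNReal.ofReal_ne_top (ENNReal.inv_ne_top.2 hl0)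

/-- the factor for one letter -/
noncomputable def kap (δ : ℝ) : ℝ≥0∞ := ENNReal.ofReal (Real.exp 1 * (δ / (δ + 2)))

lemma Md_stretch (δ : ℝ) (V : List Bool) (r s : ℝ) (h0 : r < s) (h1 : s ≤ r + δ) :
    Md V r s ≤ kap δ ^ V.length * Md V (r - 1) (s + 1) := by
  set ℓ : ℝ := s - r with hℓ
  have hℓ0 : 0 < ℓ := by linarith
  have hδ : ℓ ≤ δ := by linarith
  set lam : ℝ := (ℓ + 2) / ℓ with hlam
  have hl : 0 < lam := by positivity
  set c : ℝ := (r - 1) - lam * r with hc
  have e1 : lam * r + c = r - 1 := by rw [hc]; ring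
  have e2 : lam * s + c = s + 1 := by
    have : lam * ℓ = ℓ + 2 := by rw [hlam]; field_simp
    have h3 : lam * s = lam * r + lam * ℓ := by rw [hℓ]; ring
    rw [hc, h3, this, hℓ]
    ring
  have h2 := Md_affine lam c s hl V r h0.le fun ρ hρ => by
    -- |ρ - (lam ρ + c)| ≤ 1, linear in ρ
    have e3 : lam * ρ + c - ρ = -1 + (ρ - r) * (2 / ℓ) := by
      have h4 : lam = 1 + 2 / ℓ := by rw [hlam]; field_simp
      rw [hc, h4]
      ring
    have h5 : 0 ≤ (ρ - r) * (2 / ℓ) := mul_nonneg (by linarith [hρ.1]) (by positivity)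
    have h6 : (ρ - r) * (2 / ℓ) ≤ 2 := by
      have : (ρ - r) ≤ ℓ := by linarith [hρ.2]
      calc (ρ - r) * (2 / ℓ) ≤ ℓ * (2 / ℓ) := mul_le_mul_of_nonneg_right this (by positivity)
        _ = 2 := by field_simp
    rw [abs_sub_comm, e3, abs_le]
    constructor <;> linarith
  rw [e1, e2] at h2
  refine h2.trans (mul_le_mul_left ?_ _)
  refine pow_le_pow_left' ?_ _
  rw [ex, ← ENNReal.ofReal_div_of_pos hl, kap]
  refine ENNReal.ofReal_le_ofReal ?_
  rw [div_eq_mul_inv]
  refine mul_le_mul_of_nonneg_left ?_ (Real.exp_pos _).le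
  rw [hlam, inv_div, div_le_div_iff₀ (by linarith) (by linarith)]
  nlinarith

lemma kap_lt_top (δ : ℝ) : kap δ ≠ ⊤ := ENNReal.ofReal_ne_top
lemma ex_ne_top (x : ℝ) : ex x ≠ ⊤ := ENNReal.ofReal_ne_top

/-- the part of the integral where the two letters are near to each other is small -/
lemma spread (δ : ℝ) (u V w : List Bool) (a b : Bool) :
    ∫⁻ r, ∫⁻ s in Ioc r (r + δ), (Tp u r * Md V r s * Bt w s) * (wt a r * wt b s) ≤
      (ex (u.length + w.length + 2) * kap δ ^ V.length) *
        ∫⁻ r, ∫⁻ s in Ioi r, (Tp u r * Md V r s * Bt w s) * (wt a r * wt b s) := by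
  set ε : ℝ≥0∞ := ex (u.length + w.length + 2) * kap δ ^ V.length with hε
  have hε1 : ε ≠ ⊤ := ENNReal.mul_ne_top (ex_ne_top _) (ENNReal.pow_ne_top (kap_lt_top _))
  set Q : ℝ → ℝ → ℝ≥0∞ := fun r s => (Tp u r * Md V r s * Bt w s) * (wt a r * wt b s) with hQ
  have hpt : ∀ r s, r < s → s ≤ r + δ → Q r s ≤ ε * Q (r - 1) (s + 1) := by
    intro r s h1 h2
    have e1 := Tp_shift u r
    have e2 := Md_stretch δ V r s h1 h2
    have e3 := Bt_shift w s
    have e4 := wt_le1 a r (r - 1) (by rw [show r - (r - 1) = 1 by ring]; norm_num)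
    have e5 := wt_le1 b s (s + 1) (by rw [show s - (s + 1) = -1 by ring]; norm_num)
    calc Q r s ≤ ((ex u.length * Tp u (r - 1)) * (kap δ ^ V.length * Md V (r - 1) (s + 1)) *
          (ex w.length * Bt w (s + 1))) * ((ex 1 * wt a (r - 1)) * (ex 1 * wt b (s + 1))) :=
          mul_le_mul' (mul_le_mul' (mul_le_mul' e1 e2) e3) (mul_le_mul' e4 e5)
      _ = ε * Q (r - 1) (s + 1) := by
          have h3 : ex (u.length + w.length + 2) = ex u.length * ex w.length * (ex 1 * ex 1) := by
            rw [show (u.length : ℝ) + w.length + 2 = (u.length + w.length) + (1 + 1) by ring, ex_add,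
              ex_add, ex_add]
          rw [hε, h3, hQ]
          ring
  calc ∫⁻ r, ∫⁻ s in Ioc r (r + δ), Q r s
      ≤ ∫⁻ r, ∫⁻ s in Ioc r (r + δ), ε * Q (r - 1) (s + 1) :=
        lintegral_mono fun r => setLIntegral_mono' measurableSet_Ioc fun s hs => hpt r s hs.1 hs.2
    _ ≤ ∫⁻ r, ε * ∫⁻ s in Ioi (r - 1), Q (r - 1) s := by
        refine lintegral_mono fun r => ?_
        rw [lintegral_const_mul' _ _ hε1]
        refine mul_le_mul_right ?_ _
        calc ∫⁻ s in Ioc r (r + δ), Q (r - 1) (s + 1)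
            ≤ ∫⁻ s in Ioi r, Q (r - 1) (s + 1) := lintegral_mono_set fun s hs => hs.1
          _ = ∫⁻ s in Ioi (r + 1), Q (r - 1) s := lint_Ioi_add (Q (r - 1)) r
          _ ≤ ∫⁻ s in Ioi (r - 1), Q (r - 1) s := lintegral_mono_set (Ioi_subset_Ioi (by linarith))
    _ = ε * ∫⁻ r, ∫⁻ s in Ioi r, Q r s := by
        rw [lintegral_const_mul' _ _ hε1,
          lintegral_sub_right_eq_self (fun r => ∫⁻ s in Ioi r, Q r s) (1 : ℝ)]

/-- **the swap lemma** -/
theorem swap (δ : ℝ) (hδ : 0 ≤ δ) (u V w : List Bool) :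
    Zt (u.reverse ++ false :: (V ++ true :: w)) ≤
      (ex (-δ) + ex (u.length + w.length + 2) * kap δ ^ V.length) *
        Zt (u.reverse ++ true :: (V ++ false :: w)) := by
  rw [Zt_two, Zt_two]
  set P : ℝ → ℝ → ℝ≥0∞ := fun r s => Tp u r * Md V r s * Bt w s with hP
  have h1 : ∀ r, ∫⁻ s in Ioi r, P r s * (wt false r * wt true s) ≤
      (∫⁻ s in Ioc r (r + δ), P r s * (wt true r * wt false s)) +
        ex (-δ) * ∫⁻ s in Ioi r, P r s * (wt true r * wt false s) := by
    intro r
    have hu : Ioi r = Ioc r (r + δ) ∪ Ioi (r + δ) := (Ioc_union_Ioi_eq_Ioi (by linarith)).symm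
    have h2 : ∫⁻ s in Ioi r, P r s * (wt false r * wt true s) ≤
        (∫⁻ s in Ioc r (r + δ), P r s * (wt false r * wt true s)) +
          ∫⁻ s in Ioi (r + δ), P r s * (wt false r * wt true s) := by
      rw [hu]
      exact lintegral_union_le _ _ _
    refine h2.trans (add_le_add ?_ ?_)
    · refine setLIntegral_mono' measurableSet_Ioc fun s hs => ?_
      refine mul_le_mul_right ?_ _
      rw [wt_swap]
      have : ENNReal.ofReal (Real.exp (-(s - r))) ≤ 1 := by
        rw [ENNReal.ofReal_le_one]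
        exact Real.exp_le_one_iff.2 (by linarith [hs.1])
      calc _ ≤ 1 * (wt true r * wt false s) := mul_le_mul_left this _
        _ = _ := one_mul _
    · rw [← lintegral_const_mul' _ _ (ex_ne_top _)]
      refine (setLIntegral_mono' measurableSet_Ioi fun s hs => ?_).trans
        (lintegral_mono_set (Ioi_subset_Ioi (by linarith : r ≤ r + δ)))
      rw [wt_swap]
      have : ENNReal.ofReal (Real.exp (-(s - r))) ≤ ex (-δ) := by
        refine ENNReal.ofReal_le_ofReal (Real.exp_le_exp.2 ?_)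
        have : r + δ < s := hs
        linarith
      calc P r s * (ENNReal.ofReal (Real.exp (-(s - r))) * (wt true r * wt false s))
          ≤ P r s * (ex (-δ) * (wt true r * wt false s)) := mul_le_mul_right (mul_le_mul_left this _) _
        _ = _ := by ring
  refine (lintegral_mono h1).trans ?_
  have hm : Measurable fun r : ℝ => ex (-δ) * ∫⁻ s in Ioi r, P r s * (wt true r * wt false s) := by
    refine Measurable.const_mul ?_ _
    have e1 : (fun r : ℝ => ∫⁻ s in Ioi r, P r s * (wt true r * wt false s)) = fun r : ℝ =>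
        ∫⁻ s, {q : ℝ × ℝ | q.1 < q.2}.indicator (fun q => P q.1 q.2 * (wt true q.1 * wt false q.2))
          (r, s) := by
      funext r
      rw [← lintegral_indicator measurableSet_Ioi]
      refine lintegral_congr fun s => ?_
      simp only [Set.indicator, Set.mem_Ioi, Set.mem_ofPred_eq]
    rw [e1]
    refine Measurable.lintegral_prod_right ?_
    refine Measurable.indicator ?_ (measurableSet_lt measurable_fst measurable_snd)
    exact ((((Tp_meas u).comp measurable_fst).mul (Md_meas V)).mul ((Bt_meas w).comp measurable_snd)).mul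
      (((wt_meas true).comp measurable_fst).mul ((wt_meas false).comp measurable_snd))
  rw [lintegral_add_right _ hm, lintegral_const_mul' _ _ (ex_ne_top _), add_mul, add_comm]
  exact add_le_add le_rfl (spread δ u V w true false)

end Pool.Agent.K7.H78.MZ
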