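import Pool.Agent.K7.H78.MZ.All

/-!
# Almost all tuples of words have well separated values
-/

set_option autoImplicit false

namespace Pool.Agent.K7.H78.MZ

open Finset

/-- the word `x m y` -/
def wm {n : ℕ} (m : Fin n → Bool) : List Bool := false :: (List.ofFn m ++ [true])

lemma wm_inj {n : ℕ} : Function.Injective (wm (n := n)) := by
  intro a b h
  unfold wm at h
  have h1 := (List.cons.inj h).2
  have h2 := List.append_cancel_right h1
  exact List.ofFn_injective h2

/-- the admissible words of length `p` -/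
def Wf : ℕ → Finset (List Bool)
  | 0 => {[]}
  | 1 => ∅
  | n + 2 => univ.image (wm (n := n))

lemma card_Wf (n : ℕ) : (Wf (n + 2)).card = 2 ^ n := by
  rw [Wf, card_image_of_injective _ wm_inj, card_univ, Fintype.card_fun, Fintype.card_fin, Fintype.card_bool]

lemma mem_Wf (p : ℕ) (w : List Bool) : w ∈ Wf p ↔ w.length = p ∧ AdmW w := by
  match p with
  | 0 =>
    rw [Wf, mem_singleton, List.length_eq_zero_iff]
    constructor
    · rintro rfl
      exact ⟨rfl, Or.inl rfl⟩
    · exact fun h => h.1
  | 1 =>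
    rw [Wf]
    constructor
    · intro h
      exact absurd h (notMem_empty _)
    · rintro ⟨h1, h2⟩
      obtain ⟨a, rfl⟩ := List.length_eq_one_iff.1 h1
      rcases h2 with h2 | ⟨h2, h3⟩
      · exact absurd h2 (List.cons_ne_nil _ _)
      · simp at h2 h3
        rw [h2] at h3
        exact absurd h3 (by decide)
  | n + 2 =>
    rw [Wf, mem_image]
    constructor
    · rintro ⟨m, -, rfl⟩
      refine ⟨by simp [wm], AdmW_mk _⟩
    · rintro ⟨h1, h2⟩
      rcases h2 with rfl | ⟨h2, h3⟩
      · simp at h1
      · obtain ⟨a, w, rfl⟩ : ∃ a w', w = a :: w' := by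
          cases w with
          | nil => simp at h1
          | cons a w' => exact ⟨a, w', rfl⟩
        rw [List.head?_cons, Option.some.injEq] at h2
        subst h2
        have hne : w ≠ [] := by
          rintro rfl
          simp at h1
        obtain ⟨l, hl, rfl⟩ : ∃ l : List Bool, l.length = n ∧ w = l ++ [true] := by
          refine ⟨w.dropLast, ?_, ?_⟩
          · rw [List.length_dropLast]
            rw [List.length_cons] at h1
            omega
          · have h4 : w.getLast? = some true := by
              cases w with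
              | nil => exact absurd rfl hne
              | cons b w' => rwa [List.getLast?_cons_cons] at h3
            rw [List.getLast?_eq_some_getLast hne, Option.some.injEq] at h4
            rw [← h4]
            exact (List.dropLast_append_getLast hne).symm
        subst hl
        refine ⟨fun i => l[(i : ℕ)], mem_univ _, ?_⟩
        rw [wm]
        congr 2
        apply List.ext_getElem
        · simp
        · intro k h7 h8
          simp

/-- the values of random words are not concentrated -/
theorem anti_Wf (p : ℕ) (hp : 2 ≤ p) (a L : ℝ) (hL : 0 ≤ L) :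
    (((Wf p).filter fun w => a ≤ Real.log (zv w) ∧ Real.log (zv w) ≤ a + L).card : ℝ) ≤
      (6000 * L + 1) * (4 / Real.sqrt p) * (Wf p).card := by
  have hp0 : (0 : ℝ) < p := by positivity
  have hs : (0 : ℝ) < Real.sqrt p := Real.sqrt_pos.2 hp0
  rcases Nat.lt_or_ge p 11 with h11 | h11
  · have h1 : (((Wf p).filter fun w => a ≤ Real.log (zv w) ∧ Real.log (zv w) ≤ a + L).card : ℝ) ≤
        (Wf p).card := by exact_mod_cast card_filter_le _ _
    refine h1.trans ?_
    have h2 : 1 ≤ (6000 * L + 1) * (4 / Real.sqrt p) := by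
      have h3 : Real.sqrt p ≤ 4 := by
        rw [Real.sqrt_le_left (by norm_num)]
        have : (p : ℝ) ≤ 16 := by exact_mod_cast (by omega : p ≤ 16)
        linarith
      have h4 : 1 ≤ 4 / Real.sqrt p := by rwa [le_div_iff₀ hs, one_mul]
      nlinarith
    calc ((Wf p).card : ℝ) = 1 * (Wf p).card := (one_mul _).symm
      _ ≤ _ := mul_le_mul_of_nonneg_right h2 (Nat.cast_nonneg _)
  · obtain ⟨n, rfl⟩ : ∃ n, p = n + 2 := ⟨p - 2, by omega⟩
    set h : ℕ := n / 2 with hh
    set e : ℕ := n % 2 with he
    have hn : n = h + (h + e) := by omega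
    have hh4 : 4 ≤ h := by omega
    have hlt : e < 2 := Nat.mod_lt _ (by norm_num)
    set P : List Bool → Prop := fun w => a ≤ Real.log (zv w) ∧ Real.log (zv w) ≤ a + L with hP
    -- decomposition
    have h1 : (Wf (n + 2)).filter P ⊆ (univ : Finset (Fin e → Bool)).biUnion fun ex =>
        ((univ.filter fun x : (Fin h → Bool) × (Fin h → Bool) =>
          a ≤ Real.log (zv (wd (List.ofFn ex) x)) ∧ Real.log (zv (wd (List.ofFn ex) x)) ≤ a + L).image
            (wd (List.ofFn ex))) := by
      intro w hw
      obtain ⟨hw1, hw2⟩ := mem_filter.1 hw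
      rw [Wf, mem_image] at hw1
      obtain ⟨m, -, rfl⟩ := hw1
      -- split m
      have h2 : ∀ (k : ℕ) (hk : n = k) (m' : Fin k → Bool), List.ofFn m' = List.ofFn (fun i => m' (Fin.cast hk i)) := by
        rintro k rfl m'
        rfl
      set m' : Fin (h + (h + e)) → Bool := fun i => m (Fin.cast hn.symm i) with hm'
      have h3 : List.ofFn m = List.ofFn m' := by
        rw [h2 _ hn m']
        rfl
      obtain ⟨⟨t, s⟩, hts⟩ := (Fin.appendEquiv h (h + e) (α := Bool)).surjective m'
      obtain ⟨⟨b, ex⟩, hbe⟩ := (Fin.appendEquiv h e (α := Bool)).surjective s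
      have h4 : List.ofFn m' = List.ofFn t ++ (List.ofFn b ++ List.ofFn ex) := by
        rw [← hts, ← hbe]
        simp [Fin.appendEquiv, List.ofFn_fin_append]
      have h5 : wm m = wd (List.ofFn ex) (t, b) := by
        rw [wm, wd, h3, h4]
      refine mem_biUnion.2 ⟨ex, mem_univ _, mem_image.2 ⟨(t, b), mem_filter.2 ⟨mem_univ _, ?_⟩, h5.symm⟩⟩
      rw [← h5]
      exact hw2
    have h2 := (card_le_card h1).trans card_biUnion_le
    have h3 : ∀ ex : Fin e → Bool, (((univ.filter fun x : (Fin h → Bool) × (Fin h → Bool) =>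
          a ≤ Real.log (zv (wd (List.ofFn ex) x)) ∧ Real.log (zv (wd (List.ofFn ex) x)) ≤ a + L).image
            (wd (List.ofFn ex))).card : ℝ) ≤ (6000 * L + 1) * (4 ^ h * Real.sqrt (2 / h)) := by
      intro ex
      refine le_trans (by exact_mod_cast card_image_le) (anti_all hh4 (List.ofFn ex) ?_ a L hL)
      rw [List.length_ofFn]
      omega
    have hh0 : (0 : ℝ) < h := by
      have : 0 < h := by omega
      exact_mod_cast this
    have h4 : Real.sqrt (2 / h) ≤ 4 / Real.sqrt ((n + 2 : ℕ) : ℝ) := by
      have h5 : 0 ≤ 4 / Real.sqrt ((n + 2 : ℕ) : ℝ) := by positivity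
      rw [Real.sqrt_le_left h5, div_pow, Real.sq_sqrt hp0.le, div_le_div_iff₀ hh0 hp0]
      have h6 : ((n + 2 : ℕ) : ℝ) ≤ 8 * h := by exact_mod_cast (by omega : n + 2 ≤ 8 * h)
      linarith
    calc (((Wf (n + 2)).filter P).card : ℝ)
        ≤ ((∑ ex : Fin e → Bool, (((univ.filter fun x : (Fin h → Bool) × (Fin h → Bool) =>
          a ≤ Real.log (zv (wd (List.ofFn ex) x)) ∧ Real.log (zv (wd (List.ofFn ex) x)) ≤ a + L).image
            (wd (List.ofFn ex))).card) : ℕ) : ℝ) := by exact_mod_cast h2
      _ ≤ ∑ _ex : Fin e → Bool, (6000 * L + 1) * (4 ^ h * Real.sqrt (2 / h)) := by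
          push_cast
          exact sum_le_sum fun ex _ => h3 ex
      _ = (6000 * L + 1) * Real.sqrt (2 / h) * (2 ^ e * 4 ^ h) := by
          rw [sum_const, card_univ, Fintype.card_fun, Fintype.card_fin, Fintype.card_bool, nsmul_eq_mul]
          push_cast
          ring
      _ = (6000 * L + 1) * Real.sqrt (2 / h) * (Wf (n + 2)).card := by
          rw [card_Wf]
          congr 1
          push_cast
          rw [show (4 : ℝ) = 2 ^ 2 by norm_num, ← pow_mul, ← pow_add]
          congr 1
          omega
      _ ≤ _ := by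
          refine mul_le_mul_of_nonneg_right (mul_le_mul_of_nonneg_left h4 (by positivity)) (Nat.cast_nonneg _)

/-- two coordinates of a product -/
theorem pair_count {m : ℕ} {Y : Type} [DecidableEq Y] (S : Fin m → Finset Y) (F : Fin m → Y → ℝ) (lam β : ℝ)
    (j l : Fin m) (hjl : j ≠ l)
    (h : ∀ c : ℝ, (((S j).filter fun y => |F j y - c| ≤ lam).card : ℝ) ≤ β * (S j).card) :
    (((Fintype.piFinset S).filter fun x => |F j (x j) - F l (x l)| ≤ lam).card : ℝ) ≤
      β * (Fintype.piFinset S).card := by
  classical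
  rcases (S j).eq_empty_or_nonempty with h0 | h0
  · have h1 : Fintype.piFinset S = ∅ := by
      rw [Finset.eq_empty_iff_forall_notMem]
      intro x hx
      have := Fintype.mem_piFinset.1 hx j
      rw [h0] at this
      exact absurd this (notMem_empty _)
    rw [h1]
    simp
  · have hpos : (0 : ℝ) < (S j).card := by exact_mod_cast card_pos.2 h0
    set T : Finset (Fin m → Y) := Fintype.piFinset S with hT
    have h1 : (T.filter fun x => |F j (x j) - F l (x l)| ≤ lam).card * (S j).card =
        ∑ x ∈ T, ((S j).filter fun y => |F j y - F l (x l)| ≤ lam).card := by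
      rw [← card_product, ← card_sigma]
      refine card_bij' (fun z _ => (⟨Function.update z.1 j z.2, z.1 j⟩ : Σ _ : Fin m → Y, Y))
        (fun z _ => (Function.update z.1 j z.2, z.1 j)) ?_ ?_ ?_ ?_
      · rintro ⟨x, y⟩ hz
        rw [mem_product, mem_filter] at hz
        obtain ⟨⟨hx, hx2⟩, hy⟩ := hz
        rw [mem_sigma, mem_filter]
        refine ⟨Fintype.mem_piFinset.2 fun i => ?_, Fintype.mem_piFinset.1 hx j, ?_⟩
        · rcases eq_or_ne i j with rfl | hij
          · simpa using hy
          · simpa [Function.update_of_ne hij] using Fintype.mem_piFinset.1 hx i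
        · simpa [Function.update_of_ne hjl.symm] using hx2
      · rintro ⟨x, y⟩ hz
        rw [mem_sigma, mem_filter] at hz
        obtain ⟨hx, hy, hy2⟩ := hz
        rw [mem_product, mem_filter]
        refine ⟨⟨Fintype.mem_piFinset.2 fun i => ?_, ?_⟩, Fintype.mem_piFinset.1 hx j⟩
        · rcases eq_or_ne i j with rfl | hij
          · simpa using hy
          · simpa [Function.update_of_ne hij] using Fintype.mem_piFinset.1 hx i
        · simpa [Function.update_of_ne hjl.symm] using hy2
      · rintro ⟨x, y⟩ _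
        simp
      · rintro ⟨x, y⟩ _
        simp
    have h2 : (∑ x ∈ T, (((S j).filter fun y => |F j y - F l (x l)| ≤ lam).card : ℝ)) ≤
        ∑ _x ∈ T, β * (S j).card := sum_le_sum fun x _ => h _
    rw [sum_const, nsmul_eq_mul] at h2
    have h3 : ((T.filter fun x => |F j (x j) - F l (x l)| ≤ lam).card : ℝ) * (S j).card ≤
        (β * T.card) * (S j).card := by
      have h4 : ((T.filter fun x => |F j (x j) - F l (x l)| ≤ lam).card : ℝ) * (S j).card =
          ∑ x ∈ T, (((S j).filter fun y => |F j y - F l (x l)| ≤ lam).card : ℝ) := by exact_mod_cast h1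
      rw [h4]
      refine h2.trans (le_of_eq ?_)
      ring
    exact le_of_mul_le_mul_right h3 hpos

/-- all pairs of coordinates -/
theorem sep_count {m : ℕ} {Y : Type} [DecidableEq Y] (S : Fin m → Finset Y) (F : Fin m → Y → ℝ) (lam β : ℝ)
    (h : ∀ j, ∀ c : ℝ, (((S j).filter fun y => |F j y - c| ≤ lam).card : ℝ) ≤ β * (S j).card) (hβ : 0 ≤ β) :
    (((Fintype.piFinset S).filter fun x => ∃ j l, j ≠ l ∧ |F j (x j) - F l (x l)| ≤ lam).card : ℝ) ≤
      (m : ℝ) ^ 2 * β * (Fintype.piFinset S).card := by
  classical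
  have h1 : ((Fintype.piFinset S).filter fun x => ∃ j l, j ≠ l ∧ |F j (x j) - F l (x l)| ≤ lam) ⊆
      (univ : Finset (Fin m × Fin m)).biUnion fun z => if z.1 ≠ z.2 then
        (Fintype.piFinset S).filter fun x => |F z.1 (x z.1) - F z.2 (x z.2)| ≤ lam else ∅ := by
    intro x hx
    obtain ⟨hx1, j, l, hjl, hx2⟩ := mem_filter.1 hx
    refine mem_biUnion.2 ⟨(j, l), mem_univ _, ?_⟩
    rw [if_pos hjl]
    exact mem_filter.2 ⟨hx1, hx2⟩
  have h2 := (card_le_card h1).trans card_biUnion_le
  calc (((Fintype.piFinset S).filter fun x => ∃ j l, j ≠ l ∧ |F j (x j) - F l (x l)| ≤ lam).card : ℝ)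
      ≤ ((∑ z : Fin m × Fin m, (if z.1 ≠ z.2 then
        (Fintype.piFinset S).filter fun x => |F z.1 (x z.1) - F z.2 (x z.2)| ≤ lam else ∅).card : ℕ) : ℝ) := by
        exact_mod_cast h2
    _ ≤ ∑ _z : Fin m × Fin m, β * (Fintype.piFinset S).card := by
        push_cast
        refine sum_le_sum fun z _ => ?_
        split_ifs with hz
        · exact pair_count S F lam β z.1 z.2 hz (h z.1)
        · simp only [card_empty, Nat.cast_zero]
          positivity
    _ = (m : ℝ) ^ 2 * β * (Fintype.piFinset S).card := by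
        rw [sum_const, card_univ, Fintype.card_prod, Fintype.card_fin, nsmul_eq_mul]
        push_cast
        ring

/-- separated values satisfy no small relation -/
theorem dominate {m : ℕ} (z : Fin m → ℝ) (hz : ∀ j, 0 < z j) (B : ℝ) (hB : 1 ≤ B)
    (hsep : ∀ j l, j ≠ l → Real.log (m * B) < |Real.log (z j) - Real.log (z l)|) (c : Fin m → ℤ)
    (hc : ∀ j, |(c j : ℝ)| ≤ B) (j : Fin m) (hj : c j ≠ 0) : z j ≤ m * |∑ i, (c i : ℝ) * z i| := by
  classical
  have hm : (0 : ℝ) < m := by
    have := j.pos
    exact_mod_cast this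
  set T : Finset (Fin m) := univ.filter fun i => c i ≠ 0 with hT
  obtain ⟨k, hk, hmax⟩ := exists_max_image T z ⟨j, mem_filter.2 ⟨mem_univ _, hj⟩⟩
  have hck : 1 ≤ |(c k : ℝ)| := by
    have h1 := (mem_filter.1 hk).2
    have h2 : 1 ≤ |c k| := Int.one_le_abs h1
    exact_mod_cast h2
  have hsum : ∑ i, (c i : ℝ) * z i = c k * z k + ∑ i ∈ univ.erase k, (c i : ℝ) * z i :=
    (add_sum_erase _ _ (mem_univ k)).symm
  have hoth : ∀ i ∈ univ.erase k, |(c i : ℝ) * z i| ≤ z k / m := by
    intro i hi
    by_cases hci : c i = 0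
    · rw [hci, Int.cast_zero, zero_mul, abs_zero]
      have := hz k
      positivity
    · have hiT : i ∈ T := mem_filter.2 ⟨mem_univ _, hci⟩
      have h1 := hmax i hiT
      have h2 := hsep k i (Ne.symm (ne_of_mem_erase hi))
      have h3 : Real.log (z i) ≤ Real.log (z k) := Real.log_le_log (hz i) h1
      rw [abs_of_nonneg (by linarith)] at h2
      have hmB : 0 < m * B := by positivity
      have h4 : Real.log (m * B * z i) < Real.log (z k) := by
        rw [Real.log_mul hmB.ne' (hz i).ne']
        linarith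
      have h5 : m * B * z i < z k := (Real.log_lt_log_iff (mul_pos hmB (hz i)) (hz k)).1 h4
      rw [abs_mul, abs_of_pos (hz i), le_div_iff₀ hm]
      calc |(c i : ℝ)| * z i * m ≤ B * z i * m := by
            refine mul_le_mul_of_nonneg_right (mul_le_mul_of_nonneg_right (hc i) (hz i).le) hm.le
        _ ≤ z k := by linarith
  have h1 : |∑ i ∈ univ.erase k, (c i : ℝ) * z i| ≤ (m - 1) * (z k / m) := by
    refine (abs_sum_le_sum_abs _ _).trans ((sum_le_sum hoth).trans ?_)
    rw [sum_const, card_erase_of_mem (mem_univ k), card_univ, Fintype.card_fin, nsmul_eq_mul]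
    refine mul_le_mul_of_nonneg_right ?_ (by have := hz k; positivity)
    rw [Nat.cast_sub (by have := k.pos; omega)]
    push_cast
    exact le_rfl
  have h2 : z k ≤ |(c k : ℝ) * z k| := by
    rw [abs_mul, abs_of_pos (hz k)]
    nlinarith [hz k]
  have h3 : |(c k : ℝ) * z k| - |∑ i ∈ univ.erase k, (c i : ℝ) * z i| ≤ |∑ i, (c i : ℝ) * z i| := by
    rw [hsum]
    have := abs_sub_abs_le_abs_sub ((c k : ℝ) * z k) (-∑ i ∈ univ.erase k, (c i : ℝ) * z i)
    rwa [abs_neg, sub_neg_eq_add] at this
  have h4 : z k / m ≤ |∑ i, (c i : ℝ) * z i| := by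
    have h5 : (m - 1) * (z k / m) = z k - z k / m := by field_simp
    rw [h5] at h1
    linarith
  have h5 := hmax j (mem_filter.2 ⟨mem_univ _, hj⟩)
  rw [div_le_iff₀ hm] at h4
  linarith

end Pool.Agent.K7.H78.MZ
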