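import Pool.Agent.K7.H78.MZ.Link
import Pool.Agent.H447R2.MZ.Basic

/-!
# Words, indices, multiple zeta values
-/

set_option autoImplicit false

namespace Pool.Agent.K7.H78.MZ

open Finset Filter Topology
open scoped ENNReal
open Pool.Agent.TH507.DS (Lb Lb_nil Lb_cons Jn In yv Vd coeff_nonneg coeff_In coeff_zero_Lb Zb sh sh_Vd Zb_mul)
open Pool.Agent.H447R2.MZ (Adm val H H_nil H_cons H_nonneg H_le_val tendsto_H st st_adm val_mul)

/-- `trunc [s_1, ..., s_r] m` is the sum of `∏ k_i ^ (-s_i)` over `m > k_1 > ... > k_r ≥ 1` -/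
noncomputable def trunc : List ℕ → ℕ → ℝ
  | [], _ => 1
  | s :: l, m => ∑ j ∈ Finset.Ico 1 m, trunc l j / (j : ℝ) ^ s

/-- the multiple zeta value `ζ(s_1, ..., s_r)`, `s_1` belongs to the largest variable -/
noncomputable def mzv : List ℕ → ℝ
  | [] => 1
  | s :: l => ∑' k : ℕ, trunc l (k + 1) / ((k + 1 : ℕ) : ℝ) ^ s

/-- the word `y_{k_1} ... y_{k_t}`, where `y_k = x ^ (k - 1) y`, `x = false`, `y = true` -/
def word : List ℕ → List Bool
  | [] => []
  | k :: l => List.replicate (k - 1) false ++ true :: word l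

/-- `index 0 w` is the list of the `k_i` for the word `w = y_{k_1} ... y_{k_t}` -/
def index : ℕ → List Bool → List ℕ
  | _, [] => []
  | c, true :: u => (c + 1) :: index 0 u
  | c, false :: u => index (c + 1) u

lemma trunc_H (l : List ℕ) : ∀ N, trunc l (N + 1) = H l N := by
  induction l with
  | nil => intro N; rw [trunc, H_nil]
  | cons a s ih =>
    intro N
    rw [trunc, H_cons, sum_Ico_eq_sum_range, Nat.add_sub_cancel]
    refine sum_congr rfl fun k _ => ?_
    rw [add_comm 1 k, ih, div_eq_mul_inv, mul_comm]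

lemma Vd_rep (m : ℕ) (w : List Bool) (hw : Vd w) : Vd (List.replicate m false ++ true :: w) := by
  induction m with
  | zero => exact ⟨fun _ => rfl, hw⟩
  | succ m ih =>
    rw [List.replicate_succ, List.cons_append]
    exact ⟨fun h => by simp at h, ih⟩

lemma Vd_word (l : List ℕ) : Vd (word l) := by
  induction l with
  | nil => trivial
  | cons k l ih => exact Vd_rep _ _ ih

lemma word_index (u : List Bool) : ∀ c, Vd u → (u ≠ [] ∨ c = 0) →
    word (index c u) = List.replicate c false ++ u := by
  induction u with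
  | nil =>
    intro c _ h
    rcases h with h | rfl
    · exact absurd rfl h
    · rfl
  | cons a u ih =>
    intro c hu _
    cases a with
    | true =>
      rw [index, word, Nat.add_sub_cancel, ih 0 hu.2 (Or.inr rfl)]
      rfl
    | false =>
      have hne : u ≠ [] := fun h => by simpa using hu.1 h
      rw [index, ih (c + 1) hu.2 (Or.inl hne), List.replicate_succ']
      simp

lemma index_pos (u : List Bool) : ∀ c, ∀ s ∈ index c u, 1 ≤ s := by
  induction u with
  | nil => intro c s hs; exact absurd hs List.not_mem_nil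
  | cons a u ih =>
    intro c s hs
    cases a with
    | true =>
      rw [index] at hs
      rcases List.mem_cons.1 hs with rfl | hs
      · exact Nat.le_add_left _ _
      · exact ih 0 s hs
    | false =>
      rw [index] at hs
      exact ih (c + 1) s hs

lemma index_head (u : List Bool) : ∀ c, ∀ a t, index c u = a :: t → c + 1 ≤ a := by
  induction u with
  | nil => intro c a t h; simp [index] at h
  | cons b u ih =>
    intro c a t h
    cases b with
    | true =>
      rw [index] at h
      rw [← (List.cons.inj h).1]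
    | false =>
      rw [index] at h
      have := ih (c + 1) a t h
      omega

/-- the admissible words -/
def AdmW (w : List Bool) : Prop := w = [] ∨ (w.head? = some false ∧ w.getLast? = some true)

lemma Vd_of_last (w : List Bool) (h : w.getLast? = some true) : Vd w := by
  induction w with
  | nil => trivial
  | cons a w ih =>
    refine ⟨fun h1 => ?_, ?_⟩
    · subst h1
      simpa using h
    · rcases w with _ | ⟨b, w⟩
      · trivial
      · exact ih (by simpa [List.getLast?_cons_cons] using h)

lemma AdmW.Vd {w : List Bool} (h : AdmW w) : Vd w := by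
  rcases h with rfl | h
  · trivial
  · exact Vd_of_last w h.2

lemma AdmW.adm {w : List Bool} (h : AdmW w) : Adm (index 0 w) := by
  refine ⟨index_pos w 0, fun a t h1 => ?_⟩
  rcases h with rfl | ⟨h2, -⟩
  · simp [index] at h1
  · rcases w with _ | ⟨b, w⟩
    · simp at h2
    · rw [List.head?_cons, Option.some.injEq] at h2
      subst h2
      rw [index] at h1
      have := index_head w 1 a t h1
      omega

lemma AdmW.word_index {w : List Bool} (h : AdmW w) : word (index 0 w) = w := by
  rw [MZ.word_index w 0 h.Vd (Or.inr rfl)]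
  rfl

lemma coeff_rep (m : ℕ) (w : List Bool) (n : ℕ) :
    PowerSeries.coeff n (Lb (List.replicate m false ++ true :: w)) =
      (∑ j ∈ range n, PowerSeries.coeff j (Lb w)) / (n : ℝ) ^ (m + 1) := by
  induction m with
  | zero =>
    rw [List.replicate_zero, List.nil_append, Lb_cons, Jn, coeff_In, coeff_y, zero_add, pow_one]
  | succ m ih =>
    rw [List.replicate_succ, List.cons_append, Lb_cons, Jn, coeff_In]
    have h1 : yv false = 1 := by simp [yv]
    rw [h1, one_mul, ih, div_div, ← pow_succ]

lemma sum_word (l : List ℕ) (hl : ∀ s ∈ l, 1 ≤ s) (n : ℕ) (hn : 1 ≤ n) :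
    ∑ j ∈ range n, PowerSeries.coeff j (Lb (word l)) = trunc l n := by
  induction l generalizing n with
  | nil =>
    rw [word, Lb_nil, trunc, sum_eq_single 0]
    · simp
    · intro j _ hj
      rw [PowerSeries.coeff_one, if_neg hj]
    · intro h
      exact absurd (mem_range.2 hn) h
  | cons s l ih =>
    have hs := hl s List.mem_cons_self
    have ih' := ih fun s' hs' => hl s' (List.mem_cons_of_mem _ hs')
    rw [trunc, range_eq_Ico, sum_eq_sum_Ico_succ_bot hn]
    have h0 : PowerSeries.coeff 0 (Lb (word (s :: l))) = 0 := by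
      refine coeff_zero_Lb ?_
      rw [word]
      simp
    rw [h0, zero_add]
    refine sum_congr rfl fun j hj => ?_
    rw [mem_Ico] at hj
    rw [word, coeff_rep, ih' j hj.1, Nat.sub_add_cancel hs]

lemma coeff_word (s : ℕ) (l : List ℕ) (hs : 1 ≤ s) (hl : ∀ s ∈ l, 1 ≤ s) (n : ℕ) :
    PowerSeries.coeff n (Lb (word (s :: l))) = trunc l n / (n : ℝ) ^ s := by
  rw [word, coeff_rep, Nat.sub_add_cancel hs]
  rcases Nat.eq_zero_or_pos n with rfl | hn
  · rw [Nat.cast_zero, zero_pow (by omega), div_zero, div_zero]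
  · rw [sum_word l hl n hn]

lemma mzv_Zb (l : List ℕ) (hl : ∀ s ∈ l, 1 ≤ s) : mzv l = Zb (word l) := by
  cases l with
  | nil =>
    rw [mzv, Zb, word, Lb_nil]
    simp only [PowerSeries.coeff_one]
    rw [tsum_ite_eq]
  | cons s l =>
    have hs := hl s List.mem_cons_self
    have hl' : ∀ s ∈ l, 1 ≤ s := fun s' hs' => hl s' (List.mem_cons_of_mem _ hs')
    rw [mzv, Zb]
    have hinj : Function.Injective fun k : ℕ => k + 1 := fun a b h => Nat.succ_injective h
    have h1 : ∀ k : ℕ, trunc l (k + 1) / ((k + 1 : ℕ) : ℝ) ^ s =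
        PowerSeries.coeff (k + 1) (Lb (word (s :: l))) := fun k =>
      (coeff_word s l hs hl' (k + 1)).symm
    rw [tsum_congr h1]
    refine hinj.tsum_eq (f := fun n => PowerSeries.coeff n (Lb (word (s :: l)))) ?_
    intro n hn
    rw [Function.mem_support, coeff_word s l hs hl'] at hn
    rcases Nat.eq_zero_or_pos n with rfl | hn0
    · exfalso
      apply hn
      rw [Nat.cast_zero, zero_pow (by omega), div_zero]
    · exact ⟨n - 1, by simp only; omega⟩

lemma hasSum_mzv (s : ℕ) (l : List ℕ) (hl : Adm (s :: l)) :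
    HasSum (fun k : ℕ => trunc l (k + 1) / ((k + 1 : ℕ) : ℝ) ^ s) (val (s :: l)) := by
  have h2 := tendsto_H (s :: l) hl
  have h3 : ∀ k : ℕ, 0 ≤ trunc l (k + 1) / ((k + 1 : ℕ) : ℝ) ^ s := fun k => by
    rw [trunc_H]
    exact div_nonneg (H_nonneg _ _) (by positivity)
  refine (hasSum_iff_tendsto_nat_of_nonneg h3 _).2 ?_
  refine h2.congr fun N => ?_
  rw [H_cons]
  refine sum_congr rfl fun k _ => ?_
  rw [trunc_H, div_eq_mul_inv, mul_comm]

lemma mzv_val (l : List ℕ) (hl : Adm l) : mzv l = val l := by
  cases l with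
  | nil =>
    have h2 := tendsto_H [] hl
    have h3 : H [] = fun _ => 1 := funext H_nil
    rw [h3] at h2
    rw [mzv]
    exact tendsto_nhds_unique tendsto_const_nhds h2
  | cons s l => exact (hasSum_mzv s l hl).tsum_eq

lemma summable_adm {l : List ℕ} (hl : Adm l) : Summable fun n => PowerSeries.coeff n (Lb (word l)) := by
  cases l with
  | nil =>
    rw [word, Lb_nil]
    refine summable_of_ne_finset_zero (s := {0}) fun n hn => ?_
    rw [PowerSeries.coeff_one, if_neg (by simpa using hn)]
  | cons s l =>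
    have h1 := (hasSum_mzv s l hl).summable
    have hs : 1 ≤ s := by
      have := hl.2 s l rfl
      omega
    have hl' : ∀ t ∈ l, 1 ≤ t := fun t ht => hl.1 t (List.mem_cons_of_mem _ ht)
    refine (summable_nat_add_iff 1).1 (h1.congr fun n => ?_)
    rw [coeff_word s l hs hl']

/-- the value of a word -/
noncomputable def zv (w : List Bool) : ℝ := mzv (index 0 w)

lemma zv_Zb {w : List Bool} (h : Vd w) : zv w = Zb w := by
  rw [zv, mzv_Zb _ (index_pos w 0), MZ.word_index w 0 h (Or.inr rfl)]
  rfl

lemma H_pos (l : List ℕ) : ∀ N, l.length ≤ N → 0 < H l N := by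
  induction l with
  | nil => intro N _; rw [H_nil]; exact one_pos
  | cons a s ih =>
    intro N hN
    obtain ⟨M, rfl⟩ : ∃ M, N = M + 1 := ⟨N - 1, by rw [List.length_cons] at hN; omega⟩
    rw [List.length_cons] at hN
    rw [Pool.Agent.H447R2.MZ.H_cons_succ]
    have h1 := ih M (by omega)
    have h2 := H_nonneg (a :: s) M
    have h3 : 0 < (((M + 1 : ℕ) : ℝ) ^ a)⁻¹ * H s M := by positivity
    linarith

lemma val_pos {l : List ℕ} (hl : Adm l) : 0 < val l :=
  (H_pos l _ le_rfl).trans_le (H_le_val l hl _)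

lemma AdmW.pos {w : List Bool} (h : AdmW w) : 0 < zv w := by
  rw [zv, mzv_val _ h.adm]
  exact val_pos h.adm

lemma AdmW.Zt {w : List Bool} (h : AdmW w) : MZ.Zt w = ENNReal.ofReal (zv w) := by
  have h1 := summable_adm h.adm
  rw [h.word_index] at h1
  rw [Zt_Zb w h.Vd h1, zv_Zb h.Vd]

/-- shuffle products -/
lemma zv_sh {u v : List Bool} (hu : AdmW u) (hv : AdmW v) : zv u * zv v = ((sh u v).map zv).sum := by
  have h1 := summable_adm hu.adm
  have h2 := summable_adm hv.adm
  rw [hu.word_index] at h1
  rw [hv.word_index] at h2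
  rw [zv_Zb hu.Vd, zv_Zb hv.Vd, Zb_mul hu.Vd hv.Vd h1 h2]
  congr 1
  refine List.map_congr_left fun w hw => ?_
  rw [zv_Zb (sh_Vd _ _ hu.Vd hv.Vd w hw)]

/-- stuffle products -/
lemma zv_st {k l : List ℕ} (hk : Adm k) (hl : Adm l) : mzv k * mzv l = ((st k l).map mzv).sum := by
  rw [mzv_val k hk, mzv_val l hl, val_mul k l hk hl]
  congr 1
  refine List.map_congr_left fun w hw => ?_
  rw [mzv_val w (st_adm k l hk hl w hw)]

/-- **the swap lemma for the values** -/
theorem zv_swap (u V w : List Bool) (h10 : 10 ≤ u.length + V.length + w.length + 2)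
    (h4 : u.length + V.length + w.length + 2 ≤ 4 * V.length)
    (hx : AdmW (u ++ false :: (V ++ true :: w))) (hy : AdmW (u ++ true :: (V ++ false :: w))) :
    zv (u ++ false :: (V ++ true :: w)) ≤ (1 - 1 / 6000) * zv (u ++ true :: (V ++ false :: w)) := by
  have h1 := swap_const u.reverse V w (by rwa [List.length_reverse]) (by rwa [List.length_reverse])
  rw [List.reverse_reverse, hx.Zt, hy.Zt, ← ENNReal.ofReal_mul (by norm_num)] at h1
  exact (ENNReal.ofReal_le_ofReal_iff (mul_nonneg (by norm_num) hy.pos.le)).1 h1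

theorem zv_swap_le (u V w : List Bool) (hx : AdmW (u ++ false :: (V ++ true :: w)))
    (hy : AdmW (u ++ true :: (V ++ false :: w))) :
    zv (u ++ false :: (V ++ true :: w)) ≤ zv (u ++ true :: (V ++ false :: w)) := by
  have h1 := swap_le u.reverse V w
  rw [List.reverse_reverse, hx.Zt, hy.Zt] at h1
  exact (ENNReal.ofReal_le_ofReal_iff hy.pos.le).1 h1

end Pool.Agent.K7.H78.MZ
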